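import Pool.Agent.Lib.AndoB.Main1

/-!
# AndoB.Main: Case B

`pair_good`: by `main1` `Good G` or op S v1 = {g, g'}, g /= g', both black with sd S = 1, not adjacent.  In c1 = sflip S b u1 u2 u3: v1 is in Z(c1), op c1 v1 = {u1, g, g'}
(`pair_flip_v`), all of sd c1 = 1 (`star_flip_rest` for g, g'; the Pair of c1 for u1), pairwise not adjacent (u1 is not adjacent to g, g': op S u1 = {b, x1}, of sd 0).  By `exists_pair` in the
order g, u1, g' there is a Pair P at v1 in c1 with first white vertex g; its v-part of g is the partner gs of g (sm S g = {gs}, unchanged in c1).  `main1` for P: `Good G` or op c1 gs = {p, q},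
p /= q, sd c1 p = sd c1 q = 1, p, q not adjacent.  gs is black in S with sd = 1 (`sm_symm`, `hL.tf`), so not special, and op c1 gs = op S gs (`star_flip_rest`); p, q are white in S.
p, q are black in c1 with sd c1 = 1: sd S p = 1 too: p is not ui or b (those are white/black: p is black in c1, white in S and c1: the ui are white in c1), p is not vi (sd c1 vi = 0), so unchanged
(`star_flip_rest`).  So p, q in `UN S gs`: by `fact1g` adjacent.  Contradiction.
`caseB`: `exists_pair` and `pair_good`.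
-/

set_option autoImplicit false
set_option linter.unusedSectionVars false

namespace Pool.Agent.Lib.AndoB

open Pool.Agent.Lib.Ando

variable {V : Type*} [Fintype V] [DecidableEq V] (G : SimpleGraph V) [DecidableRel G.Adj]

namespace MainAux

variable {G} in
theorem rest_black {S : Finset V} (htf : ∀ v, sd G S v ≤ 1)
    {b u1 u2 u3 x1 x2 x3 v1 v2 v3 : V} (h : Pair G S b u1 u2 u3 x1 x2 x3 v1 v2 v3)
    {y : V} (yS : y ∉ S) (sy : sd G S y = 1) :
    y ∈ sflip S b u1 u2 u3 ∧ sm G (sflip S b u1 u2 u3) y = sm G S y ∧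
      op G (sflip S b u1 u2 u3) y = op G S y := by
  obtain ⟨-, -, -, -, -, -, -, -, -, -, -, -, V1, V2, V3, -⟩ := h.facts htf
  have nb : y ≠ b := by
    rintro rfl
    have := h.sb
    omega
  have n1 : y ≠ u1 := by
    rintro rfl
    exact yS h.h1
  have n2 : y ≠ u2 := by
    rintro rfl
    exact yS h.h2
  have n3 : y ≠ u3 := by
    rintro rfl
    exact yS h.h3
  have m1 : y ≠ x1 := by
    rintro rfl
    have := h.z1
    omega
  have m2 : y ≠ x2 := by
    rintro rfl
    have := h.z2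
    omega
  have m3 : y ≠ x3 := by
    rintro rfl
    have := h.z3
    omega
  have k1 : y ≠ v1 := by
    rintro rfl
    exact yS V1
  have k2 : y ≠ v2 := by
    rintro rfl
    exact yS V2
  have k3 : y ≠ v3 := by
    rintro rfl
    exact yS V3
  obtain ⟨r1, r2⟩ := star_flip_rest h.toStar nb n1 n2 n3
  obtain ⟨r3, r4⟩ := r2 m1 m2 m3 k1 k2 k3
  exact ⟨r1.2 yS, r3, r4⟩

variable {G} in
theorem rest_white {S : Finset V} (htf : ∀ v, sd G S v ≤ 1)
    {b u1 u2 u3 x1 x2 x3 v1 v2 v3 : V} (h : Pair G S b u1 u2 u3 x1 x2 x3 v1 v2 v3)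
    (h' : Pair G (sflip S b u1 u2 u3) b u1 u2 u3 v1 v2 v3 x1 x2 x3)
    {y : V} (yS : y ∈ S) (yc : y ∉ sflip S b u1 u2 u3)
    (sy : sd G (sflip S b u1 u2 u3) y = 1) : sd G S y = 1 := by
  obtain ⟨-, -, -, -, -, -, -, -, -, -, -, -, -, -, -, -, -, -, -, -, -, -, -, -, -, -, -, -, -, -,
    X1, X2, X3⟩ := h.facts htf
  have nb : y ≠ b := by
    rintro rfl
    exact h.hb yS
  have n1 : y ≠ u1 := by
    rintro rfl
    exact yc h'.h1
  have n2 : y ≠ u2 := by
    rintro rfl
    exact yc h'.h2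
  have n3 : y ≠ u3 := by
    rintro rfl
    exact yc h'.h3
  have m1 : y ≠ x1 := by
    rintro rfl
    exact X1 yS
  have m2 : y ≠ x2 := by
    rintro rfl
    exact X2 yS
  have m3 : y ≠ x3 := by
    rintro rfl
    exact X3 yS
  have k1 : y ≠ v1 := by
    rintro rfl
    have := h'.z1
    omega
  have k2 : y ≠ v2 := by
    rintro rfl
    have := h'.z2
    omega
  have k3 : y ≠ v3 := by
    rintro rfl
    have := h'.z3
    omega
  obtain ⟨-, r2⟩ := star_flip_rest h.toStar nb n1 n2 n3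
  obtain ⟨r3, -⟩ := r2 m1 m2 m3 k1 k2 k3
  unfold sd at sy ⊢
  rw [r3] at sy
  exact sy

variable {G} in
theorem sd_of_sm {S : Finset V} {v w : V} (h : sm G S v = {w}) : sd G S v = 1 := by
  unfold sd
  rw [h, Finset.card_singleton]

end MainAux

open MainAux

variable {G} in
theorem pair_good (hG : G.IsRegularOfDegree 3) (hD : DLfree G 1) {S : Finset V}
    (hL : Level G 1 S) {b u1 u2 u3 x1 x2 x3 v1 v2 v3 : V}
    (h : Pair G S b u1 u2 u3 x1 x2 x3 v1 v2 v3) : Good G := by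
  rcases main1 hG hD hL h with hgood | ⟨g, g', og, ngg, sg1, sg2, agg⟩
  · exact hgood
  obtain ⟨hL1, hP1⟩ := pair_flip hG hL h
  obtain ⟨sv, ov⟩ := pair_flip_v hL.tf h
  obtain ⟨-, -, -, u1v1, -, -, u2v1, -, -, u3v1, -, -, V1, -, -, -, -, -, -, -, -, bV1, -⟩ :=
    h.facts hL.tf
  have hgS : ∀ y ∈ op G S v1, y ∉ S := fun y hy hyS =>
    (mem_op.1 hy).2 ⟨fun _ => V1, fun _ => hyS⟩
  have mg : g ∈ op G S v1 := by rw [og]; simp
  have mg' : g' ∈ op G S v1 := by rw [og]; simp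
  have gS := hgS g mg
  have g'S := hgS g' mg'
  obtain ⟨gc, gsm, gop⟩ := rest_black hL.tf h gS sg1
  obtain ⟨g'c, g'sm, g'op⟩ := rest_black hL.tf h g'S sg2
  -- the neighbours of `u1`
  have hnadj : ∀ y, y ∉ S → sd G S y = 1 → ¬ G.Adj u1 y := by
    intro y hy sy hadj
    have : y ∈ op G S u1 := mem_op.2 ⟨hadj, fun e => hy (e.2 h.h1)⟩
    rw [h.o1, Finset.mem_insert, Finset.mem_singleton] at this
    rcases this with rfl | rfl
    · have := h.sb
      omega
    · have := h.z1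
      omega
  have v1c : v1 ∉ sflip S b u1 u2 u3 := by
    have hvb : v1 ≠ b := by
      rintro rfl
      exact h.hb V1
    have := (star_flip_rest h.toStar hvb u1v1.symm u2v1.symm u3v1.symm).1
    rw [this]
    exact fun h' => h' V1
  have sv1 : sd G (sflip S b u1 u2 u3) v1 = 0 := by
    unfold sd
    rw [sv]
    rfl
  have ov1 : op G (sflip S b u1 u2 u3) v1 = {g, u1, g'} := by
    rw [ov, og, Finset.insert_comm]
  have gu : g ≠ u1 := by
    rintro rfl
    exact gS h.h1
  have gu' : u1 ≠ g' := by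
    rintro rfl
    exact g'S h.h1
  have t1 : sd G (sflip S b u1 u2 u3) g = 1 := by
    unfold sd at sg1 ⊢
    rw [gsm]
    exact sg1
  have t2 : sd G (sflip S b u1 u2 u3) u1 = 1 := sd_of_sm hP1.s1
  have t3 : sd G (sflip S b u1 u2 u3) g' = 1 := by
    unfold sd at sg2 ⊢
    rw [g'sm]
    exact sg2
  obtain ⟨-, y1, y2, y3, w1, w2, w3, hP⟩ := exists_pair hG hL1 le_rfl v1c sv1 ov1 gu ngg gu'
    t1 t2 t3 (fun e => hnadj g gS sg1 e.symm) agg (hnadj g' g'S sg2)
  rcases main1 hG hD hL1 hP with hgood | ⟨p, q, opq, npq, sp, sq, apq⟩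
  · exact hgood
  exfalso
  -- the partner `w1` of `g`
  have hw1 : w1 ∈ sm G S g := by
    rw [← gsm, hP.s1]
    simp
  have w1S : w1 ∉ S := fun h' => gS ((mem_sm.1 hw1).2.1 h')
  have sw1 : sd G S w1 = 1 := by
    have h1 : 1 ≤ (sm G S w1).card := Finset.card_pos.2 ⟨g, sm_symm hw1⟩
    have h2 := hL.tf w1
    unfold sd at h2 ⊢
    omega
  obtain ⟨wc, -, wop⟩ := rest_black hL.tf h w1S sw1
  have hUN : ∀ y ∈ op G (sflip S b u1 u2 u3) w1, sd G (sflip S b u1 u2 u3) y = 1 →
      y ∈ UN G S w1 := by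
    intro y hy sy
    have yc : y ∉ sflip S b u1 u2 u3 := fun h' =>
      (mem_op.1 hy).2 ⟨fun _ => wc, fun _ => h'⟩
    rw [wop] at hy
    have yS : y ∈ S := by
      by_contra h'
      exact (mem_op.1 hy).2 ⟨fun e => absurd e h', fun e => absurd e w1S⟩
    unfold UN
    rw [Finset.mem_filter]
    exact ⟨hy, rest_white hL.tf h hP1 yS yc sy⟩
  have hp := hUN p (by rw [opq]; simp) sp
  have hq := hUN q (by rw [opq]; simp) sq
  exact apq (fact1g hG hL le_rfl w1S sw1 hp hq npq)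

variable {G} in
theorem caseB (hG : G.IsRegularOfDegree 3) {k : ℕ} (hD : DLfree G k) {S : Finset V}
    (hL : Level G k S) (hk : 1 ≤ k) {b u1 u2 u3 : V} (hb : b ∉ S) (sb : sd G S b = 0)
    (ob : op G S b = {u1, u2, u3}) (n12 : u1 ≠ u2) (n13 : u1 ≠ u3) (n23 : u2 ≠ u3)
    (s1 : sd G S u1 = 1) (s2 : sd G S u2 = 1) (s3 : sd G S u3 = 1)
    (a12 : ¬ G.Adj u1 u2) (a13 : ¬ G.Adj u1 u3) (a23 : ¬ G.Adj u2 u3) : Good G := by
  obtain ⟨rfl, x1, x2, x3, v1, v2, v3, h⟩ :=
    exists_pair hG hL hk hb sb ob n12 n13 n23 s1 s2 s3 a12 a13 a23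
  exact pair_good hG hD hL h

end Pool.Agent.Lib.AndoB
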