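import Pool.Agent.Lib.AndoB.Defs

/-!
# AndoB.Fact1g: fact (1')

Conventions as in `AndoB.Defs`.  `Level.cost_ge`: `k - |k + iot S F| ≤ cost S F`.  Compute the cost of an explicit `F` with `Fact2Aux.cost_insert`, `cost_empty`, `iot_insert`, `iot_empty`,
`sg_nonadj`, `sg_bi`, `sg_nonneg` of `Ando/Fact2.lean` (see the proof of `fact2` there; check the namespace).

`fact1g`: l in L, u /= u' in U adjacent to l.  If u, u' are not adjacent: F = {u, l, u'} has cost (1 + 1 + 1) - 2 * 2 = -1 and iot = 1 - 2 = -1; but `Level.cost_ge` with k ≥ 1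
gives cost ≥ k - (k - 1) = 1.
`fact1g_sm`: then `sm S u` is `{u'}` (it has one element and contains u': adjacent, same colour).
`fact1g_card`: three different u, u', u'' in `UN S l`: u', u'' are both in `sm S u`, which has one element.
-/

set_option autoImplicit false
set_option linter.unusedSectionVars false

namespace Pool.Agent.Lib.AndoB

open Pool.Agent.Lib.Ando

variable {V : Type*} [Fintype V] [DecidableEq V] (G : SimpleGraph V) [DecidableRel G.Adj]

variable {G} in
theorem fact1g (hG : G.IsRegularOfDegree 3) {k : ℕ} {S : Finset V} (hL : Level G k S) (hk : 1 ≤ k)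
    {l u u' : V} (hl : l ∉ S) (sl : sd G S l = 1) (hu : u ∈ UN G S l) (hu' : u' ∈ UN G S l)
    (hne : u ≠ u') : G.Adj u u' := by
  by_contra a12
  have hU : ∀ u ∈ UN G S l, G.Adj l u ∧ u ∈ S ∧ sd G S u = 1 := by
    intro u hu
    unfold UN at hu
    rw [Finset.mem_filter, mem_op] at hu
    refine ⟨hu.1.1, ?_, hu.2⟩
    by_contra h
    exact hu.1.2 ⟨fun h' => absurd h' h, fun h' => absurd h' hl⟩
  have m1 := hU u hu
  have m2 := hU u' hu'
  have b1 : l ≠ u := fun h => hl (h ▸ m1.2.1)
  have b2 : l ≠ u' := fun h => hl (h ▸ m2.2.1)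
  have c2 : cost G S {u'} = 1 := by
    have := Fact2Aux.cost_insert G S ∅ u' (by simp)
    rw [Fact2Aux.cost_empty, m2.2.2, Finset.sum_empty] at this
    simpa using this
  have c1 : cost G S {u, u'} = 2 := by
    rw [Fact2Aux.cost_insert G S {u'} u (by simpa using hne), c2, m1.2.2, Finset.sum_singleton,
      Fact2Aux.sg_nonadj G a12]
    norm_num
  have c0 : cost G S {l, u, u'} = -1 := by
    rw [Fact2Aux.cost_insert G S {u, u'} l (by simp [b1, b2]), c1, sl, Finset.sum_pair hne,
      Fact2Aux.sg_bi G m1.1 (by simp [hl, m1.2.1]), Fact2Aux.sg_bi G m2.1 (by simp [hl, m2.2.1])]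
    norm_num
  have i2 : iot S {u'} = -1 := by
    have := Fact2Aux.iot_insert S ∅ u' (by simp)
    rw [Fact2Aux.iot_empty, if_pos m2.2.1] at this
    simpa using this
  have i1 : iot S {u, u'} = -2 := by
    rw [Fact2Aux.iot_insert S {u'} u (by simpa using hne), i2, if_pos m1.2.1]
    norm_num
  have i0 : iot S {l, u, u'} = -1 := by
    rw [Fact2Aux.iot_insert S {u, u'} l (by simp [b1, b2]), i1, if_neg hl]
    norm_num
  have h := hL.cost_ge hG {l, u, u'}
  rw [c0, i0] at h
  have hk' : (1 : ℤ) ≤ k := by exact_mod_cast hk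
  rw [abs_of_nonneg (by linarith)] at h
  linarith

variable {G} in
theorem fact1g_sm (hG : G.IsRegularOfDegree 3) {k : ℕ} {S : Finset V} (hL : Level G k S)
    (hk : 1 ≤ k) {l u u' : V} (hl : l ∉ S) (sl : sd G S l = 1) (hu : u ∈ UN G S l)
    (hu' : u' ∈ UN G S l) (hne : u ≠ u') : sm G S u = {u'} := by
  have hadj := fact1g hG hL hk hl sl hu hu' hne
  have hS : ∀ u ∈ UN G S l, u ∈ S := by
    intro u hu
    unfold UN at hu
    rw [Finset.mem_filter, mem_op] at hu
    by_contra h
    exact hu.1.2 ⟨fun h' => absurd h' h, fun h' => absurd h' hl⟩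
  have hm : u' ∈ sm G S u := mem_sm.2 ⟨hadj, fun _ => hS u hu, fun _ => hS u' hu'⟩
  have hc : (sm G S u).card ≤ 1 := hL.tf u
  exact Finset.eq_singleton_iff_unique_mem.2
    ⟨hm, fun y hy => Finset.card_le_one.1 hc y hy u' hm⟩

variable {G} in
theorem fact1g_card (hG : G.IsRegularOfDegree 3) {k : ℕ} {S : Finset V} (hL : Level G k S)
    (hk : 1 ≤ k) {l : V} (hl : l ∉ S) (sl : sd G S l = 1) : (UN G S l).card ≤ 2 := by
  by_contra hc
  obtain ⟨a, b, c, ha, hb, hc', hab, hac, hbc⟩ := Finset.two_lt_card_iff.1 (not_le.1 hc)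
  have h1 := fact1g_sm hG hL hk hl sl ha hb hab
  have h2 := fact1g_sm hG hL hk hl sl ha hc' hac
  rw [h1, Finset.singleton_inj] at h2
  exact hbc h2

end Pool.Agent.Lib.AndoB
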