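import Pool.Agent.Lib.AndoB.Fact1g
import Pool.Agent.Lib.Ando.Fact4

/-!
# AndoB.Count: the number of sites when triangles are allowed

See `Ando/Fact4.lean` (`fact4` and its proof) for `#U - #L = 6 k` (from `sum_op_eq`, `imb_eq`, `sd_add_op`).  Each u in U has exactly two black neighbours; if it is not a site, at
least one of them is in L.  So #U - #sites ≤ sum over l in L of |UN l| = (#L - #L0) + #D with L0 = {l in L : UN l empty}, D = {l in L : |UN l| = 2}, by `fact1g_card`
(|UN l| ≤ 2).  Hence 6 k + #L0 ≤ #sites + #D.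
-/

set_option autoImplicit false
set_option linter.unusedSectionVars false

namespace Pool.Agent.Lib.AndoB

open Pool.Agent.Lib.Ando

variable {V : Type*} [Fintype V] [DecidableEq V] (G : SimpleGraph V) [DecidableRel G.Adj]

variable {G} in
theorem count (hG : G.IsRegularOfDegree 3) {k : ℕ} {S : Finset V} (hL : Level G k S)
    (hk : 1 ≤ k) :
    6 * k + (Finset.univ.filter (fun l => l ∉ S ∧ sd G S l = 1 ∧ UN G S l = ∅)).card ≤
      (sites G S).card +
        (Finset.univ.filter (fun l => l ∉ S ∧ sd G S l = 1 ∧ (UN G S l).card = 2)).card := by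
  have h1 := sum_sd_sub hG S
  rw [Fact4Aux.sum_eq hL.tf, Fact4Aux.sum_eq hL.tf, hL.imb_eq] at h1
  have h2 : S.filter (fun v => sd G S v = 1) ⊆
      sites G S ∪ (Sᶜ.filter (fun v => sd G S v = 1)).biUnion (UN G S) := by
    intro u hu
    rw [Finset.mem_filter] at hu
    rw [Finset.mem_union]
    by_cases h : u ∈ sites G S
    · exact Or.inl h
    · right
      have h5 : ∃ l ∈ op G S u, sd G S l ≠ 0 := by
        by_contra hc
        push Not at hc
        exact h (Finset.mem_filter.2 ⟨Finset.mem_univ _, hu.1, hu.2, hc⟩)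
      obtain ⟨l, hl, hl0⟩ := h5
      rw [Finset.mem_biUnion]
      refine ⟨l, ?_, ?_⟩
      · rw [Finset.mem_filter, Finset.mem_compl]
        constructor
        · intro hlS
          exact (mem_op.1 hl).2 ⟨fun _ => hu.1, fun _ => hlS⟩
        · have := hL.tf l
          omega
      · exact Finset.mem_filter.2 ⟨op_symm hl, hu.2⟩
  have h3' := Finset.card_le_card h2
  have h4 := Finset.card_union_le (sites G S)
    ((Sᶜ.filter (fun v => sd G S v = 1)).biUnion (UN G S))
  have h5 : ((Sᶜ.filter (fun v => sd G S v = 1)).biUnion (UN G S)).card ≤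
      ∑ l ∈ Sᶜ.filter (fun v => sd G S v = 1), (UN G S l).card := Finset.card_biUnion_le
  have e0 : Finset.univ.filter (fun l => l ∉ S ∧ sd G S l = 1 ∧ UN G S l = ∅) =
      (Sᶜ.filter (fun v => sd G S v = 1)).filter (fun l => UN G S l = ∅) := by
    ext l
    simp only [Finset.mem_filter, Finset.mem_univ, true_and, Finset.mem_compl, and_assoc]
  have e2 : Finset.univ.filter (fun l => l ∉ S ∧ sd G S l = 1 ∧ (UN G S l).card = 2) =
      (Sᶜ.filter (fun v => sd G S v = 1)).filter (fun l => (UN G S l).card = 2) := by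
    ext l
    simp only [Finset.mem_filter, Finset.mem_univ, true_and, Finset.mem_compl, and_assoc]
  have h6 : ∑ l ∈ Sᶜ.filter (fun v => sd G S v = 1), (UN G S l).card +
      ((Sᶜ.filter (fun v => sd G S v = 1)).filter (fun l => UN G S l = ∅)).card ≤
      (Sᶜ.filter (fun v => sd G S v = 1)).card +
      ((Sᶜ.filter (fun v => sd G S v = 1)).filter (fun l => (UN G S l).card = 2)).card := by
    rw [Finset.card_filter (fun l => UN G S l = ∅), Finset.card_filter (fun l => (UN G S l).card = 2),
      ← Finset.sum_add_distrib,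
      Finset.card_eq_sum_ones (Sᶜ.filter (fun v => sd G S v = 1)), ← Finset.sum_add_distrib]
    refine Finset.sum_le_sum fun l hl => ?_
    rw [Finset.mem_filter, Finset.mem_compl] at hl
    have hc := fact1g_card hG hL hk hl.1 hl.2
    by_cases he : UN G S l = ∅
    · rw [he]
      simp
    · have hpos : 0 < (UN G S l).card := Finset.card_pos.2 (Finset.nonempty_iff_ne_empty.2 he)
      rw [if_neg he]
      split_ifs with h7
      · omega
      · omega
  rw [e0, e2]
  omega

end Pool.Agent.Lib.AndoB
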