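import Pool.Agent.Lib.Ando.StarBasic
import Pool.Agent.Lib.Ando.StarFlip
import Pool.Agent.Lib.Ando.LevelE
import Pool.Agent.Lib.Ando.Fact2

/-!
# MP_b1c9a2_co, Case B without the hypotheses on triangles and 4-cycles: definitions

Text: /team-store/b1c9a2_caseB_h59.md (helper59, refereed by helper36); base text /team-store/b1c9a2_girth5.md; library `Pool.Agent.Lib.Ando` (helper32).

Conventions: S = white vertices. Z / L = black vertices with sd = 0 / 1, O / U = white vertices with sd = 0 / 1. For v in L or U let v* be the member of `sm S v`. Every vertex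
of U has `sm S u = {u*}` and `op S u` with two members (`sd_add_op`); a vertex of O or Z has `op S` with three members.
`DLfree`: the only way in which the absence of diamonds is used: a triangle `l z z'` with `l` in L and `z, z' = z*` in U shares neither the edge `z z'` nor the edge `l z` with another
triangle.
`Pair`: a star (`Ando.Star`) whose three white vertices `ui` are pairwise not adjacent and whose outer black neighbours `xi` are different.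
-/

set_option autoImplicit false
set_option linter.unusedSectionVars false

namespace Pool.Agent.Lib.AndoB

open Pool.Agent.Lib.Ando

variable {V : Type*} [Fintype V] [DecidableEq V] (G : SimpleGraph V) [DecidableRel G.Adj]

/-- For every level colouring with imbalance `2 * k` and every triangle `l z z'` with `l` black of
monochromatic degree one and `z`, `z'` white: no other triangle contains `z z'` or `l z`. -/
def DLfree (k : ℕ) : Prop :=
  ∀ S : Finset V, Level G k S → ∀ l z z' : V, l ∉ S → sd G S l = 1 → z ∈ S → z' ∈ S →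
    G.Adj l z → G.Adj l z' → G.Adj z z' →
    (∀ p, G.Adj p z → G.Adj p z' → p = l) ∧ (∀ p, G.Adj p l → G.Adj p z → p = z')

/-- A star with pairwise non-adjacent white vertices `ui` and pairwise different outer black
neighbours `xi`. -/
structure Pair (S : Finset V) (b u1 u2 u3 x1 x2 x3 v1 v2 v3 : V) : Prop
    extends Star G S b u1 u2 u3 x1 x2 x3 v1 v2 v3 where
  x12 : x1 ≠ x2
  x13 : x1 ≠ x3
  x23 : x2 ≠ x3
  a12 : ¬ G.Adj u1 u2
  a13 : ¬ G.Adj u1 u3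
  a23 : ¬ G.Adj u2 u3

variable {G} in
theorem Pair.swap {S : Finset V} {b u1 u2 u3 x1 x2 x3 v1 v2 v3 : V}
    (h : Pair G S b u1 u2 u3 x1 x2 x3 v1 v2 v3) :
    Pair G S b u2 u1 u3 x2 x1 x3 v2 v1 v3 :=
  { toStar := h.toStar.swap, x12 := h.x12.symm, x13 := h.x23, x23 := h.x13,
    a12 := fun e => h.a12 e.symm, a13 := h.a23, a23 := h.a13 }

variable {G} in
theorem Pair.rot {S : Finset V} {b u1 u2 u3 x1 x2 x3 v1 v2 v3 : V}
    (h : Pair G S b u1 u2 u3 x1 x2 x3 v1 v2 v3) :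
    Pair G S b u2 u3 u1 x2 x3 x1 v2 v3 v1 :=
  { toStar := h.toStar.rot, x12 := h.x23, x13 := h.x12.symm, x23 := h.x13.symm,
    a12 := h.a23, a13 := fun e => h.a12 e.symm, a23 := fun e => h.a13 e.symm }

namespace PairAux

variable {G} in
theorem one {S : Finset V} (htf : ∀ v, sd G S v ≤ 1)
    {b u1 u2 u3 x1 x2 x3 v1 v2 v3 : V} (h : Pair G S b u1 u2 u3 x1 x2 x3 v1 v2 v3) :
    v1 ≠ v2 ∧ u1 ≠ v1 ∧ u1 ≠ v2 ∧ u2 ≠ v1 ∧ v1 ∈ S ∧ sd G S v1 = 1 ∧
    sm G S v1 = {u1} ∧ ¬ G.Adj b v1 ∧ ¬ G.Adj x1 u2 ∧ ¬ G.Adj x2 u1 ∧ x1 ∉ S := by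
  have mv1 : v1 ∈ sm G S u1 := by rw [h.s1]; simp
  have mv2 : v2 ∈ sm G S u2 := by rw [h.s2]; simp
  have d1 : G.Adj u1 v1 := (mem_sm.1 mv1).1
  have d2 : G.Adj u2 v2 := (mem_sm.1 mv2).1
  have hv1 : v1 ∈ S := (mem_sm.1 mv1).2.2 h.h1
  have hx1 : x1 ∉ S := StarFlipAux.x1S h.toStar
  have hx2 : x2 ∉ S := StarFlipAux.x1S h.toStar.rot
  have hsm1 : sm G S v1 = {u1} := by
    have hm := sm_symm mv1
    have hc : (sm G S v1).card ≤ 1 := htf v1
    exact (Finset.eq_singleton_iff_unique_mem.2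
      ⟨hm, fun y hy => Finset.card_le_one.1 hc y hy u1 hm⟩)
  have hsd1 : sd G S v1 = 1 := by
    unfold sd
    rw [hsm1, Finset.card_singleton]
  have hu1v2 : u1 ≠ v2 := by
    intro e
    rw [← e] at d2
    exact h.a12 d2.symm
  have hu2v1 : u2 ≠ v1 := by
    intro e
    rw [← e] at d1
    exact h.a12 d1
  have hu3v1 : u3 ≠ v1 := by
    intro e
    rw [← e] at d1
    exact h.a13 d1
  refine ⟨?_, d1.ne, hu1v2, hu2v1, hv1, hsd1, hsm1, ?_, ?_, ?_, hx1⟩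
  · intro e
    rw [← e] at mv2
    have := sm_symm mv2
    rw [hsm1, Finset.mem_singleton] at this
    exact h.n12 this.symm
  · intro e
    have h1 : v1 ∈ op G S b := mem_op.2 ⟨e, fun h' => h.hb (h'.1 hv1)⟩
    rw [h.ob] at h1
    simp only [Finset.mem_insert, Finset.mem_singleton] at h1
    rcases h1 with h1 | h1 | h1
    · exact d1.ne h1.symm
    · exact hu2v1 h1.symm
    · exact hu3v1 h1.symm
  · intro e
    have h1 : x1 ∈ op G S u2 := mem_op.2 ⟨e.symm, fun h' => hx1 (h'.2 h.h2)⟩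
    rw [h.o2] at h1
    simp only [Finset.mem_insert, Finset.mem_singleton] at h1
    rcases h1 with h1 | h1
    · exact h.b1 h1.symm
    · exact h.x12 h1
  · intro e
    have h1 : x2 ∈ op G S u1 := mem_op.2 ⟨e.symm, fun h' => hx2 (h'.2 h.h1)⟩
    rw [h.o1] at h1
    simp only [Finset.mem_insert, Finset.mem_singleton] at h1
    rcases h1 with h1 | h1
    · exact h.b2 h1.symm
    · exact h.x12 h1.symm

end PairAux

variable {G} in
/-- The facts about a `Pair` (compare `Ando.Star.facts`; here `xi` may be adjacent to `vi`). -/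
theorem Pair.facts {S : Finset V} (htf : ∀ v, sd G S v ≤ 1)
    {b u1 u2 u3 x1 x2 x3 v1 v2 v3 : V} (h : Pair G S b u1 u2 u3 x1 x2 x3 v1 v2 v3) :
    v1 ≠ v2 ∧ v1 ≠ v3 ∧ v2 ≠ v3 ∧
    u1 ≠ v1 ∧ u1 ≠ v2 ∧ u1 ≠ v3 ∧ u2 ≠ v1 ∧ u2 ≠ v2 ∧ u2 ≠ v3 ∧ u3 ≠ v1 ∧ u3 ≠ v2 ∧ u3 ≠ v3 ∧
    v1 ∈ S ∧ v2 ∈ S ∧ v3 ∈ S ∧ sd G S v1 = 1 ∧ sd G S v2 = 1 ∧ sd G S v3 = 1 ∧
    sm G S v1 = {u1} ∧ sm G S v2 = {u2} ∧ sm G S v3 = {u3} ∧
    ¬ G.Adj b v1 ∧ ¬ G.Adj b v2 ∧ ¬ G.Adj b v3 ∧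
    ¬ G.Adj x1 u2 ∧ ¬ G.Adj x1 u3 ∧ ¬ G.Adj x2 u1 ∧ ¬ G.Adj x2 u3 ∧
    ¬ G.Adj x3 u1 ∧ ¬ G.Adj x3 u2 ∧ x1 ∉ S ∧ x2 ∉ S ∧ x3 ∉ S := by
  obtain ⟨p2, p3, p4, p5, p6, p7, p8, p9, p11, p12, p13⟩ := PairAux.one htf h
  obtain ⟨q2, q3, q4, q5, q6, q7, q8, q9, q11, q12, q13⟩ := PairAux.one htf h.rot
  obtain ⟨r2, r3, r4, r5, r6, r7, r8, r9, r11, r12, r13⟩ := PairAux.one htf h.rot.rot
  exact ⟨p2, r2.symm, q2, p3, p4, r5, p5, q3, q4, r4, q5, r3, p6, q6, r6, p7,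
    q7, r7, p8, q8, r8, p9, q9, r9, p11, r12, p12, q11, r11, q12, p13, q13, r13⟩

end Pool.Agent.Lib.AndoB
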