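import Pool.Agent.Lib.AndoB.Defs

/-!
# AndoB.Exists: a vertex of Z with three pairwise non-adjacent neighbours in U gives a `Pair` (facts (2), (2'))

Conventions as in `AndoB.Defs`.  `Level.cost_ge`: `k - |k + iot S F| ≤ cost S F`.  Compute costs as in the proofs of `fact2` / `exists_star` (`Ando/Fact2.lean`, `Ando/StarBasic.lean`),
with `cost_insert`, `iot_insert`, `sg_nonadj`, `sg_bi`, `sg_nonneg`.
k = 1: F = {b, u1, u2, u3} has cost 3 + 1 + 1 + 1 - 2 * 3 = 0 (the ui are pairwise not adjacent) and iot = 1 - 3 = -2; for k ≥ 2 `cost_ge` gives cost ≥ k - (k - 2) = 2.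
`op S ui = {b, xi}`, `sm S ui = {vi}` (`sd_add_op`, `StarBasicAux.pair_of_card`).
sd xi = 0: otherwise sd xi = 1 (`hL.tf`); F = {b, u1, u2, u3, x1} has iot = -1 and cost ≤ 3 + 3 + 1 - 2 * 4 = -1 (x1 is adjacent to u1; the pairs x1, uj are bichromatic, and b, x1 are
not adjacent since sd b = 0, both black; so further adjacent pairs only lower the cost), but `cost_ge` gives cost ≥ 1.
x1 /= x2: if x1 = x2, F = {b, u1, u2, u3, x1} has iot = -1 and cost ≤ 3 + 3 + 3 - 2 * 5 = -1, again a contradiction.  By symmetry the same for the other indices (first prove these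
two facts as private lemmas for a general order of u1, u2, u3).
-/

set_option autoImplicit false
set_option linter.unusedSectionVars false

namespace Pool.Agent.Lib.AndoB

open Pool.Agent.Lib.Ando

variable {V : Type*} [Fintype V] [DecidableEq V] (G : SimpleGraph V) [DecidableRel G.Adj]

namespace ExistsAux

open Fact2Aux

variable {G} in
theorem base {S : Finset V} {b u1 u2 u3 : V} (hb : b ∉ S) (sb : sd G S b = 0)
    (n12 : u1 ≠ u2) (n13 : u1 ≠ u3) (n23 : u2 ≠ u3)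
    (e1 : G.Adj b u1) (e2 : G.Adj b u2) (e3 : G.Adj b u3) (h1 : u1 ∈ S) (h2 : u2 ∈ S) (h3 : u3 ∈ S)
    (s1 : sd G S u1 = 1) (s2 : sd G S u2 = 1) (s3 : sd G S u3 = 1)
    (a12 : ¬ G.Adj u1 u2) (a13 : ¬ G.Adj u1 u3) (a23 : ¬ G.Adj u2 u3) :
    cost G S {b, u1, u2, u3} = 0 ∧ iot S {b, u1, u2, u3} = -2 := by
  have nb : ∀ u, u ∈ S → b ≠ u := fun u h h' => hb (h' ▸ h)
  have b1 := nb u1 h1
  have b2 := nb u2 h2
  have b3 := nb u3 h3
  have c3 : cost G S {u3} = 1 := by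
    have := cost_insert G S ∅ u3 (by simp)
    rw [cost_empty, s3, Finset.sum_empty] at this
    simpa using this
  have c2 : cost G S {u2, u3} = 2 := by
    rw [cost_insert G S {u3} u2 (by simpa using n23), c3, s2, Finset.sum_singleton,
      sg_nonadj G a23]
    norm_num
  have c1 : cost G S {u1, u2, u3} = 3 := by
    rw [cost_insert G S {u2, u3} u1 (by simp [n12, n13]), c2, s1, Finset.sum_pair n23,
      sg_nonadj G a12, sg_nonadj G a13]
    norm_num
  have c0 : cost G S {b, u1, u2, u3} = 0 := by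
    rw [cost_insert G S {u1, u2, u3} b (by simp [b1, b2, b3]), c1, sb,
      Finset.sum_insert (by simp [n12, n13]), Finset.sum_pair n23,
      sg_bi G e1 (by simp [hb, h1]), sg_bi G e2 (by simp [hb, h2]),
      sg_bi G e3 (by simp [hb, h3])]
    norm_num
  have i3 : iot S {u3} = -1 := by
    have := iot_insert S ∅ u3 (by simp)
    rw [iot_empty, if_pos h3] at this
    simpa using this
  have i2 : iot S {u2, u3} = -2 := by
    rw [iot_insert S {u3} u2 (by simpa using n23), i3, if_pos h2]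
    norm_num
  have i1 : iot S {u1, u2, u3} = -3 := by
    rw [iot_insert S {u2, u3} u1 (by simp [n12, n13]), i2, if_pos h1]
    norm_num
  refine ⟨c0, ?_⟩
  rw [iot_insert S {u1, u2, u3} b (by simp [b1, b2, b3]), i1, if_neg hb]
  norm_num

variable {G} in
theorem key (hG : G.IsRegularOfDegree 3) {S : Finset V} (hL : Level G 1 S)
    {b u1 u2 u3 : V} (hb : b ∉ S) (sb : sd G S b = 0)
    (n12 : u1 ≠ u2) (n13 : u1 ≠ u3) (n23 : u2 ≠ u3)
    (h1 : u1 ∈ S) (h2 : u2 ∈ S) (h3 : u3 ∈ S)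
    (c0 : cost G S {b, u1, u2, u3} = 0) (i0 : iot S {b, u1, u2, u3} = -2)
    {c : V} (cS : c ∉ S) (hcb : c ≠ b) :
    (sd G S c : ℤ) + (CostAux.sg G S c u1 + (CostAux.sg G S c u2 + CostAux.sg G S c u3)) ≤ 1 := by
  have nb : ∀ u, u ∈ S → b ≠ u := fun u h h' => hb (h' ▸ h)
  have nc : ∀ u, u ∈ S → c ≠ u := fun u h h' => cS (h' ▸ h)
  have hadj : ¬ G.Adj c b := by
    intro h
    have h0 : sm G S b = ∅ := Finset.card_eq_zero.1 sb
    have : c ∈ sm G S b := mem_sm.2 ⟨h.symm, ⟨fun h' => absurd h' cS, fun h' => absurd h' hb⟩⟩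
    rw [h0] at this
    exact absurd this (Finset.notMem_empty _)
  have hcF : c ∉ ({b, u1, u2, u3} : Finset V) := by
    simp [hcb, nc u1 h1, nc u2 h2, nc u3 h3]
  have hsum : ∑ y ∈ ({b, u1, u2, u3} : Finset V), CostAux.sg G S c y =
      CostAux.sg G S c u1 + (CostAux.sg G S c u2 + CostAux.sg G S c u3) := by
    rw [Finset.sum_insert (by simp [nb u1 h1, nb u2 h2, nb u3 h3]), sg_nonadj G hadj, zero_add,
      Finset.sum_insert (by simp [n12, n13]), Finset.sum_pair n23]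
  have h := hL.cost_ge hG (insert c {b, u1, u2, u3})
  rw [cost_insert G S _ c hcF, iot_insert S _ c hcF, c0, i0, if_neg cS, hsum] at h
  norm_num at h
  linarith

/-- The data of one white neighbour. -/
structure One (S : Finset V) (b u x v : V) : Prop where
  s : sm G S u = {v}
  o : op G S u = {b, x}
  bx : b ≠ x
  xS : x ∉ S
  ad : G.Adj u x

variable {G} in
theorem one (hG : G.IsRegularOfDegree 3) {S : Finset V} {b u : V} (hu : u ∈ op G S b)
    (hS : u ∈ S) (su : sd G S u = 1) : ∃ x v, One G S b u x v := by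
  have h3 : (op G S u).card = 2 := by
    have := sd_add_op hG S u
    omega
  obtain ⟨x, hbx, hx⟩ := StarBasicAux.pair_of_card (op_symm hu) h3
  obtain ⟨v, hv⟩ := Finset.card_eq_one.1 (show (sm G S u).card = 1 from su)
  have hxm : x ∈ op G S u := by
    rw [hx]
    simp
  have h4 := mem_op.1 hxm
  exact ⟨x, v, hv, hx, hbx, fun h => h4.2 ⟨fun _ => hS, fun _ => h⟩, h4.1⟩

end ExistsAux

open ExistsAux Fact2Aux

variable {G} in
theorem exists_pair (hG : G.IsRegularOfDegree 3) {k : ℕ} {S : Finset V} (hL : Level G k S)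
    (hk : 1 ≤ k) {b u1 u2 u3 : V} (hb : b ∉ S) (sb : sd G S b = 0)
    (ob : op G S b = {u1, u2, u3}) (n12 : u1 ≠ u2) (n13 : u1 ≠ u3) (n23 : u2 ≠ u3)
    (s1 : sd G S u1 = 1) (s2 : sd G S u2 = 1) (s3 : sd G S u3 = 1)
    (a12 : ¬ G.Adj u1 u2) (a13 : ¬ G.Adj u1 u3) (a23 : ¬ G.Adj u2 u3) :
    k = 1 ∧ ∃ x1 x2 x3 v1 v2 v3, Pair G S b u1 u2 u3 x1 x2 x3 v1 v2 v3 := by
  have m1 : u1 ∈ op G S b := by rw [ob]; simp
  have m2 : u2 ∈ op G S b := by rw [ob]; simp
  have m3 : u3 ∈ op G S b := by rw [ob]; simp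
  have hS : ∀ u, u ∈ op G S b → u ∈ S := by
    intro u hu
    by_contra h
    exact (mem_op.1 hu).2 ⟨fun h' => absurd h' h, fun h' => absurd h' hb⟩
  have h1 := hS u1 m1
  have h2 := hS u2 m2
  have h3 := hS u3 m3
  obtain ⟨c0, i0⟩ := base hb sb n12 n13 n23 (mem_op.1 m1).1 (mem_op.1 m2).1 (mem_op.1 m3).1
    h1 h2 h3 s1 s2 s3 a12 a13 a23
  have hk1 : k = 1 := by
    have h := hL.cost_ge hG {b, u1, u2, u3}
    rw [c0, i0] at h
    by_contra hne
    have hk2 : (2 : ℤ) ≤ k := by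
      have : 2 ≤ k := by omega
      exact_mod_cast this
    rw [abs_of_nonneg (by linarith)] at h
    linarith
  refine ⟨hk1, ?_⟩
  subst hk1
  obtain ⟨x1, v1, d1⟩ := one hG m1 h1 s1
  obtain ⟨x2, v2, d2⟩ := one hG m2 h2 s2
  obtain ⟨x3, v3, d3⟩ := one hG m3 h3 s3
  have hkey := fun (c : V) (cS : c ∉ S) (hcb : c ≠ b) =>
    key hG hL hb sb n12 n13 n23 h1 h2 h3 c0 i0 cS hcb
  have hnn : ∀ c, c ∉ S → ∀ u, u ∈ S → 0 ≤ CostAux.sg G S c u := fun c cS u uS =>
    sg_nonneg G (by simp [cS, uS])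
  have hone : ∀ c, c ∉ S → ∀ u, u ∈ S → G.Adj u c → CostAux.sg G S c u = 1 :=
    fun c cS u uS h => sg_bi G h.symm (by simp [cS, uS])
  have k1 := hkey x1 d1.xS d1.bx.symm
  have k2 := hkey x2 d2.xS d2.bx.symm
  have k3 := hkey x3 d3.xS d3.bx.symm
  have p11 := hone x1 d1.xS u1 h1 d1.ad
  have p22 := hone x2 d2.xS u2 h2 d2.ad
  have p33 := hone x3 d3.xS u3 h3 d3.ad
  have q12 := hnn x1 d1.xS u2 h2
  have q13 := hnn x1 d1.xS u3 h3
  have q21 := hnn x2 d2.xS u1 h1
  have q23 := hnn x2 d2.xS u3 h3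
  have q31 := hnn x3 d3.xS u1 h1
  have q32 := hnn x3 d3.xS u2 h2
  have z1 : sd G S x1 = 0 := by omega
  have z2 : sd G S x2 = 0 := by omega
  have z3 : sd G S x3 = 0 := by omega
  have x12 : x1 ≠ x2 := by
    intro h
    have := hone x1 d1.xS u2 h2 (h ▸ d2.ad)
    omega
  have x13 : x1 ≠ x3 := by
    intro h
    have := hone x1 d1.xS u3 h3 (h ▸ d3.ad)
    omega
  have x23 : x2 ≠ x3 := by
    intro h
    have := hone x2 d2.xS u3 h3 (h ▸ d3.ad)
    omega
  exact ⟨x1, x2, x3, v1, v2, v3,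
    { hb := hb, sb := sb, ob := ob, n12 := n12, n13 := n13, n23 := n23,
      h1 := h1, h2 := h2, h3 := h3, s1 := d1.s, s2 := d2.s, s3 := d3.s, o1 := d1.o, o2 := d2.o,
      o3 := d3.o, b1 := d1.bx, b2 := d2.bx, b3 := d3.bx, z1 := z1, z2 := z2, z3 := z3,
      x12 := x12, x13 := x13, x23 := x23, a12 := a12, a13 := a13, a23 := a23 }⟩

end Pool.Agent.Lib.AndoB
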