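import Pool.Agent.Lib.AndoB.Defs

/-!
# AndoB.Flip: the star flip of a `Pair`

Adapt `Ando/StarFlip.lean` (`part1`, `partb`, `rest`, `cost_zero`, `iot_val`, `star_flip`): there `NoTri`, `NoSq` are used only for the facts which are now in `Pair.facts`
(the new situation: xi may be adjacent to vi; this changes nothing, since vi is not in F = {b, u1, u2, u3} and xi, vi have different colours).
`pair_flip`: `cost S F = 3 + 1 + 1 + 1 - 2 * 3 = 0`, `iot S F = -2`; T = symmDiff S F: sm T b = {}, sm T ui = {xi}, sm T xi = {ui}, sm T vi = {}, all other vertices unchanged, so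
`Level.flip_compl`.
`pair_flip_x`: op S x1 has three members, one is u1, none of the others is in F (`Pair.facts`): they keep their colour, x1 keeps its colour, u1 changes; and complement
(`op_compl`, `sm_compl`) changes nothing.
`pair_flip_v`: sm S v1 = {u1}; u1 changes its colour, v1 does not; no neighbour of v1 in `op S v1` is in F (b is not adjacent to v1).
-/

set_option autoImplicit false
set_option linter.unusedSectionVars false

namespace Pool.Agent.Lib.AndoB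

open Pool.Agent.Lib.Ando

variable {V : Type*} [Fintype V] [DecidableEq V] (G : SimpleGraph V) [DecidableRel G.Adj]

namespace FlipAux

open Pool.Agent.Lib.Ando.StarFlipAux

variable {G}

theorem xvF {S : Finset V} (htf : ∀ v, sd G S v ≤ 1)
    {b u1 u2 u3 x1 x2 x3 v1 v2 v3 : V} (h : Pair G S b u1 u2 u3 x1 x2 x3 v1 v2 v3)
    {F : Finset V} (hF : IsF F b u1 u2 u3) :
    x1 ∉ F ∧ v1 ∉ F ∧ u1 ∈ F ∧ b ∈ F := by
  obtain ⟨v12, v13, v23, a11, a12, a13, a21, a22, a23, a31, a32, a33,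
    vS1, vS2, vS3, sv1, sv2, sv3, mv1, mv2, mv3, bv1, bv2, bv3,
    xu12, xu13, xu21, xu23, xu31, xu32, hxS, -, -⟩ := Pair.facts htf h
  refine ⟨?_, ?_, (hF u1).2 (Or.inr (Or.inl rfl)), (hF b).2 (Or.inl rfl)⟩
  · rw [hF]
    rintro (h0 | h0 | h0 | h0)
    · exact h.b1 h0.symm
    · exact hxS (h0 ▸ h.h1)
    · exact hxS (h0 ▸ h.h2)
    · exact hxS (h0 ▸ h.h3)
  · rw [hF]
    rintro (h0 | h0 | h0 | h0)
    · exact h.hb (h0 ▸ vS1)
    · exact a11 h0.symm
    · exact a21 h0.symm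
    · exact a31 h0.symm

theorem part1 {S : Finset V} (htf : ∀ v, sd G S v ≤ 1)
    {b u1 u2 u3 x1 x2 x3 v1 v2 v3 : V} (h : Pair G S b u1 u2 u3 x1 x2 x3 v1 v2 v3)
    {F : Finset V} (hF : IsF F b u1 u2 u3) :
    sm G (symmDiff S F) u1 = {x1} ∧ op G (symmDiff S F) u1 = {b, v1} ∧
    sm G (symmDiff S F) x1 = {u1} ∧ sm G (symmDiff S F) v1 = ∅ := by
  obtain ⟨v12, v13, v23, a11, a12, a13, a21, a22, a23, a31, a32, a33,
    vS1, vS2, vS3, sv1, sv2, sv3, mv1, mv2, mv3, bv1, bv2, bv3,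
    xu12, xu13, xu21, xu23, xu31, xu32, hxS, -, -⟩ := Pair.facts htf h
  obtain ⟨hxF, hvF, huF, hbF⟩ := xvF htf h hF
  refine ⟨?_, ?_, ?_, ?_⟩
  · rw [sm_flip_mem G huF, h.o1, h.s1]
    ext y
    simp only [Finset.mem_union, Finset.mem_sdiff, Finset.mem_inter, Finset.mem_insert,
      Finset.mem_singleton]
    constructor
    · rintro (⟨h1 | h1, h2⟩ | ⟨h1, h2⟩)
      · subst h1; exact absurd hbF h2
      · exact h1
      · subst h1; exact absurd h2 hvF
    · rintro rfl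
      exact Or.inl ⟨Or.inr rfl, hxF⟩
  · rw [op_flip_mem G huF, h.o1, h.s1]
    ext y
    simp only [Finset.mem_union, Finset.mem_sdiff, Finset.mem_inter, Finset.mem_insert,
      Finset.mem_singleton]
    constructor
    · rintro (⟨h1, h2⟩ | ⟨h1 | h1, h2⟩)
      · exact Or.inr h1
      · exact Or.inl h1
      · subst h1; exact absurd h2 hxF
    · rintro (rfl | rfl)
      · exact Or.inr ⟨Or.inl rfl, hbF⟩
      · exact Or.inl ⟨rfl, hvF⟩
  · rw [sm_flip_not_mem G hxF, smx h.toStar]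
    ext y
    simp only [Finset.mem_union, Finset.mem_sdiff, Finset.mem_inter, Finset.notMem_empty,
      Finset.mem_singleton, false_and, false_or]
    constructor
    · rintro ⟨h1, h2⟩
      rw [hF] at h2
      rw [mem_op] at h1
      rcases h2 with rfl | rfl | rfl | rfl
      · exact absurd ⟨fun h5 => absurd h5 h.hb, fun h5 => absurd h5 hxS⟩ h1.2
      · rfl
      · exact absurd h1.1 xu12
      · exact absurd h1.1 xu13
    · rintro rfl
      refine ⟨op_symm ?_, huF⟩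
      rw [h.o1]; simp
  · rw [sm_flip_not_mem G hvF, mv1]
    ext y
    simp only [Finset.mem_union, Finset.mem_sdiff, Finset.mem_inter, Finset.notMem_empty,
      Finset.mem_singleton, iff_false]
    rintro (⟨h1, h2⟩ | ⟨h1, h2⟩)
    · subst h1; exact h2 huF
    · rw [hF] at h2
      rw [mem_op] at h1
      rcases h2 with rfl | rfl | rfl | rfl
      · exact bv1 h1.1.symm
      · exact h1.2 ⟨fun _ => vS1, fun _ => h.h1⟩
      · exact h1.2 ⟨fun _ => vS1, fun _ => h.h2⟩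
      · exact h1.2 ⟨fun _ => vS1, fun _ => h.h3⟩

theorem cost_zero {S : Finset V} {b u1 u2 u3 x1 x2 x3 v1 v2 v3 : V}
    (h : Pair G S b u1 u2 u3 x1 x2 x3 v1 v2 v3) :
    cost G S {b, u1, u2, u3} = 0 := by
  have hb1 : b ≠ u1 := fun e => h.hb (e ▸ h.h1)
  have hb2 : b ≠ u2 := fun e => h.hb (e ▸ h.h2)
  have hb3 : b ≠ u3 := fun e => h.hb (e ▸ h.h3)
  have A : ∀ u, u ∈ op G S b → G.Adj b u := fun u hu => (mem_op.1 hu).1
  have A1 : G.Adj b u1 := A u1 (by rw [h.ob]; simp)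
  have A2 : G.Adj b u2 := A u2 (by rw [h.ob]; simp)
  have A3 : G.Adj b u3 := A u3 (by rw [h.ob]; simp)
  have N12 : ¬ G.Adj u1 u2 := h.a12
  have N13 : ¬ G.Adj u1 u3 := h.a13
  have N23 : ¬ G.Adj u2 u3 := h.a23
  have N21 : ¬ G.Adj u2 u1 := fun e => N12 e.symm
  have N31 : ¬ G.Adj u3 u1 := fun e => N13 e.symm
  have N32 : ¬ G.Adj u3 u2 := fun e => N23 e.symm
  have s1 : sd G S u1 = 1 := by unfold sd; rw [h.s1]; rfl
  have s2 : sd G S u2 = 1 := by unfold sd; rw [h.s2]; rfl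
  have s3 : sd G S u3 = 1 := by unfold sd; rw [h.s3]; rfl
  have m0 : b ∉ ({u1, u2, u3} : Finset V) := by simp [hb1, hb2, hb3]
  have m1 : u1 ∉ ({u2, u3} : Finset V) := by simp [h.n12, h.n13]
  have m2 : u2 ∉ ({u3} : Finset V) := by simp [h.n23]
  have hS := h.hb
  have S1 := h.h1
  have S2 := h.h2
  have S3 := h.h3
  unfold cost
  simp only [Finset.sum_insert m0, Finset.sum_insert m1, Finset.sum_insert m2,
    Finset.sum_singleton, s1, s2, s3, h.sb, A1, A2, A3, A1.symm, A2.symm, A3.symm,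
    N12, N13, N23, N21, N31, N32, hS, S1, S2, S3, SimpleGraph.irrefl, if_true, if_false]
  norm_num

end FlipAux

open Pool.Agent.Lib.Ando.StarFlipAux in
variable {G} in
theorem pair_flip (hG : G.IsRegularOfDegree 3) {S : Finset V} (hL : Level G 1 S)
    {b u1 u2 u3 x1 x2 x3 v1 v2 v3 : V} (h : Pair G S b u1 u2 u3 x1 x2 x3 v1 v2 v3) :
    Level G 1 (sflip S b u1 u2 u3) ∧
      Pair G (sflip S b u1 u2 u3) b u1 u2 u3 v1 v2 v3 x1 x2 x3 := by
  have hF := isF b u1 u2 u3
  have hf := Pair.facts hL.tf h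
  obtain ⟨p1, p2, p3, p4⟩ := FlipAux.part1 hL.tf h hF
  obtain ⟨q1, q2, q3, q4⟩ := FlipAux.part1 hL.tf h.rot hF.rot
  obtain ⟨r1, r2, r3, r4⟩ := FlipAux.part1 hL.tf h.rot.rot hF.rot.rot
  obtain ⟨pb, pb'⟩ := partb h.toStar hF
  constructor
  · refine hL.flip_compl hG _ ?_ (FlipAux.cost_zero h) ?_
    · rw [iot_val h.toStar]; norm_num
    · intro v
      unfold sd
      by_cases e0 : v = b
      · subst e0; rw [pb]; simp
      by_cases e1 : v = u1
      · subst e1; rw [p1]; simp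
      by_cases e2 : v = u2
      · subst e2; rw [q1]; simp
      by_cases e3 : v = u3
      · subst e3; rw [r1]; simp
      by_cases e4 : v = x1
      · subst e4; rw [p3]; simp
      by_cases e5 : v = x2
      · subst e5; rw [q3]; simp
      by_cases e6 : v = x3
      · subst e6; rw [r3]; simp
      by_cases e7 : v = v1
      · subst e7; rw [p4]; simp
      by_cases e8 : v = v2
      · subst e8; rw [q4]; simp
      by_cases e9 : v = v3
      · subst e9; rw [r4]; simp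
      have hv : v ∉ ({b, u1, u2, u3} : Finset V) := by
        rw [hF]; tauto
      rw [(rest h.toStar hF hv e4 e5 e6 e7 e8 e9).1]
      exact hL.tf v
  · have hc : ∀ y, y ∈ sflip S b u1 u2 u3 ↔ ¬ ((y ∈ S ∧ y ∉ ({b, u1, u2, u3} : Finset V)) ∨
        (y ∈ ({b, u1, u2, u3} : Finset V) ∧ y ∉ S)) := by
      intro y
      unfold sflip
      rw [Finset.mem_compl, Finset.mem_symmDiff]
    obtain ⟨v12, v13, v23, a11, a12, a13, a21, a22, a23, a31, a32, a33,
      vS1, vS2, vS3, -⟩ := hf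
    refine
      { hb := ?_, sb := ?_, ob := ?_, n12 := h.n12, n13 := h.n13, n23 := h.n23,
        h1 := ?_, h2 := ?_, h3 := ?_, s1 := ?_, s2 := ?_, s3 := ?_, o1 := ?_, o2 := ?_,
        o3 := ?_, b1 := ?_, b2 := ?_, b3 := ?_, z1 := ?_, z2 := ?_, z3 := ?_,
        x12 := v12, x13 := v13, x23 := v23, a12 := h.a12, a13 := h.a13, a23 := h.a23 }
    · rw [hc]; simp [h.hb]
    · unfold sflip; rw [sd_compl]; unfold sd; rw [pb]; rfl
    · unfold sflip; rw [op_compl, pb']
    · rw [hc]; simp [h.h1]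
    · rw [hc]; simp [h.h2]
    · rw [hc]; simp [h.h3]
    · unfold sflip; rw [sm_compl, p1]
    · unfold sflip; rw [sm_compl, q1]
    · unfold sflip; rw [sm_compl, r1]
    · unfold sflip; rw [op_compl, p2]
    · unfold sflip; rw [op_compl, q2]
    · unfold sflip; rw [op_compl, r2]
    · intro e; exact h.hb (e ▸ vS1)
    · intro e; exact h.hb (e ▸ vS2)
    · intro e; exact h.hb (e ▸ vS3)
    · unfold sflip; rw [sd_compl]; unfold sd; rw [p4]; rfl
    · unfold sflip; rw [sd_compl]; unfold sd; rw [q4]; rfl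
    · unfold sflip; rw [sd_compl]; unfold sd; rw [r4]; rfl

open Pool.Agent.Lib.Ando.StarFlipAux in
variable {G} in
theorem pair_flip_x {S : Finset V} (htf : ∀ v, sd G S v ≤ 1)
    {b u1 u2 u3 x1 x2 x3 v1 v2 v3 : V} (h : Pair G S b u1 u2 u3 x1 x2 x3 v1 v2 v3) :
    sm G (sflip S b u1 u2 u3) x1 = {u1} ∧
      op G (sflip S b u1 u2 u3) x1 = (op G S x1).erase u1 := by
  have hF := isF b u1 u2 u3
  obtain ⟨p1, p2, p3, p4⟩ := FlipAux.part1 htf h hF
  obtain ⟨hxF, hvF, huF, hbF⟩ := FlipAux.xvF htf h hF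
  obtain ⟨v12, v13, v23, a11, a12, a13, a21, a22, a23, a31, a32, a33,
    vS1, vS2, vS3, sv1, sv2, sv3, mv1, mv2, mv3, bv1, bv2, bv3,
    xu12, xu13, xu21, xu23, xu31, xu32, hxS, -, -⟩ := Pair.facts htf h
  unfold sflip
  rw [sm_compl, op_compl]
  refine ⟨p3, ?_⟩
  rw [op_flip_not_mem G hxF, smx h.toStar]
  ext y
  simp only [Finset.mem_union, Finset.mem_sdiff, Finset.mem_inter, Finset.notMem_empty,
    false_and, or_false, Finset.mem_erase]
  constructor
  · rintro ⟨h1, h2⟩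
    exact ⟨fun e => h2 (e ▸ huF), h1⟩
  · rintro ⟨h1, h2⟩
    refine ⟨h2, fun h3 => ?_⟩
    rw [hF] at h3
    rw [mem_op] at h2
    rcases h3 with rfl | rfl | rfl | rfl
    · exact absurd ⟨fun h5 => absurd h5 h.hb, fun h5 => absurd h5 hxS⟩ h2.2
    · exact h1 rfl
    · exact absurd h2.1 xu12
    · exact absurd h2.1 xu13

open Pool.Agent.Lib.Ando.StarFlipAux in
variable {G} in
theorem pair_flip_v {S : Finset V} (htf : ∀ v, sd G S v ≤ 1)
    {b u1 u2 u3 x1 x2 x3 v1 v2 v3 : V} (h : Pair G S b u1 u2 u3 x1 x2 x3 v1 v2 v3) :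
    sm G (sflip S b u1 u2 u3) v1 = ∅ ∧
      op G (sflip S b u1 u2 u3) v1 = insert u1 (op G S v1) := by
  have hF := isF b u1 u2 u3
  obtain ⟨p1, p2, p3, p4⟩ := FlipAux.part1 htf h hF
  obtain ⟨hxF, hvF, huF, hbF⟩ := FlipAux.xvF htf h hF
  obtain ⟨v12, v13, v23, a11, a12, a13, a21, a22, a23, a31, a32, a33,
    vS1, vS2, vS3, sv1, sv2, sv3, mv1, mv2, mv3, bv1, bv2, bv3,
    xu12, xu13, xu21, xu23, xu31, xu32, hxS, -, -⟩ := Pair.facts htf h
  unfold sflip
  rw [sm_compl, op_compl]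
  refine ⟨p4, ?_⟩
  rw [op_flip_not_mem G hvF, mv1]
  ext y
  simp only [Finset.mem_union, Finset.mem_sdiff, Finset.mem_inter, Finset.mem_singleton,
    Finset.mem_insert]
  constructor
  · rintro (⟨h1, h2⟩ | ⟨h1, h2⟩)
    · exact Or.inr h1
    · exact Or.inl h1
  · rintro (h1 | h1)
    · subst h1
      exact Or.inr ⟨rfl, Or.inr (Or.inl rfl)⟩
    · refine Or.inl ⟨h1, fun h3 => ?_⟩
      rw [mem_op] at h1
      rcases h3 with rfl | rfl | rfl | rfl
      · exact bv1 h1.1.symm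
      · exact h1.2 ⟨fun _ => vS1, fun _ => h.h1⟩
      · exact h1.2 ⟨fun _ => vS1, fun _ => h.h2⟩
      · exact h1.2 ⟨fun _ => vS1, fun _ => h.h3⟩

end Pool.Agent.Lib.AndoB
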