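import Pool.Agent.Lib.AndoB.Fact1g
import Pool.Agent.Lib.AndoB.Flip

/-!
# AndoB.LemT1: Lemma T, first part: the outer neighbours of a triangle at l in L are in Z

l in L, z, z' = z* in `UN S l` (`fact1g`: adjacent), x the black neighbour /= l of z.  Suppose sd x = 1.  Let c1 = sflip S b u1 u2 u3 (`pair_flip`, `star_flip_rest`).
z is not one of the ui (op S ui = {b, xi}, both of sd 0, but l is in op S z, sd l = 1), and z is not one of the vi: z = vi would give z' = ui (sm S vi = {ui}, z' in sm S z), but ui is not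
adjacent to l.  Also l, x are not b, ui, vi, xi (black with sd 1).  So by `star_flip_rest` in c1: z is black with the same `sm`, sd = 1; l, x are white with sd = 1 and in op z.  So
l, x in `UN c1 z`, l /= x: by `fact1g` (c1) l and x are adjacent.  Then x is adjacent to l and to z, so by `DLfree` (second part for the triangle l z z') x = z'; but x is black, z' white.
-/

set_option autoImplicit false
set_option linter.unusedSectionVars false

namespace Pool.Agent.Lib.AndoB

open Pool.Agent.Lib.Ando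

variable {V : Type*} [Fintype V] [DecidableEq V] (G : SimpleGraph V) [DecidableRel G.Adj]

variable {G} in
theorem lemT_x (hG : G.IsRegularOfDegree 3) (hD : DLfree G 1) {S : Finset V} (hL : Level G 1 S)
    {b u1 u2 u3 x1 x2 x3 v1 v2 v3 l z z' x : V} (h : Pair G S b u1 u2 u3 x1 x2 x3 v1 v2 v3)
    (hl : l ∉ S) (sl : sd G S l = 1) (hz : z ∈ UN G S l) (hz' : z' ∈ UN G S l) (hne : z ≠ z')
    (hx : x ∈ op G S z) (hxl : x ≠ l) : sd G S x = 0 := by
  by_contra hx0
  have hx1 : sd G S x = 1 := by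
    have := hL.tf x
    omega
  obtain ⟨-, -, -, -, -, -, -, -, -, -, -, -, vS1, vS2, vS3, -, -, -, mv1, mv2, mv3, -, -, -,
    -, -, -, -, -, -, xS1, xS2, xS3⟩ := Pair.facts hL.tf h
  -- members of `UN S l`
  have key : ∀ w, w ∈ UN G S l → w ∈ S ∧ G.Adj l w ∧ l ∈ op G S w ∧ sd G S w = 1 := by
    intro w hw
    unfold UN at hw
    rw [Finset.mem_filter] at hw
    have h1 := mem_op.1 hw.1
    refine ⟨?_, h1.1, op_symm hw.1, hw.2⟩
    by_contra hc
    exact h1.2 ⟨fun e => absurd e hc, fun e => absurd e hl⟩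
  obtain ⟨zS, lz, lopz, sz⟩ := key z hz
  obtain ⟨zS', lz', lopz', -⟩ := key z' hz'
  have hzz : G.Adj z z' := fact1g hG hL (le_refl 1) hl sl hz hz' hne
  have hzsm : z' ∈ sm G S z := mem_sm.2 ⟨hzz, ⟨fun _ => zS, fun _ => zS'⟩⟩
  have xS : x ∉ S := fun e => (mem_op.1 hx).2 ⟨fun _ => zS, fun _ => e⟩
  have zx : G.Adj z x := (mem_op.1 hx).1
  have b0 := h.sb
  have z10 := h.z1
  have z20 := h.z2
  have z30 := h.z3
  -- a vertex of `S` adjacent to `l` is not one of the `ui`
  have nu : ∀ w, l ∈ op G S w → w ≠ u1 ∧ w ≠ u2 ∧ w ≠ u3 := by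
    intro w hw
    refine ⟨?_, ?_, ?_⟩
    · rintro rfl
      rw [h.o1] at hw
      simp only [Finset.mem_insert, Finset.mem_singleton] at hw
      rcases hw with e | e <;> rw [e] at sl <;> omega
    · rintro rfl
      rw [h.o2] at hw
      simp only [Finset.mem_insert, Finset.mem_singleton] at hw
      rcases hw with e | e <;> rw [e] at sl <;> omega
    · rintro rfl
      rw [h.o3] at hw
      simp only [Finset.mem_insert, Finset.mem_singleton] at hw
      rcases hw with e | e <;> rw [e] at sl <;> omega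
  obtain ⟨nz1, nz2, nz3⟩ := nu z lopz
  obtain ⟨nz1', nz2', nz3'⟩ := nu z' lopz'
  have nzv1 : z ≠ v1 := by
    intro e
    rw [e, mv1, Finset.mem_singleton] at hzsm
    exact nz1' hzsm
  have nzv2 : z ≠ v2 := by
    intro e
    rw [e, mv2, Finset.mem_singleton] at hzsm
    exact nz2' hzsm
  have nzv3 : z ≠ v3 := by
    intro e
    rw [e, mv3, Finset.mem_singleton] at hzsm
    exact nz3' hzsm
  have neS : ∀ {a c : V}, a ∈ S → c ∉ S → a ≠ c := fun ha hc e => hc (e ▸ ha)
  have neD : ∀ {a c : V}, sd G S a = 1 → sd G S c = 0 → a ≠ c := by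
    intro a c ha hc e
    rw [e] at ha
    omega
  obtain ⟨zc, zr⟩ := star_flip_rest h.toStar (neS zS h.hb) nz1 nz2 nz3
  obtain ⟨zsm, zop⟩ := zr (neS zS xS1) (neS zS xS2) (neS zS xS3) nzv1 nzv2 nzv3
  obtain ⟨lc, lr⟩ := star_flip_rest h.toStar (neD sl b0) (neS h.h1 hl).symm (neS h.h2 hl).symm
    (neS h.h3 hl).symm
  obtain ⟨lsm, -⟩ := lr (neD sl z10) (neD sl z20) (neD sl z30) (neS vS1 hl).symm
    (neS vS2 hl).symm (neS vS3 hl).symm
  obtain ⟨xc, xr⟩ := star_flip_rest h.toStar (neD hx1 b0) (neS h.h1 xS).symm (neS h.h2 xS).symm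
    (neS h.h3 xS).symm
  obtain ⟨xsm, -⟩ := xr (neD hx1 z10) (neD hx1 z20) (neD hx1 z30) (neS vS1 xS).symm
    (neS vS2 xS).symm (neS vS3 xS).symm
  obtain ⟨hL1, -⟩ := pair_flip hG hL h
  have zc' : z ∉ sflip S b u1 u2 u3 := fun e => zc.1 e zS
  have sdz : sd G (sflip S b u1 u2 u3) z = 1 := by
    unfold sd
    rw [zsm]
    exact sz
  have hlU : l ∈ UN G (sflip S b u1 u2 u3) z := by
    unfold UN
    rw [Finset.mem_filter, zop]
    refine ⟨lopz, ?_⟩
    unfold sd
    rw [lsm]
    exact sl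
  have hxU : x ∈ UN G (sflip S b u1 u2 u3) z := by
    unfold UN
    rw [Finset.mem_filter, zop]
    refine ⟨hx, ?_⟩
    unfold sd
    rw [xsm]
    exact hx1
  have hlx : G.Adj l x := fact1g hG hL1 (le_refl 1) zc' sdz hlU hxU hxl.symm
  have hfin := (hD S hL l z z' hl sl zS zS' lz lz' hzz).2 x hlx.symm zx.symm
  exact xS (hfin ▸ zS')

end Pool.Agent.Lib.AndoB
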