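import Pool.Agent.Lib.AndoB.Defs
import Pool.Agent.Lib.Ando.OpB2

/-!
# AndoB.OpGa: the operation (ga)

Compare `Ando/OpB2.lean` (`eff_B2`, the case of w in place of v1) and use its auxiliary lemmas and `mk_eff`, `cls_two`, ... of `Ando/OpZZ.lean`.
T = symmDiff S {x1, u1, u2}; let r* be the member of sm S r (r* is not u1, u2, v1).  White: v1 - x1 - r - r*: sm T x1 = {v1, r}, sm T r = {x1, r*}, sd T v1 = 1, sd T r* = 1.
Black: u1 - b - u2 - x2: sm T u1 = {b}, sm T b = {u1, u2}, sm T u2 = {b, x2}, sd T x2 = 1.  The member of sm S u2 loses its partner.  All other vertices keep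
sd ≤ 1.  iot = 1 - 2 = -1 (x1 is black, u1, u2 are white).
-/

set_option autoImplicit false
set_option linter.unusedSectionVars false

namespace Pool.Agent.Lib.AndoB

open Pool.Agent.Lib.Ando Pool.Agent.Lib.Ando.OpB2Aux

variable {V : Type*} [Fintype V] [DecidableEq V] (G : SimpleGraph V) [DecidableRel G.Adj]

variable {G} in
theorem eff_ga {S : Finset V} (htf : ∀ v, sd G S v ≤ 1) {b u1 u2 u3 x1 x2 v1 r : V}
    (hb : b ∉ S) (sb : sd G S b = 0) (ob : op G S b = {u1, u2, u3}) (n12 : u1 ≠ u2)
    (n13 : u1 ≠ u3) (n23 : u2 ≠ u3) (h1 : u1 ∈ S) (h2 : u2 ∈ S)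
    (o1 : op G S u1 = {b, x1}) (o2 : op G S u2 = {b, x2}) (b1 : b ≠ x1) (b2 : b ≠ x2)
    (x12 : x1 ≠ x2) (z1 : sd G S x1 = 0) (z2 : sd G S x2 = 0) (s1 : sm G S u1 = {v1})
    (ox : op G S x1 = {u1, v1, r}) (nv : u1 ≠ v1) (nr : u1 ≠ r) (nvr : v1 ≠ r)
    (hr : sd G S r = 1) (hu : u2 ∉ sm G S u1) (hr2 : r ∉ sm G S u2) (hr3 : r ≠ u2) :
    Eff G S {x1, u1, u2} (-1) 2 2 2 2 := by
  classical
  have hw := hr
  have hw1 : r ∉ sm G S u1 := by
    rw [s1, Finset.mem_singleton]
    exact nvr.symm
  have nw := nr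
  have no := nv
  have nwo := nvr.symm
  have ox : op G S x1 = {u1, r, v1} := by
    rw [ox, Finset.pair_comm]

  have hx1 : x1 ∉ S := op_nm (G := G) (v := u1) (by rw [o1]; simp) h1
  have hx2 : x2 ∉ S := op_nm (G := G) (v := u2) (by rw [o2]; simp) h2
  have h3 : u3 ∈ S := op_m (G := G) (v := b) (by rw [ob]; simp) hb
  have hoS : v1 ∈ S := op_m (G := G) (v := x1) (by rw [ox]; simp) hx1
  have hwS : r ∈ S := op_m (G := G) (v := x1) (by rw [ox]; simp) hx1
  have smb : sm G S b = ∅ := Finset.card_eq_zero.1 sb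
  have smx1 : sm G S x1 = ∅ := Finset.card_eq_zero.1 z1
  have smx2 : sm G S x2 = ∅ := Finset.card_eq_zero.1 z2
  have mo : v1 ∈ sm G S u1 := by rw [s1]; simp
  have smo : sm G S v1 = {u1} := by
    have hc : (sm G S v1).card ≤ 1 := htf v1
    exact Finset.eq_singleton_iff_unique_mem.2
      ⟨sm_symm mo, fun y hy => Finset.card_le_one.1 hc y hy u1 (sm_symm mo)⟩
  obtain ⟨r', hw'⟩ := Finset.card_eq_one.1 hw
  have hw'm : r' ∈ sm G S r := by rw [hw']; simp
  have hw'S : r' ∈ S := sm_m hw'm hwS
  -- inequalities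
  have nx1u1 : x1 ≠ u1 := (ne_of_mem h1 hx1).symm
  have nx1u2 : x1 ≠ u2 := (ne_of_mem h2 hx1).symm
  have nx2u1 : x2 ≠ u1 := (ne_of_mem h1 hx2).symm
  have nx2u2 : x2 ≠ u2 := (ne_of_mem h2 hx2).symm
  have nbu1 : b ≠ u1 := (ne_of_mem h1 hb).symm
  have nbu2 : b ≠ u2 := (ne_of_mem h2 hb).symm
  have nu3x1 : u3 ≠ x1 := ne_of_mem h3 hx1
  have nwx1 : r ≠ x1 := ne_of_mem hwS hx1
  have nwb : r ≠ b := ne_of_mem hwS hb
  have nwx2 : r ≠ x2 := ne_of_mem hwS hx2
  have nox1 : v1 ≠ x1 := ne_of_mem hoS hx1
  have nob : v1 ≠ b := ne_of_mem hoS hb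
  have nox2 : v1 ≠ x2 := ne_of_mem hoS hx2
  have nw'x1 : r' ≠ x1 := ne_of_mem hw'S hx1
  have nw'b : r' ≠ b := ne_of_mem hw'S hb
  have nw'w : r' ≠ r := sm_ne hw'm
  have nw'u1 : r' ≠ u1 := by
    rintro rfl
    exact hw1 (sm_symm hw'm)
  have nw'u2 : r' ≠ u2 := by
    rintro rfl
    exact hr2 (sm_symm hw'm)
  have nou2 : v1 ≠ u2 := by
    rintro rfl
    exact hu mo
  have hF : ∀ v, v ∈ ({x1, u1, u2} : Finset V) ↔ v = x1 ∨ v = u1 ∨ v = u2 := by
    intro v; simp
  set F : Finset V := {x1, u1, u2} with hFdef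
  have fx1 : x1 ∈ F := by rw [hF]; simp
  have fu1 : u1 ∈ F := by rw [hF]; simp
  have fu2 : u2 ∈ F := by rw [hF]; simp
  have fb : b ∉ F := by rw [hF]; tauto
  have fx2 : x2 ∉ F := by
    rw [hF]
    have := x12.symm
    tauto
  have fw : r ∉ F := by
    rw [hF]
    have := nw.symm
    tauto
  have fo : v1 ∉ F := by
    rw [hF]
    have := no.symm
    tauto
  set T : Finset V := symmDiff S F with hT
  have sTx1 : sm G T x1 = {r, v1} := by
    rw [hT, sm_flip_mem G fx1, ox, smx1]
    ext y
    simp only [Finset.mem_union, Finset.mem_sdiff, Finset.mem_inter, Finset.mem_insert,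
      Finset.mem_singleton, Finset.notMem_empty, false_and, or_false]
    constructor
    · rintro ⟨rfl | h, h'⟩
      · exact absurd fu1 h'
      · exact h
    · rintro (rfl | rfl)
      · exact ⟨Or.inr (Or.inl rfl), fw⟩
      · exact ⟨Or.inr (Or.inr rfl), fo⟩
  have sTu1 : sm G T u1 = {b} := by
    rw [hT, sm_flip_mem G fu1, o1]
    ext y
    simp only [Finset.mem_union, Finset.mem_sdiff, Finset.mem_inter, Finset.mem_insert,
      Finset.mem_singleton]
    constructor
    · rintro (⟨rfl | rfl, h'⟩ | ⟨h, h'⟩)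
      · rfl
      · exact absurd fx1 h'
      · exfalso
        rcases (hF y).1 h' with rfl | rfl | rfl
        · exact hx1 (sm_m h h1)
        · exact sm_ne h rfl
        · exact hu h
    · rintro rfl
      exact Or.inl ⟨Or.inl rfl, fb⟩
  have sTu2 : sm G T u2 = {b, x2} := by
    rw [hT, sm_flip_mem G fu2, o2]
    ext y
    simp only [Finset.mem_union, Finset.mem_sdiff, Finset.mem_inter, Finset.mem_insert,
      Finset.mem_singleton]
    constructor
    · rintro (⟨h, _⟩ | ⟨h, h'⟩)
      · exact h
      · exfalso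
        rcases (hF y).1 h' with rfl | rfl | rfl
        · exact hx1 (sm_m h h2)
        · exact hu (sm_symm h)
        · exact sm_ne h rfl
    · rintro (rfl | rfl)
      · exact Or.inl ⟨Or.inl rfl, fb⟩
      · exact Or.inl ⟨Or.inr rfl, fx2⟩
  have sTb : sm G T b = {u1, u2} := by
    rw [hT, sm_flip_not_mem G fb, ob, smb]
    ext y
    simp only [Finset.mem_union, Finset.mem_sdiff, Finset.mem_inter, Finset.mem_insert,
      Finset.mem_singleton, Finset.notMem_empty, false_and, false_or]
    constructor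
    · rintro ⟨rfl | rfl | rfl, h'⟩
      · exact Or.inl rfl
      · exact Or.inr rfl
      · rcases (hF y).1 h' with h | h | h
        · exact absurd h nu3x1
        · exact absurd h.symm n13
        · exact absurd h.symm n23
    · rintro (rfl | rfl)
      · exact ⟨Or.inl rfl, fu1⟩
      · exact ⟨Or.inr (Or.inl rfl), fu2⟩
  have sTx2 : sm G T x2 = {u2} := by
    rw [hT, sm_flip_not_mem G fx2, smx2]
    ext y
    simp only [Finset.mem_union, Finset.mem_sdiff, Finset.mem_inter,
      Finset.mem_singleton, Finset.notMem_empty, false_and, false_or]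
    constructor
    · rintro ⟨h, h'⟩
      rcases (hF y).1 h' with rfl | rfl | rfl
      · exact absurd (op_m h hx2) hx1
      · exfalso
        have := op_symm h
        rw [o1] at this
        simp only [Finset.mem_insert, Finset.mem_singleton] at this
        rcases this with h5 | h5
        · exact b2 h5.symm
        · exact x12 h5.symm
      · rfl
    · rintro rfl
      exact ⟨op_symm (by rw [o2]; simp), fu2⟩
  have sTw : sm G T r = {r', x1} := by
    rw [hT, sm_flip_not_mem G fw, hw']
    ext y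
    simp only [Finset.mem_union, Finset.mem_sdiff, Finset.mem_inter, Finset.mem_insert,
      Finset.mem_singleton]
    constructor
    · rintro (⟨h, _⟩ | ⟨h, h'⟩)
      · exact Or.inl h
      · rcases (hF y).1 h' with rfl | rfl | rfl
        · exact Or.inr rfl
        · exact absurd h1 (op_nm h hwS)
        · exact absurd h2 (op_nm h hwS)
    · rintro (rfl | rfl)
      · refine Or.inl ⟨rfl, fun h => ?_⟩
        rcases (hF y).1 h with h | h | h
        · exact nw'x1 h
        · exact nw'u1 h
        · exact nw'u2 h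
      · exact Or.inr ⟨op_symm (by rw [ox]; simp), fx1⟩
  have sTo : sm G T v1 = {x1} := by
    rw [hT, sm_flip_not_mem G fo, smo]
    ext y
    simp only [Finset.mem_union, Finset.mem_sdiff, Finset.mem_inter,
      Finset.mem_singleton]
    constructor
    · rintro (⟨h, h'⟩ | ⟨h, h'⟩)
      · rw [h] at h'
        exact absurd fu1 h'
      · rcases (hF y).1 h' with rfl | rfl | rfl
        · rfl
        · exact absurd h1 (op_nm h hoS)
        · exact absurd h2 (op_nm h hoS)
    · rintro rfl
      exact Or.inr ⟨op_symm (by rw [ox]; simp), fx1⟩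
  have sTv : ∀ v, v ≠ x1 → v ≠ u1 → v ≠ u2 → v ≠ b → v ≠ x2 → v ≠ r → v ≠ v1 → sd G T v ≤ 1 := by
    intro v a1 a2 a3 a4 a5 a6 a7
    have fv : v ∉ F := by rw [hF]; tauto
    refine le_trans ?_ (htf v)
    unfold sd
    apply Finset.card_le_card
    rw [hT, sm_flip_not_mem G fv]
    intro y hy
    rcases Finset.mem_union.1 hy with hy | hy
    · exact (Finset.mem_sdiff.1 hy).1
    · exfalso
      obtain ⟨hy1, hy2⟩ := Finset.mem_inter.1 hy
      have hv := op_symm hy1
      rcases (hF y).1 hy2 with rfl | rfl | rfl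
      · rw [ox] at hv
        simp only [Finset.mem_insert, Finset.mem_singleton] at hv
        tauto
      · rw [o1] at hv
        simp only [Finset.mem_insert, Finset.mem_singleton] at hv
        tauto
      · rw [o2] at hv
        simp only [Finset.mem_insert, Finset.mem_singleton] at hv
        tauto
  have dx1 : sd G T x1 = 2 := by
    unfold sd; rw [sTx1]; exact Finset.card_pair nwo
  have du1 : sd G T u1 = 1 := by
    unfold sd; rw [sTu1]; exact Finset.card_singleton _
  have du2 : sd G T u2 = 2 := by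
    unfold sd; rw [sTu2]; exact Finset.card_pair b2
  have db : sd G T b = 2 := by
    unfold sd; rw [sTb]; exact Finset.card_pair n12
  have dx2 : sd G T x2 = 1 := by
    unfold sd; rw [sTx2]; exact Finset.card_singleton _
  have dw : sd G T r = 2 := by
    unfold sd; rw [sTw]; exact Finset.card_pair nw'x1
  have do_ : sd G T v1 = 1 := by
    unfold sd; rw [sTo]; exact Finset.card_singleton _
  have hcls : ∀ v, sd G T v = 2 ↔ v = x1 ∨ v = u2 ∨ v = b ∨ v = r := by
    intro v
    constructor
    · intro h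
      by_contra hc
      push Not at hc
      by_cases a2 : v = u1
      · subst a2; omega
      by_cases a5 : v = x2
      · subst a5; omega
      by_cases a7 : v = v1
      · subst a7; omega
      have := sTv v hc.1 a2 hc.2.1 hc.2.2.1 a5 hc.2.2.2 a7
      omega
    · rintro (rfl | rfl | rfl | rfl)
      · exact dx1
      · exact du2
      · exact db
      · exact dw
  have hle : ∀ v, sd G T v ≤ 2 := by
    intro v
    by_cases a1 : v = x1
    · subst a1; omega
    by_cases a2 : v = u1
    · subst a2; omega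
    by_cases a3 : v = u2
    · subst a3; omega
    by_cases a4 : v = b
    · subst a4; omega
    by_cases a5 : v = x2
    · subst a5; omega
    by_cases a6 : v = r
    · subst a6; omega
    by_cases a7 : v = v1
    · subst a7; omega
    have := sTv v a1 a2 a3 a4 a5 a6 a7
    omega
  have dw' : sd G T r' ≠ 2 := by
    intro h
    rcases (hcls r').1 h with h | h | h | h
    · exact nw'x1 h
    · exact nw'u2 h
    · exact nw'b h
    · exact nw'w h
  have fx1c : (sm G T x1).filter (fun v => sd G T v = 2) = {r} := by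
    rw [sTx1]
    simp [Finset.filter_insert, Finset.filter_singleton, dw, do_]
  have fwc : (sm G T r).filter (fun v => sd G T v = 2) = {x1} := by
    rw [sTw]
    simp [Finset.filter_insert, Finset.filter_singleton, dw', dx1]
  have fbc : (sm G T b).filter (fun v => sd G T v = 2) = {u2} := by
    rw [sTb]
    simp [Finset.filter_insert, Finset.filter_singleton, du1, du2]
  have fu2c : (sm G T u2).filter (fun v => sd G T v = 2) = {b} := by
    rw [sTu2]
    simp [Finset.filter_insert, Finset.filter_singleton, db, dx2]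
  have mT : ∀ v, v ∈ T ↔ (v ∈ S ∧ v ∉ F) ∨ (v ∈ F ∧ v ∉ S) := fun v => Finset.mem_symmDiff
  have tx1 : x1 ∈ T := (mT x1).2 (Or.inr ⟨fx1, hx1⟩)
  have tw : r ∈ T := (mT r).2 (Or.inl ⟨hwS, fw⟩)
  have tb : b ∉ T := by rw [mT]; tauto
  have tu2 : u2 ∉ T := by rw [mT]; tauto
  have fT : T.filter (fun v => sd G T v = 2) = {x1, r} := by
    ext v
    rw [Finset.mem_filter, hcls, Finset.mem_insert, Finset.mem_singleton]
    constructor
    · rintro ⟨h, rfl | rfl | rfl | rfl⟩
      · exact Or.inl rfl
      · exact absurd h tu2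
      · exact absurd h tb
      · exact Or.inr rfl
    · rintro (rfl | rfl)
      · exact ⟨tx1, Or.inl rfl⟩
      · exact ⟨tw, Or.inr (Or.inr (Or.inr rfl))⟩
  have fTc : Tᶜ.filter (fun v => sd G T v = 2) = {b, u2} := by
    ext v
    rw [Finset.mem_filter, hcls, Finset.mem_insert, Finset.mem_singleton, Finset.mem_compl]
    constructor
    · rintro ⟨h, rfl | rfl | rfl | rfl⟩
      · exact absurd tx1 h
      · exact Or.inr rfl
      · exact Or.inl rfl
      · exact absurd tw h
    · rintro (rfl | rfl)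
      · exact ⟨tb, Or.inr (Or.inr (Or.inl rfl))⟩
      · exact ⟨tu2, Or.inr (Or.inl rfl)⟩
  refine ⟨?_, ?_, ?_, ?_, ?_, ?_⟩
  · intro v
    refine ⟨hle v, fun h => ?_⟩
    rcases (hcls v).1 h with rfl | rfl | rfl | rfl
    · rw [fx1c]; simp
    · rw [fu2c]; simp
    · rw [fbc]; simp
    · rw [fwc]; simp
  · have hSF : S ∩ F = {u1, u2} := by
      ext v
      rw [Finset.mem_inter, hF, Finset.mem_insert, Finset.mem_singleton]
      constructor
      · rintro ⟨h, rfl | h'⟩
        · exact absurd h hx1
        · exact h'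
      · rintro (rfl | rfl)
        · exact ⟨h1, Or.inr (Or.inl rfl)⟩
        · exact ⟨h2, Or.inr (Or.inr rfl)⟩
    have hFS : F \ S = {x1} := by
      ext v
      rw [Finset.mem_sdiff, hF, Finset.mem_singleton]
      constructor
      · rintro ⟨rfl | rfl | rfl, h⟩
        · rfl
        · exact absurd h1 h
        · exact absurd h2 h
      · rintro rfl
        exact ⟨Or.inl rfl, hx1⟩
    have e1 : T = (S \ F) ∪ (F \ S) := rfl
    have e2 : T.card = (S \ F).card + (F \ S).card := by
      rw [e1]
      apply Finset.card_union_of_disjoint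
      rw [Finset.disjoint_left]
      intro v h h'
      exact (Finset.mem_sdiff.1 h).2 (Finset.mem_sdiff.1 h').1
    have e3 : (S \ F).card + (S ∩ F).card = S.card := Finset.card_sdiff_add_card_inter S F
    rw [hSF, Finset.card_pair n12] at e3
    rw [hFS, Finset.card_singleton] at e2
    have e4 : S.card + Sᶜ.card = Fintype.card V := Finset.card_add_card_compl S
    have e5 : T.card + Tᶜ.card = Fintype.card V := Finset.card_add_card_compl T
    rw [← hT]
    unfold imb
    omega
  · unfold n2
    rw [fT]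
    exact Finset.card_pair nwx1.symm
  · unfold q2
    rw [fT, Finset.sum_pair nwx1.symm, fx1c, fwc]
    simp
  · unfold n2
    rw [fTc]
    exact Finset.card_pair nbu2
  · unfold q2
    rw [fTc, Finset.sum_pair nbu2, fbc, fu2c]
    simp


end Pool.Agent.Lib.AndoB
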