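import Pool.Agent.Lib.AndoB.Exists
import Pool.Agent.Lib.AndoB.OpGa
import Pool.Agent.Lib.Ando.OpB2
import Pool.Agent.Lib.Ando.StarB12

/-!
# AndoB.PairW: a `Pair` whose outer vertex `x1` has a further neighbour `w` in U with a black neighbour in L

`op S x1` has three members (sd x1 = 0): u1, w and a third one, t.  t is white.
* sd t = 0: (be), `eff_B2` with u1 and uj, j in {2, 3} such that w is not in sm S uj (w has only one member in sm S w, so one of j = 2, 3 is possible; use `Pair.swap`, `Pair.rot` to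
  exchange the indices 2 and 3), then `StarB12Aux.good_of_eff` (imb S = 2).
* t = v1: (ga), `eff_ga` with r = w and uj as before; `good_of_eff`.
* otherwise sd t = 1, t /= v1, u1, w: op S x1 = {u1, w, t}, pairwise not adjacent: u1, w: sm S u1 = {v1}, w /= v1; u1, t: the same; w, t: t would be in sm S w, excluded by `hn`.  So by
  `exists_pair` (for x1 in place of b, k = 1) there is a Pair at x1 and its outer black vertices have sd 0: the black neighbours of w are x1 (sd = 0) and the outer one (sd = 0).  But q is a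
  black neighbour of w with sd q = 1: contradiction.
-/

set_option autoImplicit false
set_option linter.unusedSectionVars false

namespace Pool.Agent.Lib.AndoB

open Pool.Agent.Lib.Ando

variable {V : Type*} [Fintype V] [DecidableEq V] (G : SimpleGraph V) [DecidableRel G.Adj]

namespace PairWAux

variable {G} in
theorem ne_of_adj {x y z : V} (h1 : G.Adj x y) (h2 : ¬ G.Adj x z) : y ≠ z := by
  rintro rfl
  exact h2 h1

variable {G} in
/-- The cases `sd t = 0` and `t = v1`, under the assumption that `w` is not `v2`. -/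
theorem two (hG : G.IsRegularOfDegree 3) {S : Finset V} (hL : Level G 1 S)
    {b u1 u2 u3 x1 x2 x3 v1 v2 v3 w t : V} (h : Pair G S b u1 u2 u3 x1 x2 x3 v1 v2 v3)
    (hsw : sd G S w = 1) (ax : G.Adj x1 w) (wu : w ≠ u1) (wv : w ≠ v1) (wv2 : w ≠ v2)
    (hop : op G S x1 = {u1, w, t}) (hut : u1 ≠ t) (hwt : w ≠ t)
    (ht : sd G S t = 0 ∨ t = v1) : Good G := by
  obtain ⟨-, -, -, f1, -, -, f4, -, -, -, -, -, -, -, -, -, -, -, -, -, -, -, -, -, g1, -⟩ :=
    h.facts hL.tf
  have himb : imb S = 2 := by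
    have := hL.imb_eq
    simpa using this
  have hu : u2 ∉ sm G S u1 := by
    rw [h.s1, Finset.mem_singleton]
    exact f4
  have hw1 : w ∉ sm G S u1 := by
    rw [h.s1, Finset.mem_singleton]
    exact wv
  have hw2 : w ∉ sm G S u2 := by
    rw [h.s2, Finset.mem_singleton]
    exact wv2
  have hw3 : w ≠ u2 := ne_of_adj ax g1
  rcases ht with ht | ht
  · exact StarB12Aux.good_of_eff hG himb
      (eff_B2 G hL.tf h.hb h.sb h.ob h.n12 h.n13 h.n23 h.h1 h.h2 h.o1 h.o2 h.b1 h.b2 h.x12
        h.z1 h.z2 hop wu.symm hut hwt hsw ht hu hw1 hw2 hw3)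
  · subst ht
    have hop' : op G S x1 = {u1, t, w} := by
      rw [hop, Finset.pair_comm w t]
    exact StarB12Aux.good_of_eff hG himb
      (eff_ga hL.tf h.hb h.sb h.ob h.n12 h.n13 h.n23 h.h1 h.h2 h.o1 h.o2 h.b1 h.b2 h.x12
        h.z1 h.z2 h.s1 hop' hut wu.symm hwt.symm hsw hu hw2 hw3)

end PairWAux

variable {G} in
theorem pair_w (hG : G.IsRegularOfDegree 3) {S : Finset V} (hL : Level G 1 S)
    {b u1 u2 u3 x1 x2 x3 v1 v2 v3 w q : V} (h : Pair G S b u1 u2 u3 x1 x2 x3 v1 v2 v3)
    (hw : w ∈ UN G S x1) (wu : w ≠ u1) (wv : w ≠ v1) (hn : ∀ y ∈ sm G S w, ¬ G.Adj x1 y)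
    (hq : q ∈ op G S w) (sq : sd G S q = 1) : Good G := by
  obtain ⟨-, -, v23, f1, -, -, f4, -, -, -, -, -, -, -, -, -, -, -, -, -, -, -, -, -, g1, g2, -,
    -, -, -, x1S, -, -⟩ := h.facts hL.tf
  obtain ⟨hwo, hsw⟩ := StarB12Aux.mem_UN.1 hw
  have hu1o : u1 ∈ op G S x1 := op_symm (by rw [h.o1]; simp)
  have hc3 : (op G S x1).card = 3 := by
    have h1 := sd_add_op hG S x1
    have h2 := h.z1
    omega
  obtain ⟨t, hop, hut, hwt⟩ := StarB12Aux.three hc3 hu1o hwo wu.symm
  have hto : t ∈ op G S x1 := by rw [hop]; simp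
  have hwS : w ∈ S := OpB2Aux.op_m (G := G) hwo x1S
  have htS : t ∈ S := OpB2Aux.op_m (G := G) hto x1S
  have ax : G.Adj x1 w := (mem_op.1 hwo).1
  by_cases ht : sd G S t = 0 ∨ t = v1
  · by_cases hv : w = v2
    · have hv3 : w ≠ v3 := by
        rw [hv]
        exact v23
      exact PairWAux.two hG hL h.rot.rot.swap hsw ax wu wv hv3 hop hut hwt ht
    · exact PairWAux.two hG hL h hsw ax wu wv hv hop hut hwt ht
  · rw [not_or] at ht
    obtain ⟨ht0, htv⟩ := ht
    have hst : sd G S t = 1 := by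
      have := hL.tf t
      omega
    have hsu : sd G S u1 = 1 := by
      unfold sd
      rw [h.s1, Finset.card_singleton]
    have a1 : ¬ G.Adj u1 w := by
      intro e
      have : w ∈ sm G S u1 := mem_sm.2 ⟨e, ⟨fun _ => h.h1, fun _ => hwS⟩⟩
      rw [h.s1, Finset.mem_singleton] at this
      exact wv this
    have a2 : ¬ G.Adj u1 t := by
      intro e
      have : t ∈ sm G S u1 := mem_sm.2 ⟨e, ⟨fun _ => h.h1, fun _ => htS⟩⟩
      rw [h.s1, Finset.mem_singleton] at this
      exact htv this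
    have a3 : ¬ G.Adj w t := by
      intro e
      exact hn t (mem_sm.2 ⟨e, ⟨fun _ => hwS, fun _ => htS⟩⟩) (mem_op.1 hto).1
    obtain ⟨-, y1, y2, y3, r1, r2, r3, P⟩ := exists_pair hG hL (le_refl 1) x1S h.z1 hop wu.symm
      hut hwt hsu hsw hst a1 a2 a3
    exfalso
    rw [P.o2, Finset.mem_insert, Finset.mem_singleton] at hq
    rcases hq with rfl | rfl
    · have := h.z1
      omega
    · have := P.z2
      omega

end Pool.Agent.Lib.AndoB
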