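import Pool.Agent.Lib.AndoB.LemT1
import Pool.Agent.Lib.AndoB.PairW

/-!
# AndoB.LemT2: Lemma T, the case w = v1

l in L, sm S l = {l'}, z, z' = z* in `UN S l`; v1 is a neighbour of l' and its black neighbours are l', y, both of sd 1.  Conclusion: `Good G`.

Let c1 = sflip S b u1 u2 u3 (`pair_flip`, `pair_flip_v`, `star_flip_rest`).  In c1: v1 is in Z with op = {u1, l', y}; u1, l', y are in U(c1) (l', y: unchanged `sm`, now white), pairwise not
adjacent: u1 is adjacent to b, x1, v1 only; l', y: if adjacent then y = l (sm S l' = {l}), so l is adjacent to v1, so v1 is in op S l = {z, z'}; then l' is adjacent to l and to z or z':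
`DLfree` (second part, for (l, z, z') or (l, z', z)) gives l' = z' or z: colours differ.  So by `exists_pair` there is a Pair at v1 in c1, with outer vertices: x-part b for u1 (op c1 u1 =
{b, v1}), v-part x1 for u1 (sm c1 u1 = {x1}), v-part l for l' (sm c1 l' = {l}); let r be the x-part of l' (r in Z(c1), r /= v1, r in op c1 l').
c2 = sflip c1 v1 u1 l' y: level (`pair_flip`), and there: sm c2 l' = {r}, op c2 l' = {v1, l} (the Pair of c2 at v1), sd c2 l = 0, op c2 l = {l', z, z'} (`pair_flip_v` for the index of l'),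
l black in c2, l' white; z, z' are white in c2 with sm c2 z = {z'}, sm c2 z' = {z} (`star_flip_rest` twice; z, z' are not u1, v1, x1, b, ... : z, z' are in L(c1), so not in any
special position of the Pair at v1, except possibly partners of y: sm c1 y = {y*}, y* in U(c1), so no).
Let x be the black neighbour /= l of z (`lemT_x`: sd S x = 0), similarly x' for z'.  x /= x' (`DLfree`, first part: x adjacent to z and z' gives x = l).
(i) If x is not x2 or x3, then sd c2 x = 0: x in O(c1) or x = x1 (partner of u1 in c1, so by the second flip isolated); x /= b.  F = {l, l', z}: iot c2 F = 1 - 2 = -1,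
cost c2 F = 3 + 1 + 1 - 2 * 2 = 1 (l', z are not adjacent: op c2 l' = {v1, l}, sm c2 l' = {r}, r /= z as r in Z(c1), z in L(c1)).  By `Level.exists_two` some vertex has sd ≥ 2 in
symmDiff c2 F.  But there: l: {z'}; l': sm = {v1} (r and l are white now); z: {x}; z': {l}; v1: {l'}; x: {z}; r: {}; all other vertices unchanged.  Contradiction.
(ii) The same for x' and z' (exchange z, z').
(iii) Otherwise {x, x'} = {x2, x3}.  By symmetry (`Pair.swap`, `Pair.rot`) x2 = x: apply `pair_w` to the Pair with first index 2: w = z in `UN S x2`, z /= u2, v2 (z = v2 gives z' = u2, which is not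
adjacent to l), sm S z = {z'} and z' is not adjacent to x2 = x (`DLfree`, first part), l in op S z with sd l = 1.  So `Good G`.
-/

set_option autoImplicit false
set_option linter.unusedSectionVars false

namespace Pool.Agent.Lib.AndoB

open Pool.Agent.Lib.Ando

variable {V : Type*} [Fintype V] [DecidableEq V] (G : SimpleGraph V) [DecidableRel G.Adj]

namespace LemT2Aux

open Fact2Aux

theorem card_one {A : Finset V} {a : V} (h : ∀ w ∈ A, w = a) : A.card ≤ 1 :=
  Finset.card_le_one.2 (fun p hp q hq => (h p hp).trans (h q hq).symm)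

theorem sing {A : Finset V} {a : V} (ha : a ∈ A) (hc : A.card ≤ 1) : A = {a} :=
  Finset.eq_singleton_iff_unique_mem.2 ⟨ha, fun y hy => Finset.card_le_one.1 hc y hy a ha⟩

theorem sflip_rot (T : Finset V) (b u1 u2 u3 : V) :
    sflip T b u2 u3 u1 = sflip T b u1 u2 u3 := by
  unfold sflip
  congr 2
  ext p
  simp only [Finset.mem_insert, Finset.mem_singleton]
  tauto

variable {G} in
/-- The exchange on `{l, l', z}` in the twice flipped colouring is impossible. -/
theorem no_flip (hG : G.IsRegularOfDegree 3) {c : Finset V} (hL : Level G 1 c)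
    {l l' z z' x v r : V} (hl : l ∉ c) (sl : sd G c l = 0) (ol : op G c l = {l', z, z'})
    (hl' : l' ∈ c) (sml' : sm G c l' = {r}) (ol' : op G c l' = {v, l})
    (hz : z ∈ c) (smz : sm G c z = {z'}) (oz : op G c z = {l, x}) (smz' : sm G c z' = {z})
    (rz : r ≠ z) (lz : l' ≠ z) (sv : sd G c v = 0) (sx : sd G c x = 0)
    (xv : x ≠ v) (vl : v ≠ l) : False := by
  have sml : sm G c l = ∅ := Finset.card_eq_zero.1 sl
  have smv : sm G c v = ∅ := Finset.card_eq_zero.1 sv
  have smx : sm G c x = ∅ := Finset.card_eq_zero.1 sx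
  have al : G.Adj l l' := (mem_op.1 (show l' ∈ op G c l by rw [ol]; simp)).1
  have az : G.Adj l z := (mem_op.1 (show z ∈ op G c l by rw [ol]; simp)).1
  have nal : ¬ G.Adj l' z := by
    intro e
    have : z ∈ sm G c l' := mem_sm.2 ⟨e, by simp [hz, hl']⟩
    rw [sml', Finset.mem_singleton] at this
    exact rz this.symm
  have sl' : sd G c l' = 1 := by unfold sd; rw [sml', Finset.card_singleton]
  have sz : sd G c z = 1 := by unfold sd; rw [smz, Finset.card_singleton]
  have nll' : l ≠ l' := al.ne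
  have nlz : l ≠ z := az.ne
  have azz : G.Adj z z' := (mem_sm.1 (show z' ∈ sm G c z by rw [smz]; simp)).1
  have hz'S : z' ∈ c := (mem_sm.1 (show z' ∈ sm G c z by rw [smz]; simp)).2.2 hz
  have hvS : v ∉ c := by
    intro hh
    exact (mem_op.1 (show v ∈ op G c l' by rw [ol']; simp)).2 (by simp [hh, hl'])
  have hxS : x ∉ c := by
    intro hh
    exact (mem_op.1 (show x ∈ op G c z by rw [oz]; simp)).2 (by simp [hh, hz])
  have hrl' : G.Adj l' r := (mem_sm.1 (show r ∈ sm G c l' by rw [sml']; simp)).1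
  have hrS : r ∈ c := (mem_sm.1 (show r ∈ sm G c l' by rw [sml']; simp)).2.2 hl'
  have c1 : cost G c {z} = 1 := by
    have := cost_insert G c ∅ z (by simp)
    rw [cost_empty, sz, Finset.sum_empty] at this
    simpa using this
  have c2 : cost G c {l', z} = 2 := by
    rw [cost_insert G c {z} l' (by simpa using lz), c1, sl', Finset.sum_singleton,
      sg_nonadj G nal]
    norm_num
  have c3 : cost G c {l, l', z} = 1 := by
    rw [cost_insert G c {l', z} l (by simp [nll', nlz]), c2, sl, Finset.sum_pair lz,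
      sg_bi G al (by simp [hl, hl']), sg_bi G az (by simp [hl, hz])]
    norm_num
  have i1 : iot c {z} = -1 := by
    have := iot_insert c ∅ z (by simp)
    rw [iot_empty, if_pos hz] at this
    simpa using this
  have i2 : iot c {l', z} = -2 := by
    rw [iot_insert c {z} l' (by simpa using lz), i1, if_pos hl']
    norm_num
  have i3 : iot c {l, l', z} = -1 := by
    rw [iot_insert c {l', z} l (by simp [nll', nlz]), i2, if_neg hl]
    norm_num
  obtain ⟨w, hw⟩ := hL.exists_two hG {l, l', z} (by rw [c3, i3]; norm_num)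
    (by rw [i3]; norm_num)
  have hF : ∀ p, p ∈ ({l, l', z} : Finset V) ↔ (p = l ∨ p = l' ∨ p = z) := by
    intro p
    simp only [Finset.mem_insert, Finset.mem_singleton]
  have key : sd G (symmDiff c {l, l', z}) w ≤ 1 := by
    unfold sd
    by_cases hwF : w ∈ ({l, l', z} : Finset V)
    · rw [sm_flip_mem G hwF]
      rcases (hF w).1 hwF with e | e | e
      · subst e
        refine card_one (a := z') ?_
        intro p hp
        rw [ol, sml, Finset.mem_union, Finset.mem_sdiff, Finset.mem_inter, hF,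
          Finset.mem_insert, Finset.mem_insert, Finset.mem_singleton] at hp
        rcases hp with ⟨hp1, hp2⟩ | ⟨hp1, hp2⟩
        · tauto
        · exact absurd hp1 (Finset.notMem_empty _)
      · subst e
        refine card_one (a := v) ?_
        intro p hp
        rw [ol', sml', Finset.mem_union, Finset.mem_sdiff, Finset.mem_inter, hF,
          Finset.mem_insert, Finset.mem_singleton, Finset.mem_singleton] at hp
        rcases hp with ⟨hp1, hp2⟩ | ⟨hp1, hp2⟩
        · tauto
        · exfalso
          subst hp1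
          rcases hp2 with e | e | e
          · exact hl (e ▸ hrS)
          · exact hrl'.ne e.symm
          · exact rz e
      · subst e
        refine card_one (a := x) ?_
        intro p hp
        rw [oz, smz, Finset.mem_union, Finset.mem_sdiff, Finset.mem_inter, hF,
          Finset.mem_insert, Finset.mem_singleton, Finset.mem_singleton] at hp
        rcases hp with ⟨hp1, hp2⟩ | ⟨hp1, hp2⟩
        · tauto
        · exfalso
          subst hp1
          rcases hp2 with e | e | e
          · exact hl (e ▸ hz'S)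
          · rw [e] at azz
            exact nal azz.symm
          · exact azz.ne e.symm
    · rw [sm_flip_not_mem G hwF]
      by_cases he : ∀ p ∈ op G c w, p ∉ ({l, l', z} : Finset V)
      · refine le_trans (Finset.card_le_card ?_) (hL.tf w)
        intro p hp
        rw [Finset.mem_union, Finset.mem_sdiff, Finset.mem_inter] at hp
        rcases hp with hp | hp
        · exact hp.1
        · exact absurd hp.2 (he p hp.1)
      · push Not at he
        obtain ⟨q, hq, hqF⟩ := he
        have hq' := op_symm hq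
        have hcase : w = z' ∨ w = v ∨ w = x := by
          have hwF' := fun e => hwF ((hF w).2 e)
          rcases (hF q).1 hqF with e | e | e
          · rw [e, ol] at hq'
            simp only [Finset.mem_insert, Finset.mem_singleton] at hq'
            tauto
          · rw [e, ol'] at hq'
            simp only [Finset.mem_insert, Finset.mem_singleton] at hq'
            tauto
          · rw [e, oz] at hq'
            simp only [Finset.mem_insert, Finset.mem_singleton] at hq'
            tauto
        rcases hcase with e | e | e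
        · subst e
          refine card_one (a := l) ?_
          intro p hp
          rw [smz', Finset.mem_union, Finset.mem_sdiff, Finset.mem_inter, hF,
            Finset.mem_singleton, mem_op] at hp
          rcases hp with ⟨hp1, hp2⟩ | ⟨hp1, hp2⟩
          · tauto
          · rcases hp2 with e | e | e
            · exact e
            · exact absurd (by simp [e, hl', hz'S]) hp1.2
            · exact absurd (by simp [e, hz, hz'S]) hp1.2
        · subst e
          refine card_one (a := l') ?_
          intro p hp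
          rw [smv, Finset.mem_union, Finset.mem_sdiff, Finset.mem_inter, hF] at hp
          rcases hp with ⟨hp1, hp2⟩ | ⟨hp1, hp2⟩
          · exact absurd hp1 (Finset.notMem_empty _)
          · rcases hp2 with e | e | e
            · rw [e, mem_op] at hp1
              exact absurd (by simp [hl, hvS]) hp1.2
            · exact e
            · rw [e] at hp1
              have h1 := op_symm hp1
              rw [oz, Finset.mem_insert, Finset.mem_singleton] at h1
              rcases h1 with h1 | h1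
              · exact absurd h1 vl
              · exact absurd h1.symm xv
        · subst e
          refine card_one (a := z) ?_
          intro p hp
          rw [smx, Finset.mem_union, Finset.mem_sdiff, Finset.mem_inter, hF] at hp
          rcases hp with ⟨hp1, hp2⟩ | ⟨hp1, hp2⟩
          · exact absurd hp1 (Finset.notMem_empty _)
          · rcases hp2 with e | e | e
            · rw [e, mem_op] at hp1
              exact absurd (by simp [hl, hxS]) hp1.2
            · rw [e] at hp1
              have h1 := op_symm hp1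
              rw [ol', Finset.mem_insert, Finset.mem_singleton] at h1
              rcases h1 with h1 | h1
              · exact absurd h1 xv
              · exact absurd ((hF w).2 (Or.inl h1)) hwF
            · exact e
  omega

variable {G} in
/-- A vertex `z` in `UN S l`, `l` in L with partner of `z` also in `UN S l`, is not a special vertex of a
`Pair`. -/
theorem no_special {S : Finset V} (htf : ∀ v, sd G S v ≤ 1)
    {b u1 u2 u3 x1 x2 x3 v1 v2 v3 l z z' : V} (h : Pair G S b u1 u2 u3 x1 x2 x3 v1 v2 v3)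
    (sl : sd G S l = 1) (hz : l ∈ op G S z) (hz' : l ∈ op G S z') (smz : sm G S z = {z'}) :
    z ≠ u1 ∧ z ≠ v1 := by
  have hu : ∀ p, l ∈ op G S p → p ≠ u1 := by
    intro p hp e
    rw [e, h.o1, Finset.mem_insert, Finset.mem_singleton] at hp
    rcases hp with e' | e'
    · rw [e', h.sb] at sl
      exact absurd sl (by norm_num)
    · rw [e', h.z1] at sl
      exact absurd sl (by norm_num)
  obtain ⟨f1, f2, f3, f4, f5, f6, f7, f8, f9, f10, f11⟩ := PairAux.one htf h
  refine ⟨hu z hz, fun e => ?_⟩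
  rw [e, f7] at smz
  exact hu z' hz' (Finset.singleton_injective smz).symm

end LemT2Aux

variable {G} in
theorem lemT_core (hG : G.IsRegularOfDegree 3) (hD : DLfree G 1) {S : Finset V}
    (hL : Level G 1 S) {b u1 u2 u3 x1 x2 x3 v1 v2 v3 l l' z z' y : V}
    (h : Pair G S b u1 u2 u3 x1 x2 x3 v1 v2 v3)
    (hl : l ∉ S) (sl : sm G S l = {l'}) (hz : z ∈ UN G S l) (hz' : z' ∈ UN G S l) (hne : z ≠ z')
    (hv : v1 ∈ UN G S l') (hy : y ∈ op G S v1) (hyl : y ≠ l') (sy : sd G S y = 1) : Good G := by
  have hl1 : sd G S l = 1 := by unfold sd; rw [sl, Finset.card_singleton]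
  have hll' : l' ∈ sm G S l := by rw [sl]; simp
  have hl'l : l ∈ sm G S l' := sm_symm hll'
  have sml' : sm G S l' = {l} := LemT2Aux.sing hl'l (hL.tf l')
  have hl'1 : sd G S l' = 1 := by unfold sd; rw [sml', Finset.card_singleton]
  have hl'S : l' ∉ S := fun e => hl ((mem_sm.1 hll').2.1 e)
  have smz : sm G S z = {z'} := fact1g_sm hG hL (le_refl 1) hl hl1 hz hz' hne
  have smz' : sm G S z' = {z} := fact1g_sm hG hL (le_refl 1) hl hl1 hz' hz hne.symm
  have ozl : z ∈ op G S l := (Finset.mem_filter.1 hz).1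
  have sz : sd G S z = 1 := (Finset.mem_filter.1 hz).2
  have ozl' : z' ∈ op G S l := (Finset.mem_filter.1 hz').1
  have sz' : sd G S z' = 1 := (Finset.mem_filter.1 hz').2
  have ovl : v1 ∈ op G S l' := (Finset.mem_filter.1 hv).1
  have hzS : z ∈ S := by
    by_contra e
    exact (mem_op.1 ozl).2 (by simp [e, hl])
  have hz'S : z' ∈ S := by
    by_contra e
    exact (mem_op.1 ozl').2 (by simp [e, hl])
  have azz' : G.Adj z z' := (mem_sm.1 (show z' ∈ sm G S z by rw [smz]; simp)).1
  have alz : G.Adj l z := (mem_op.1 ozl).1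
  have alz' : G.Adj l z' := (mem_op.1 ozl').1
  have oll : op G S l = {z, z'} := by
    have hc := sd_add_op hG S l
    symm
    apply Finset.eq_of_subset_of_card_le
    · intro p hp
      rw [Finset.mem_insert, Finset.mem_singleton] at hp
      rcases hp with e | e
      · rw [e]; exact ozl
      · rw [e]; exact ozl'
    · rw [Finset.card_pair hne]
      omega
  -- the other black neighbour of z
  obtain ⟨x, hlx, oz⟩ := StarBasicAux.pair_of_card (op_symm ozl)
    (show (op G S z).card = 2 by have := sd_add_op hG S z; omega)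
  have hxz : x ∈ op G S z := by rw [oz]; simp
  have hx0 : sd G S x = 0 := lemT_x hG hD hL h hl hl1 hz hz' hne hxz hlx.symm
  have hxS : x ∉ S := fun e => (mem_op.1 hxz).2 (by simp [e, hzS])
  have hnx : ¬ G.Adj x z' := by
    intro e
    exact hlx ((hD S hL l z z' hl hl1 hzS hz'S alz alz' azz').1 x (mem_op.1 hxz).1.symm e).symm
  -- z, z' are not special
  obtain ⟨nzu1, nzv1⟩ := LemT2Aux.no_special hL.tf h hl1 (op_symm ozl) (op_symm ozl') smz
  obtain ⟨nzu2, nzv2⟩ := LemT2Aux.no_special hL.tf h.rot hl1 (op_symm ozl) (op_symm ozl') smz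
  obtain ⟨nzu3, nzv3⟩ := LemT2Aux.no_special hL.tf h.rot.rot hl1 (op_symm ozl) (op_symm ozl') smz
  obtain ⟨mzu1, mzv1⟩ := LemT2Aux.no_special hL.tf h hl1 (op_symm ozl') (op_symm ozl) smz'
  obtain ⟨mzu2, mzv2⟩ := LemT2Aux.no_special hL.tf h.rot hl1 (op_symm ozl') (op_symm ozl) smz'
  obtain ⟨mzu3, mzv3⟩ := LemT2Aux.no_special hL.tf h.rot.rot hl1 (op_symm ozl') (op_symm ozl) smz'
  -- the case x in {x1, x2, x3}
  have hzx : z ∈ UN G S x := Finset.mem_filter.2 ⟨op_symm hxz, sz⟩
  have hn : ∀ p ∈ sm G S z, ¬ G.Adj x p := by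
    intro p hp
    rw [smz, Finset.mem_singleton] at hp
    rw [hp]
    exact hnx
  by_cases ex1 : x = x1
  · subst ex1
    exact pair_w hG hL h hzx nzu1 nzv1 hn (op_symm ozl) hl1
  by_cases ex2 : x = x2
  · subst ex2
    exact pair_w hG hL h.rot hzx nzu2 nzv2 hn (op_symm ozl) hl1
  by_cases ex3 : x = x3
  · subst ex3
    exact pair_w hG hL h.rot.rot hzx nzu3 nzv3 hn (op_symm ozl) hl1
  exfalso
  -- the first flip
  obtain ⟨hL1, h1⟩ := pair_flip hG hL h
  obtain ⟨hf1, hf2⟩ := pair_flip_v hL.tf h
  obtain ⟨p1, p2, p3, p4, p5, p6, p7, p8, p9, p10, p11, p12, vS1, vS2, vS3, -, -, -, -, -, -,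
    -, -, -, -, -, -, -, -, -, xS1, xS2, xS3⟩ := Pair.facts hL.tf h
  obtain ⟨-, -, -, -, -, -, -, -, -, -, -, -, xc1, xc2, xc3, sx1, sx2, sx3, -, -, -,
    -, -, -, -, -, -, -, -, -, vc1, vc2, vc3⟩ := Pair.facts hL1.tf h1
  have neS : ∀ {p q : V} {T : Finset V}, p ∈ T → q ∉ T → p ≠ q := fun hp hq e => hq (e ▸ hp)
  have neS' : ∀ {p q : V} {T : Finset V}, p ∉ T → q ∈ T → p ≠ q := fun hp hq e => hp (e ▸ hq)
  have ne01 : ∀ {p q : V} {T : Finset V}, sd G T p = 0 → sd G T q = 1 → p ≠ q := by
    intro p q T e1 e2 e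
    rw [e, e2] at e1
    exact absurd e1 (by norm_num)
  have ne10 : ∀ {p q : V} {T : Finset V}, sd G T p = 1 → sd G T q = 0 → p ≠ q := by
    intro p q T e1 e2 e
    rw [e, e2] at e1
    exact absurd e1 (by norm_num)
  have hyS : y ∉ S := fun e => (mem_op.1 hy).2 (by simp [e, vS1])
  -- black vertices of monochromatic degree one in the first flip
  have blk : ∀ p, p ∉ S → sd G S p = 1 →
      p ∈ sflip S b u1 u2 u3 ∧ sm G (sflip S b u1 u2 u3) p = sm G S p ∧
        op G (sflip S b u1 u2 u3) p = op G S p := by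
    intro p hp sp
    obtain ⟨r1, r2⟩ := star_flip_rest h.toStar (ne10 sp h.sb) (neS' hp h.h1) (neS' hp h.h2)
      (neS' hp h.h3)
    exact ⟨r1.2 hp, r2 (ne10 sp h.z1) (ne10 sp h.z2) (ne10 sp h.z3) (neS' hp vS1)
      (neS' hp vS2) (neS' hp vS3)⟩
  obtain ⟨lc1, sml1, ol1⟩ := blk l hl hl1
  obtain ⟨l'c1, sml'1, ol'1⟩ := blk l' hl'S hl'1
  obtain ⟨yc1, smy1, oy1⟩ := blk y hyS sy
  have hovl : op G S v1 = {l', y} := by
    obtain ⟨q, hq1, hq2⟩ := StarBasicAux.pair_of_card (op_symm ovl)
      (show (op G S v1).card = 2 by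
        have := sd_add_op hG S v1
        have h2 : sd G S v1 = 1 := (Finset.mem_filter.1 hv).2
        omega)
    rw [hq2, Finset.mem_insert, Finset.mem_singleton] at hy
    rcases hy with hy | hy
    · exact absurd hy hyl
    · rw [hq2, hy]
  have sd1 : ∀ {T : Finset V} {p q : V}, sm G T p = {q} → sd G T p = 1 := by
    intro T p q e
    unfold sd
    rw [e, Finset.card_singleton]
  have hzrest : z ∉ sflip S b u1 u2 u3 ∧ sm G (sflip S b u1 u2 u3) z = sm G S z ∧
      op G (sflip S b u1 u2 u3) z = op G S z := by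
    obtain ⟨r1, r2⟩ := star_flip_rest h.toStar (neS hzS h.hb) nzu1 nzu2 nzu3
    exact ⟨fun e => (r1.1 e) hzS, r2 (neS hzS xS1) (neS hzS xS2) (neS hzS xS3) nzv1 nzv2 nzv3⟩
  have hz'rest : z' ∉ sflip S b u1 u2 u3 ∧ sm G (sflip S b u1 u2 u3) z' = sm G S z' ∧
      op G (sflip S b u1 u2 u3) z' = op G S z' := by
    obtain ⟨r1, r2⟩ := star_flip_rest h.toStar (neS hz'S h.hb) mzu1 mzu2 mzu3
    exact ⟨fun e => (r1.1 e) hz'S, r2 (neS hz'S xS1) (neS hz'S xS2) (neS hz'S xS3) mzv1 mzv2 mzv3⟩
  have hxb : x ≠ b := by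
    intro e
    have h2 : z ∈ op G S b := by rw [← e]; exact op_symm hxz
    rw [h.ob, Finset.mem_insert, Finset.mem_insert, Finset.mem_singleton] at h2
    rcases h2 with h2 | h2 | h2
    · exact nzu1 h2
    · exact nzu2 h2
    · exact nzu3 h2
  have hxrest : x ∈ sflip S b u1 u2 u3 ∧ sm G (sflip S b u1 u2 u3) x = sm G S x ∧
      op G (sflip S b u1 u2 u3) x = op G S x := by
    obtain ⟨r1, r2⟩ := star_flip_rest h.toStar hxb (neS' hxS h.h1) (neS' hxS h.h2)
      (neS' hxS h.h3)
    exact ⟨r1.2 hxS, r2 ex1 ex2 ex3 (neS' hxS vS1) (neS' hxS vS2) (neS' hxS vS3)⟩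
  -- the pair at v1
  have n1l' : ¬ G.Adj u1 l' := by
    intro e
    have h2 : l' ∈ op G S u1 := mem_op.2 ⟨e, fun e' => hl'S (e'.2 h.h1)⟩
    rw [h.o1, Finset.mem_insert, Finset.mem_singleton] at h2
    rcases h2 with h2 | h2
    · exact ne10 hl'1 h.sb h2
    · exact ne10 hl'1 h.z1 h2
  have n1y : ¬ G.Adj u1 y := by
    intro e
    have h2 : y ∈ op G S u1 := mem_op.2 ⟨e, fun e' => hyS (e'.2 h.h1)⟩
    rw [h.o1, Finset.mem_insert, Finset.mem_singleton] at h2
    rcases h2 with h2 | h2
    · exact ne10 sy h.sb h2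
    · exact ne10 sy h.z1 h2
  have nl'y : ¬ G.Adj l' y := by
    intro e
    have h2 : y ∈ sm G S l' := mem_sm.2 ⟨e, by simp [hyS, hl'S]⟩
    rw [sml', Finset.mem_singleton] at h2
    have h3 := op_symm hy
    rw [h2, oll, Finset.mem_insert, Finset.mem_singleton] at h3
    rcases h3 with h3 | h3
    · exact nzv1 h3.symm
    · exact mzv1 h3.symm
  obtain ⟨-, X1, r, X3, V1, V2, V3, h2⟩ := exists_pair hG hL1 (le_refl 1) (b := v1) (u1 := u1)
    (u2 := l') (u3 := y) vc1 h1.z1 (by rw [hf2, hovl]) (neS h.h1 hl'S) (neS h.h1 hyS) hyl.symm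
    (sd1 h1.s1) (sd1 (sml'1.trans sml')) (by unfold sd; rw [smy1]; exact sy) n1l' n1y nl'y
  have eX1 : X1 = b := by
    have e := h2.o1
    rw [h1.o1] at e
    have h3 : b ∈ ({v1, X1} : Finset V) := by rw [← e]; simp
    rw [Finset.mem_insert, Finset.mem_singleton] at h3
    rcases h3 with h3 | h3
    · exact absurd h3 (neS vS1 h.hb).symm
    · exact h3.symm
  have eV1 : V1 = x1 := by
    have e := h2.s1
    rw [h1.s1] at e
    exact (Finset.singleton_injective e).symm
  have eV2 : V2 = l := by
    have e := h2.s2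
    rw [sml'1, sml'] at e
    exact (Finset.singleton_injective e).symm
  subst eX1 eV1 eV2
  -- the second flip
  obtain ⟨hL2, k1⟩ := pair_flip hG hL1 h2
  obtain ⟨kf1, kf2⟩ := pair_flip_v hL1.tf h2.rot
  obtain ⟨q1, q2, q3, q4, q5, q6, q7, q8, q9, q10, q11, q12, wS1, wS2, wS3, ws1, ws2, ws3, -, -, -,
    -, -, -, -, -, -, -, -, -, yS1, yS2, yS3⟩ := Pair.facts hL1.tf h2
  have sz1 : sd G (sflip S X1 u1 u2 u3) z = 1 := sd1 (hzrest.2.1.trans smz)
  have sz'1 : sd G (sflip S X1 u1 u2 u3) z' = 1 := sd1 (hz'rest.2.1.trans smz')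
  have blk2 : ∀ p, p ∉ sflip S X1 u1 u2 u3 → sd G (sflip S X1 u1 u2 u3) p = 1 →
      p ∈ sflip (sflip S X1 u1 u2 u3) v1 u1 l' y ∧
        sm G (sflip (sflip S X1 u1 u2 u3) v1 u1 l' y) p = sm G (sflip S X1 u1 u2 u3) p ∧
        op G (sflip (sflip S X1 u1 u2 u3) v1 u1 l' y) p = op G (sflip S X1 u1 u2 u3) p := by
    intro p hp sp
    obtain ⟨r1, r2⟩ := star_flip_rest h2.toStar (ne10 sp h2.sb) (neS' hp h2.h1) (neS' hp h2.h2)
      (neS' hp h2.h3)
    exact ⟨r1.2 hp, r2 (ne10 sp h2.z1) (ne10 sp h2.z2) (ne10 sp h2.z3) (neS' hp wS1)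
      (neS' hp wS2) (neS' hp wS3)⟩
  obtain ⟨z2a, z2b, z2c⟩ := blk2 z hzrest.1 sz1
  obtain ⟨z2a', z2b', z2c'⟩ := blk2 z' hz'rest.1 sz'1
  have hx2 : x ∉ sflip (sflip S X1 u1 u2 u3) v1 u1 l' y ∧
      sm G (sflip (sflip S X1 u1 u2 u3) v1 u1 l' y) x = sm G (sflip S X1 u1 u2 u3) x := by
    have sx0 : sd G (sflip S X1 u1 u2 u3) x = 0 := by
      unfold sd
      rw [hxrest.2.1]
      exact hx0
    obtain ⟨r1, r2⟩ := star_flip_rest h2.toStar (neS' hxS vS1) (neS' hxS h.h1)
      (ne01 hx0 hl'1) (ne01 hx0 sy)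
    exact ⟨fun e => (r1.1 e) hxrest.1, (r2 hxb (neS hxrest.1 yS2) (neS hxrest.1 yS3)
      ex1 hlx.symm (ne01 sx0 ws3)).1⟩
  have sx2 : sd G (sflip (sflip S X1 u1 u2 u3) v1 u1 l' y) x = 0 := by
    unfold sd
    rw [hx2.2, hxrest.2.1]
    exact hx0
  rw [LemT2Aux.sflip_rot] at kf2
  obtain ⟨-, -, -, -, -, -, -, -, -, -, hV2⟩ := PairAux.one hL2.tf k1.rot
  exact LemT2Aux.no_flip hG hL2 (l := V2) (l' := l') (z := z) (z' := z') (x := x) (v := v1)
    (r := r) hV2 k1.z2 (by rw [kf2, ol1, oll]) k1.h2 k1.s2 k1.o2 z2a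
    (by rw [z2b, hzrest.2.1, smz]) (by rw [z2c, hzrest.2.2, oz])
    (by rw [z2b', hz'rest.2.1, smz']) (ne01 h2.z2 sz1) (neS l'c1 hzrest.1)
    k1.sb sx2 (neS' hxS vS1) (neS vS1 hl)

end Pool.Agent.Lib.AndoB
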