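import Pool.Agent.Lib.AndoB.LemT2

/-!
# AndoB.LemT3: Lemma T, second part: the outer neighbour of w

l in L, sm S l = {l'}, z, z' = z* in `UN S l`, w in `UN S l'`, y a black neighbour /= l' of w.  Then `Good G` or sd y = 0.
Suppose sd y = 1.
* w = vi for some i: `lemT_core` (with `Pair.rot` for i = 2, 3).
* w /= v1, v2, v3: w is not one of the ui (op S ui consists of vertices of sd 0; sd l' = 1: `sm S l' = {l}`), so in c1 = sflip S b u1 u2 u3 (`star_flip_rest`): w is black, sd = 1, and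
  l', y are white with sd = 1, in `UN c1 w`; by `fact1g` l' and y are adjacent: y = l (sm S l' = {l}).  So w is adjacent to l, w in op S l = {z, z'} (three neighbours l', z, z'; `sd_add_op`).
  l' is adjacent to l and to w in {z, z'}: `DLfree` (second part, for (l, z, z') or (l, z', z)) gives l' in {z, z'}: the colours differ.
-/

set_option autoImplicit false
set_option linter.unusedSectionVars false

namespace Pool.Agent.Lib.AndoB

open Pool.Agent.Lib.Ando

variable {V : Type*} [Fintype V] [DecidableEq V] (G : SimpleGraph V) [DecidableRel G.Adj]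

namespace LemT3Aux

variable {G} in
theorem mem_op_col {S : Finset V} {v w : V} (h : w ∈ op G S v) (hv : v ∉ S) : w ∈ S := by
  by_contra hw
  exact (mem_op.1 h).2 ⟨fun h1 => absurd h1 hw, fun h1 => absurd h1 hv⟩

variable {G} in
theorem mem_op_col' {S : Finset V} {v w : V} (h : w ∈ op G S v) (hv : v ∈ S) : w ∉ S := by
  intro hw
  exact (mem_op.1 h).2 ⟨fun _ => hv, fun _ => hw⟩

variable {G} in
theorem mem_UN {S : Finset V} {b u : V} : u ∈ UN G S b ↔ u ∈ op G S b ∧ sd G S u = 1 := by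
  unfold UN
  rw [Finset.mem_filter]

variable {G} in
/-- The case in which `w` is not one of the `vi`. -/
theorem core (hG : G.IsRegularOfDegree 3) (hD : DLfree G 1) {S : Finset V}
    (hL : Level G 1 S) {b u1 u2 u3 x1 x2 x3 v1 v2 v3 l l' z z' w y : V}
    (h : Pair G S b u1 u2 u3 x1 x2 x3 v1 v2 v3)
    (hl : l ∉ S) (sl : sm G S l = {l'}) (hz : z ∈ UN G S l) (hz' : z' ∈ UN G S l) (hne : z ≠ z')
    (hw : w ∈ UN G S l') (hy : y ∈ op G S w) (hyl : y ≠ l') (sy : sd G S y = 1)
    (w1 : w ≠ v1) (w2 : w ≠ v2) (w3 : w ≠ v3) : False := by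
  obtain ⟨-, -, -, -, -, -, -, -, -, -, -, -, vS1, vS2, vS3, -, -, -, -, -, -, -, -, -, -, -, -, -,
    -, -, xS1, xS2, xS3⟩ := Pair.facts hL.tf h
  have hl'm : l' ∈ sm G S l := by rw [sl]; simp
  have hl'S : l' ∉ S := fun h1 => hl ((mem_sm.1 hl'm).2.1 h1)
  have hlm' : l ∈ sm G S l' := sm_symm hl'm
  have sl' : sm G S l' = {l} := by
    refine Finset.eq_singleton_iff_unique_mem.2 ⟨hlm', fun t ht => ?_⟩
    exact Finset.card_le_one.1 (hL.tf l') t ht l hlm'
  have sdl : sd G S l = 1 := by unfold sd; rw [sl, Finset.card_singleton]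
  have sdl' : sd G S l' = 1 := by unfold sd; rw [sl', Finset.card_singleton]
  obtain ⟨hwo, sw⟩ := mem_UN.1 hw
  have hwS : w ∈ S := mem_op_col hwo hl'S
  have hl'w : l' ∈ op G S w := op_symm hwo
  have hyS : y ∉ S := mem_op_col' hy hwS
  have wb : w ≠ b := fun e => h.hb (e ▸ hwS)
  have wx1 : w ≠ x1 := fun e => xS1 (e ▸ hwS)
  have wx2 : w ≠ x2 := fun e => xS2 (e ▸ hwS)
  have wx3 : w ≠ x3 := fun e => xS3 (e ▸ hwS)
  have z0 : ∀ t, t = b ∨ t = x1 ∨ t = x2 ∨ t = x3 → sd G S t = 0 := by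
    rintro t (rfl | rfl | rfl | rfl)
    · exact h.sb
    · exact h.z1
    · exact h.z2
    · exact h.z3
  have wu1 : w ≠ u1 := by
    intro e
    rw [e, h.o1, Finset.mem_insert, Finset.mem_singleton] at hl'w
    have := z0 l' (hl'w.imp_right Or.inl)
    omega
  have wu2 : w ≠ u2 := by
    intro e
    rw [e, h.o2, Finset.mem_insert, Finset.mem_singleton] at hl'w
    have := z0 l' (hl'w.imp_right fun e => Or.inr (Or.inl e))
    omega
  have wu3 : w ≠ u3 := by
    intro e
    rw [e, h.o3, Finset.mem_insert, Finset.mem_singleton] at hl'w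
    have := z0 l' (hl'w.imp_right fun e => Or.inr (Or.inr e))
    omega
  -- black vertices of degree one do not change
  have hbl : ∀ t, t ∉ S → sd G S t = 1 →
      t ∈ sflip S b u1 u2 u3 ∧ sm G (sflip S b u1 u2 u3) t = sm G S t := by
    intro t htS ht
    have t0 : ∀ q, q = b ∨ q = x1 ∨ q = x2 ∨ q = x3 → t ≠ q := by
      intro q hq e
      have := z0 q hq
      rw [← e] at this
      omega
    have t1 : ∀ q, q ∈ S → t ≠ q := fun q hq e => htS (e ▸ hq)
    have hr := star_flip_rest h.toStar (y := t) (t0 b (Or.inl rfl)) (t1 _ h.h1) (t1 _ h.h2)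
      (t1 _ h.h3)
    exact ⟨hr.1.2 htS, (hr.2 (t0 x1 (Or.inr (Or.inl rfl))) (t0 x2 (Or.inr (Or.inr (Or.inl rfl)))) (t0 x3 (Or.inr (Or.inr (Or.inr rfl))))
      (t1 _ vS1) (t1 _ vS2) (t1 _ vS3)).1⟩
  obtain ⟨-, cl'⟩ := hbl l' hl'S sdl'
  obtain ⟨-, cy⟩ := hbl y hyS sy
  have hr := star_flip_rest h.toStar (y := w) wb wu1 wu2 wu3
  obtain ⟨cw1, cw2⟩ := hr.2 wx1 wx2 wx3 w1 w2 w3
  have hwc : w ∉ sflip S b u1 u2 u3 := fun h1 => hr.1.1 h1 hwS
  have swc : sd G (sflip S b u1 u2 u3) w = 1 := by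
    unfold sd at sw ⊢
    rw [cw1, sw]
  have m1 : l' ∈ UN G (sflip S b u1 u2 u3) w := by
    rw [mem_UN, cw2]
    refine ⟨hl'w, ?_⟩
    unfold sd at sdl' ⊢
    rw [cl', sdl']
  have m2 : y ∈ UN G (sflip S b u1 u2 u3) w := by
    rw [mem_UN, cw2]
    refine ⟨hy, ?_⟩
    unfold sd at sy ⊢
    rw [cy, sy]
  have hadj : G.Adj l' y := fact1g hG (pair_flip hG hL h).1 le_rfl hwc swc m1 m2 hyl.symm
  have hyl2 : y = l := by
    have h1 : y ∈ sm G S l' :=
      mem_sm.2 ⟨hadj, ⟨fun h1 => absurd h1 hyS, fun h1 => absurd h1 hl'S⟩⟩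
    rw [sl', Finset.mem_singleton] at h1
    exact h1
  obtain ⟨hzo, -⟩ := mem_UN.1 hz
  obtain ⟨hzo', -⟩ := mem_UN.1 hz'
  have hzS : z ∈ S := mem_op_col hzo hl
  have hzS' : z' ∈ S := mem_op_col hzo' hl
  have hwl : w ∈ op G S l := by
    rw [hyl2] at hy
    exact op_symm hy
  have hcard : (op G S l).card = 2 := by
    have := sd_add_op hG S l
    omega
  have hw2 : w = z ∨ w = z' := by
    by_contra hcon
    push Not at hcon
    have h3 : ({w, z, z'} : Finset V) ⊆ op G S l := by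
      intro t ht
      simp only [Finset.mem_insert, Finset.mem_singleton] at ht
      rcases ht with rfl | rfl | rfl
      · exact hwl
      · exact hzo
      · exact hzo'
    have h4 := Finset.card_le_card h3
    rw [Finset.card_insert_of_notMem (by simp [hcon.1, hcon.2]), Finset.card_pair hne, hcard] at h4
    omega
  have hzz : G.Adj z z' := fact1g hG hL le_rfl hl sdl hz hz' hne
  have hadjl : G.Adj l' l := (mem_sm.1 hlm').1
  have hadjw : G.Adj l' w := (mem_op.1 hwo).1
  rcases hw2 with e | e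
  · subst e
    have h1 := (hD S hL l w z' hl sdl hzS hzS' (mem_op.1 hzo).1 (mem_op.1 hzo').1 hzz).2 l'
      hadjl hadjw
    exact hl'S (h1 ▸ hzS')
  · subst e
    have h1 := (hD S hL l w z hl sdl hzS' hzS (mem_op.1 hzo').1 (mem_op.1 hzo).1 hzz.symm).2 l'
      hadjl hadjw
    exact hl'S (h1 ▸ hzS)

end LemT3Aux

open LemT3Aux in
variable {G} in
theorem lemT_w (hG : G.IsRegularOfDegree 3) (hD : DLfree G 1) {S : Finset V}
    (hL : Level G 1 S) {b u1 u2 u3 x1 x2 x3 v1 v2 v3 l l' z z' w y : V}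
    (h : Pair G S b u1 u2 u3 x1 x2 x3 v1 v2 v3)
    (hl : l ∉ S) (sl : sm G S l = {l'}) (hz : z ∈ UN G S l) (hz' : z' ∈ UN G S l) (hne : z ≠ z')
    (hw : w ∈ UN G S l') (hy : y ∈ op G S w) (hyl : y ≠ l') : Good G ∨ sd G S y = 0 := by
  by_cases sy0 : sd G S y = 0
  · exact Or.inr sy0
  · left
    have sy : sd G S y = 1 := by
      have := hL.tf y
      omega
    by_cases w1 : w = v1
    · subst w1
      exact lemT_core hG hD hL h hl sl hz hz' hne hw hy hyl sy
    by_cases w2 : w = v2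
    · subst w2
      exact lemT_core hG hD hL h.rot hl sl hz hz' hne hw hy hyl sy
    by_cases w3 : w = v3
    · subst w3
      exact lemT_core hG hD hL h.rot.rot hl sl hz hz' hne hw hy hyl sy
    exact (core hG hD hL h hl sl hz hz' hne hw hy hyl sy w1 w2 w3).elim

end Pool.Agent.Lib.AndoB
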