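import Pool.Agent.Lib.AndoB.PairW
import Pool.Agent.Lib.Ando.OpB3

/-!
# AndoB.StepDe: step (de)

v1 is adjacent to x2: op S v1 = {x2, c} (two members, `sd_add_op`, sd v1 = 1 by `Pair.facts`).
* sd c = 0: `eff_B3` (t = v1) and `StarB12Aux.good_of_eff`.
* sd c = 1: `pair_w` for the Pair with the indices 1, 2 exchanged (`Pair.swap`): x2 has the neighbour w = v1 in U, v1 /= u2, v1 /= v2; sm S v1 = {u1} and x2 is not adjacent to u1;
  c is in op S v1 with sd c = 1.
-/

set_option autoImplicit false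
set_option linter.unusedSectionVars false

namespace Pool.Agent.Lib.AndoB

open Pool.Agent.Lib.Ando

variable {V : Type*} [Fintype V] [DecidableEq V] (G : SimpleGraph V) [DecidableRel G.Adj]

variable {G} in
theorem stepDe (hG : G.IsRegularOfDegree 3) {S : Finset V} (hL : Level G 1 S)
    {b u1 u2 u3 x1 x2 x3 v1 v2 v3 : V} (h : Pair G S b u1 u2 u3 x1 x2 x3 v1 v2 v3)
    (ha : G.Adj v1 x2) : Good G := by
  obtain ⟨v12, v13, v23, f1, f2, f3, f4, f5, f6, f7, f8, f9, V1, V2, V3, s1, s2, s3, m1, m2, m3,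
    -, -, -, g1, g2, g3, g4, g5, g6, X1, X2, X3⟩ := h.facts hL.tf
  have himb : imb S = 2 := by
    have := hL.imb_eq
    simpa using this
  have hc2 : (op G S v1).card = 2 := by
    have := sd_add_op hG S v1
    omega
  have hx : x2 ∈ op G S v1 := mem_op.2 ⟨ha, fun e => X2 (e.2 V1)⟩
  obtain ⟨c, hxc, hop⟩ := StarBasicAux.pair_of_card hx hc2
  have hco : c ∈ op G S v1 := by rw [hop]; simp
  have hsu3 : sd G S u3 = 1 := by
    unfold sd
    rw [h.s3, Finset.card_singleton]
  rcases Nat.lt_or_ge (sd G S c) 1 with hc | hc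
  · have hc0 : sd G S c = 0 := by omega
    refine StarB12Aux.good_of_eff hG himb
      (eff_B3 G hL.tf h.hb h.sb h.ob h.n12 h.n13 h.n23 h.h1 h.h2 h.h3 h.o2 h.b2 h.z2 h.s1 hop
        hxc hc0 hsu3 f4.symm f7.symm ?_)
    rw [h.s3, Finset.mem_singleton]
    exact f6
  · have hc1 : sd G S c = 1 := by
      have := hL.tf c
      omega
    refine pair_w hG hL h.swap (StarB12Aux.mem_UN.2 ⟨op_symm hx, s1⟩) f4.symm v12 ?_ hco hc1
    intro y hy
    rw [m1, Finset.mem_singleton] at hy
    rw [hy]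
    exact g3

end Pool.Agent.Lib.AndoB
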