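import Pool.Agent.Lib.AndoB.StepX
import Pool.Agent.Lib.AndoB.StepDe
import Pool.Agent.Lib.AndoB.Flip
import Pool.Agent.Lib.AndoB.Fact1g

/-!
# AndoB.Main1: `Good G` or the black neighbours of v1 are two non-adjacent vertices of L

Apply `stepX` to c1 = sflip S b u1 u2 u3 with the Pair b u1 u2 u3 v1 v2 v3 x1 x2 x3 (`pair_flip`): `Good G` or op c1 v1 = {u1, p, q}, sd c1 p = sd c1 q = 1, p, q /= x1.  By `pair_flip_v`
op c1 v1 = insert u1 (op S v1), so op S v1 = {p, q} (u1 is not in op S v1: same colour), p, q black in S.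
If p or q is x2 or x3: `stepDe` (with `Pair.swap`, `Pair.rot`) gives `Good G`.  Otherwise p, q are black, not b (b is not adjacent to v1), not xi, so unchanged (`star_flip_rest`): sd S p = sd S q = 1.
p, q adjacent is impossible (ep): in c1 put F = {v1, u1, p}: iot c1 F = 1 - 2 = -1 (v1 black, u1, p white in c1), cost c1 F = 3 + 1 + 1 - 2 * 2 = 1 (v1 is adjacent to u1 and p; u1, p are not adjacent),
so by `Level.exists_two` some vertex has sd ≥ 2 in symmDiff c1 F.  But: v1: {q}; u1: {b} (op c1 u1 = {b, v1}, sm c1 u1 = {x1}); p: sm c1 p = {q} and op c1 p = {v1, y}: so {y}; y is white in S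
and sd S y = 0: otherwise sd S y = 1, y and v1 are both in `UN S p`, p in L, so by `fact1g` y, v1 are adjacent, y = u1 (sm S v1 = {u1}), but u1 is not adjacent to p (op S u1 = {b, x1});
so sd c1 y = 0 (`star_flip_rest`; y is not one of the vi, ui as sd S y = 0) and y: {p}; q: {} (sm c1 q = {p}; q is adjacent to v1, which is white now: {v1}); x1: {}; b: {u1}; all other vertices
unchanged.  All have sd ≤ 1: contradiction.
-/

set_option autoImplicit false
set_option linter.unusedSectionVars false

namespace Pool.Agent.Lib.AndoB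

open Pool.Agent.Lib.Ando

variable {V : Type*} [Fintype V] [DecidableEq V] (G : SimpleGraph V) [DecidableRel G.Adj]

namespace Main1Aux

variable {G} in
/-- A subset of a singleton has at most one element. -/
theorem card_le_of_sub {A : Finset V} {a : V} (h : ∀ z ∈ A, z = a) : A.card ≤ 1 := by
  rw [Finset.card_le_one]
  intro x hx y hy
  rw [h x hx, h y hy]

variable {G} in
/-- `p` and `q` are not adjacent. -/
theorem nadj (hG : G.IsRegularOfDegree 3) {S c : Finset V} (hL : Level G 1 S)
    {b u1 u2 u3 x1 x2 x3 v1 v2 v3 : V} (h : Pair G S b u1 u2 u3 x1 x2 x3 v1 v2 v3)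
    (hc : c = sflip S b u1 u2 u3) (hL1 : Level G 1 c)
    (h1 : Pair G c b u1 u2 u3 v1 v2 v3 x1 x2 x3)
    {p q : V} (ov : op G c v1 = {u1, p, q}) (os : op G S v1 = {p, q})
    (hup : u1 ≠ p) (huq : u1 ≠ q) (hpq : p ≠ q)
    (px1 : p ≠ x1) (px2 : p ≠ x2) (px3 : p ≠ x3) (qx1 : q ≠ x1) (qx2 : q ≠ x2) (qx3 : q ≠ x3) :
    sd G S p = sd G c p ∧ sd G S q = sd G c q ∧
    (sd G S p = 1 → sd G S q = 1 → ¬ G.Adj p q) := by
  obtain ⟨v12, v13, v23, a11, a12, a13, a21, a22, a23, a31, a32, a33, vS1, vS2, vS3,
    sv1, sv2, sv3, mv1, mv2, mv3, bv1, bv2, bv3, x1u2, x1u3, x2u1, x2u3, x3u1, x3u2,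
    x1S, x2S, x3S⟩ := Pair.facts hL.tf h
  -- colours of p, q
  have hp : p ∈ op G S v1 := by rw [os]; simp
  have hq : q ∈ op G S v1 := by rw [os]; simp
  have pS : p ∉ S := fun e => (mem_op.1 hp).2 ⟨fun _ => vS1, fun _ => e⟩
  have qS : q ∉ S := fun e => (mem_op.1 hq).2 ⟨fun _ => vS1, fun _ => e⟩
  have adp : G.Adj v1 p := (mem_op.1 hp).1
  have adq : G.Adj v1 q := (mem_op.1 hq).1
  have ne_of : ∀ {x y : V}, x ∉ S → y ∈ S → x ≠ y := fun hx hy e => hx (e ▸ hy)
  have pb : p ≠ b := fun e => bv1 (e ▸ adp.symm)
  have qb : q ≠ b := fun e => bv1 (e ▸ adq.symm)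
  have rp := star_flip_rest h.toStar pb (ne_of pS h.h1) (ne_of pS h.h2) (ne_of pS h.h3)
  have rq := star_flip_rest h.toStar qb (ne_of qS h.h1) (ne_of qS h.h2) (ne_of qS h.h3)
  have rp2 := rp.2 px1 px2 px3 (ne_of pS vS1) (ne_of pS vS2) (ne_of pS vS3)
  have rq2 := rq.2 qx1 qx2 qx3 (ne_of qS vS1) (ne_of qS vS2) (ne_of qS vS3)
  rw [← hc] at rp rq rp2 rq2
  have sp : sd G S p = sd G c p := by unfold sd; rw [rp2.1]
  have sq : sd G S q = sd G c q := by unfold sd; rw [rq2.1]
  refine ⟨sp, sq, fun sp1 sq1 adj => ?_⟩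
  have pc : p ∈ c := rp.1.2 pS
  have qc : q ∈ c := rq.1.2 qS
  have smp : sm G S p = {q} := by
    have hm : q ∈ sm G S p := mem_sm.2 ⟨adj, ⟨fun e => absurd e qS, fun e => absurd e pS⟩⟩
    have hcd : (sm G S p).card ≤ 1 := hL.tf p
    exact Finset.eq_singleton_iff_unique_mem.2 ⟨hm, fun y hy => Finset.card_le_one.1 hcd y hy q hm⟩
  have smq : sm G S q = {p} := by
    have hm : p ∈ sm G S q := sm_symm (by rw [smp]; simp)
    have hcd : (sm G S q).card ≤ 1 := hL.tf q
    exact Finset.eq_singleton_iff_unique_mem.2 ⟨hm, fun y hy => Finset.card_le_one.1 hcd y hy p hm⟩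
  have smpc : sm G c p = {q} := by rw [rp2.1, smp]
  have smqc : sm G c q = {p} := by rw [rq2.1, smq]
  -- the other white neighbour y of p
  have u1p : ¬ G.Adj u1 p := by
    intro e
    have : p ∈ op G S u1 := mem_op.2 ⟨e, fun h' => pS (h'.2 h.h1)⟩
    rw [h.o1] at this
    simp only [Finset.mem_insert, Finset.mem_singleton] at this
    rcases this with e | e
    · exact pb e
    · exact px1 e
  have hv1p : v1 ∈ op G S p := op_symm hp
  obtain ⟨y, hvy, opp⟩ : ∃ y, v1 ≠ y ∧ op G S p = {v1, y} := by
    refine StarBasicAux.pair_of_card hv1p ?_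
    have := sd_add_op hG S p
    omega
  have oppc : op G c p = {v1, y} := by rw [rp2.2, opp]
  have hyp : y ∈ op G S p := by rw [opp]; simp
  have yS : y ∈ S := by
    by_contra hy
    exact (mem_op.1 hyp).2 ⟨fun e => absurd e hy, fun e => absurd e pS⟩
  have yu1 : y ≠ u1 := by
    intro e
    exact u1p (e ▸ (mem_op.1 hyp).1.symm)
  have sy : sd G S y = 0 := by
    by_contra hy
    have hy1 : sd G S y = 1 := by
      have := hL.tf y
      omega
    have m1 : v1 ∈ UN G S p := by
      unfold UN; rw [Finset.mem_filter]; exact ⟨hv1p, sv1⟩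
    have m2 : y ∈ UN G S p := by
      unfold UN; rw [Finset.mem_filter]; exact ⟨hyp, hy1⟩
    have ha := fact1g hG hL le_rfl pS sp1 m1 m2 hvy
    have : y ∈ sm G S v1 := mem_sm.2 ⟨ha, ⟨fun _ => vS1, fun _ => yS⟩⟩
    rw [mv1, Finset.mem_singleton] at this
    exact yu1 this
  have hsu1 : sd G S u1 = 1 := by unfold sd; rw [h.s1]; rfl
  have hsu2 : sd G S u2 = 1 := by unfold sd; rw [h.s2]; rfl
  have hsu3 : sd G S u3 = 1 := by unfold sd; rw [h.s3]; rfl
  have ne_sd : ∀ {z : V}, sd G S z = 1 → y ≠ z := by
    intro z hz e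
    rw [← e, sy] at hz
    exact absurd hz (by norm_num)
  have ne_S : ∀ {z : V}, z ∉ S → y ≠ z := fun hz e => hz (e ▸ yS)
  have ry := star_flip_rest h.toStar (ne_S h.hb) (ne_sd hsu1) (ne_sd hsu2) (ne_sd hsu3)
  have ry2 := ry.2 (ne_S x1S) (ne_S x2S) (ne_S x3S) (ne_sd sv1) (ne_sd sv2) (ne_sd sv3)
  rw [← hc] at ry ry2
  have syc : sm G c y = ∅ := by
    rw [ry2.1]
    exact Finset.card_eq_zero.1 sy
  -- facts in c
  have v1c : v1 ∉ c := StarFlipAux.x1S h1.toStar
  have u1c : u1 ∈ c := h1.h1
  have smv1 : sm G c v1 = ∅ := Finset.card_eq_zero.1 h1.z1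
  have au : G.Adj v1 u1 := by
    have : u1 ∈ op G c v1 := by rw [ov]; simp
    exact (mem_op.1 this).1
  have hnv1u1 : v1 ≠ u1 := au.ne
  have hnv1p : v1 ≠ p := adp.ne
  -- F
  have m0 : v1 ∉ ({u1, p} : Finset V) := by simp [hnv1u1, hnv1p]
  have m1 : u1 ∉ ({p} : Finset V) := by simp [hup]
  have su1c : sd G c u1 = 1 := by unfold sd; rw [h1.s1]; rfl
  have spc : sd G c p = 1 := by rw [← sp]; exact sp1
  have u1p' : ¬ G.Adj p u1 := fun e => u1p e.symm
  have hcost : cost G c {v1, u1, p} = 1 := by
    unfold cost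
    simp only [Finset.sum_insert m0, Finset.sum_insert m1,
      Finset.sum_singleton, su1c, spc, h1.z1, au, au.symm, adp, adp.symm, u1p, u1p',
      v1c, u1c, pc, SimpleGraph.irrefl, if_true, if_false]
    norm_num
  have hiot : iot c {v1, u1, p} = -1 := by
    have e1 : ({v1, u1, p} : Finset V) \ c = {v1} := by
      ext z
      simp only [Finset.mem_sdiff, Finset.mem_insert, Finset.mem_singleton]
      constructor
      · rintro ⟨rfl | rfl | rfl, h2⟩
        · rfl
        · exact absurd u1c h2
        · exact absurd pc h2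
      · rintro rfl
        exact ⟨Or.inl rfl, v1c⟩
    have e2 : ({v1, u1, p} : Finset V) ∩ c = {u1, p} := by
      ext z
      simp only [Finset.mem_inter, Finset.mem_insert, Finset.mem_singleton]
      constructor
      · rintro ⟨rfl | rfl | rfl, h2⟩
        · exact absurd h2 v1c
        · exact Or.inl rfl
        · exact Or.inr rfl
      · rintro (rfl | rfl)
        · exact ⟨Or.inr (Or.inl rfl), u1c⟩
        · exact ⟨Or.inr (Or.inr rfl), pc⟩
    unfold iot
    rw [e1, e2, Finset.card_insert_of_notMem m1]
    simp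
  obtain ⟨z, hz⟩ := hL1.exists_two hG {v1, u1, p} (by rw [hcost, hiot]; norm_num)
    (by rw [hiot]; norm_num)
  -- all degrees are at most one
  have memF : ∀ w, w ∈ ({v1, u1, p} : Finset V) ↔ (w = v1 ∨ w = u1 ∨ w = p) := by
    intro w; simp only [Finset.mem_insert, Finset.mem_singleton]
  have hx1v1 : x1 ≠ v1 := fun e => x1S (e ▸ vS1)
  have hx1u1 : x1 ≠ u1 := fun e => x1S (e ▸ h.h1)
  have hqv1 : q ≠ v1 := adq.ne'
  have hle : sd G (symmDiff c {v1, u1, p}) z ≤ 1 := by
    unfold sd
    by_cases zF : z ∈ ({v1, u1, p} : Finset V)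
    · rw [sm_flip_mem G zF]
      rcases (memF z).1 zF with e | e | e
      · subst e
        refine card_le_of_sub (a := q) ?_
        intro w hw
        rw [ov, smv1] at hw
        simp only [Finset.mem_union, Finset.mem_sdiff, Finset.mem_inter, Finset.mem_insert,
          Finset.mem_singleton, Finset.notMem_empty, false_and, or_false] at hw
        obtain ⟨hw, hw'⟩ := hw
        rcases hw with e | e | e
        · exact absurd (Or.inr (Or.inl e)) hw'
        · exact absurd (Or.inr (Or.inr e)) hw'
        · exact e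
      · subst e
        refine card_le_of_sub (a := b) ?_
        intro w hw
        rw [h1.o1, h1.s1] at hw
        simp only [Finset.mem_union, Finset.mem_sdiff, Finset.mem_inter, Finset.mem_insert,
          Finset.mem_singleton] at hw
        rcases hw with ⟨hw, hw'⟩ | ⟨hw, hw'⟩
        · rcases hw with e | e
          · exact e
          · exact absurd (Or.inl e) hw'
        · rcases hw' with e | e | e
          · exact absurd (hw.symm.trans e) hx1v1
          · exact absurd (hw.symm.trans e) hx1u1
          · exact absurd (e.symm.trans hw) px1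
      · subst e
        refine card_le_of_sub (a := y) ?_
        intro w hw
        rw [oppc, smpc] at hw
        simp only [Finset.mem_union, Finset.mem_sdiff, Finset.mem_inter, Finset.mem_insert,
          Finset.mem_singleton] at hw
        rcases hw with ⟨hw, hw'⟩ | ⟨hw, hw'⟩
        · rcases hw with e | e
          · exact absurd (Or.inl e) hw'
          · exact e
        · rcases hw' with e | e | e
          · exact absurd (hw.symm.trans e) hqv1
          · exact absurd (e.symm.trans hw) huq
          · exact absurd (e.symm.trans hw) hpq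
    · rw [sm_flip_not_mem G zF]
      have c1 : ∀ w, w ∈ op G c z → w = v1 → z = q := by
        intro w hw e
        rw [e] at hw
        have := op_symm hw
        rw [ov] at this
        simp only [Finset.mem_insert, Finset.mem_singleton] at this
        rw [memF] at zF
        rcases this with e | e | e
        · exact absurd (Or.inr (Or.inl e)) zF
        · exact absurd (Or.inr (Or.inr e)) zF
        · exact e
      have c2 : ∀ w, w ∈ op G c z → w = u1 → z = b := by
        intro w hw e
        rw [e] at hw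
        have := op_symm hw
        rw [h1.o1] at this
        simp only [Finset.mem_insert, Finset.mem_singleton] at this
        rw [memF] at zF
        rcases this with e | e
        · exact e
        · exact absurd (Or.inl e) zF
      have c3 : ∀ w, w ∈ op G c z → w = p → z = y := by
        intro w hw e
        rw [e] at hw
        have := op_symm hw
        rw [oppc] at this
        simp only [Finset.mem_insert, Finset.mem_singleton] at this
        rw [memF] at zF
        rcases this with e | e
        · exact absurd (Or.inl e) zF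
        · exact e
      by_cases eq' : z = q
      · subst eq'
        refine card_le_of_sub (a := v1) ?_
        intro w hw
        rw [smqc] at hw
        simp only [Finset.mem_union, Finset.mem_sdiff, Finset.mem_inter,
          Finset.mem_singleton, memF] at hw
        rcases hw with ⟨hw, hw'⟩ | ⟨hw, hw'⟩
        · exact absurd (Or.inr (Or.inr hw)) hw'
        · rcases hw' with e | e | e
          · exact e
          · exact absurd (c2 w hw e) qb
          · exact absurd (c3 w hw e) (ne_S qS).symm
      · by_cases eb : z = b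
        · subst eb
          refine card_le_of_sub (a := u1) ?_
          intro w hw
          have smb : sm G c z = ∅ := Finset.card_eq_zero.1 h1.sb
          rw [smb] at hw
          simp only [Finset.mem_union, Finset.mem_sdiff, Finset.mem_inter,
            Finset.notMem_empty, false_and, false_or, memF] at hw
          obtain ⟨hw, hw'⟩ := hw
          rcases hw' with e | e | e
          · exact absurd (c1 w hw e) eq'
          · exact e
          · exact absurd (c3 w hw e) (ne_S h.hb).symm
        · by_cases ey : z = y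
          · subst ey
            refine card_le_of_sub (a := p) ?_
            intro w hw
            rw [syc] at hw
            simp only [Finset.mem_union, Finset.mem_sdiff, Finset.mem_inter,
              Finset.notMem_empty, false_and, false_or, memF] at hw
            obtain ⟨hw, hw'⟩ := hw
            rcases hw' with e | e | e
            · exact absurd (c1 w hw e) eq'
            · exact absurd (c2 w hw e) eb
            · exact e
          · have hsub : (sm G c z \ {v1, u1, p}) ∪ (op G c z ∩ {v1, u1, p}) ⊆ sm G c z := by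
              intro w hw
              simp only [Finset.mem_union, Finset.mem_sdiff, Finset.mem_inter, memF] at hw
              rcases hw with ⟨hw, -⟩ | ⟨hw, hw'⟩
              · exact hw
              · rcases hw' with e | e | e
                · exact absurd (c1 w hw e) eq'
                · exact absurd (c2 w hw e) eb
                · exact absurd (c3 w hw e) ey
            exact le_trans (Finset.card_le_card hsub) (hL1.tf z)
  omega

end Main1Aux

open Main1Aux in
variable {G} in
theorem main1 (hG : G.IsRegularOfDegree 3) (hD : DLfree G 1) {S : Finset V} (hL : Level G 1 S)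
    {b u1 u2 u3 x1 x2 x3 v1 v2 v3 : V} (h : Pair G S b u1 u2 u3 x1 x2 x3 v1 v2 v3) :
    Good G ∨ ∃ p q, op G S v1 = {p, q} ∧ p ≠ q ∧ sd G S p = 1 ∧ sd G S q = 1 ∧
      ¬ G.Adj p q := by
  obtain ⟨hL1, h1⟩ := pair_flip hG hL h
  obtain ⟨-, hov⟩ := pair_flip_v hL.tf h
  rcases stepX hG hD hL1 h1 with hg | ⟨p, q, ov, hup, huq, hpq, sp, sq, px1, qx1⟩
  · exact Or.inl hg
  have hu1 : u1 ∉ op G S v1 := by
    intro e
    have hf := Pair.facts hL.tf h
    have vS1 : v1 ∈ S := hf.2.2.2.2.2.2.2.2.2.2.2.2.1
    exact (mem_op.1 e).2 ⟨fun _ => vS1, fun _ => h.h1⟩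
  have hos : op G S v1 = {p, q} := by
    have e1 : (insert u1 (op G S v1)).erase u1 = op G S v1 := Finset.erase_insert hu1
    have e2 : (insert u1 ({p, q} : Finset V)).erase u1 = {p, q} :=
      Finset.erase_insert (by simp [hup, huq])
    rw [← e1, ← hov, ov, e2]
  have adj : ∀ z, z = p ∨ z = q → G.Adj v1 z := by
    intro z hz
    have : z ∈ op G S v1 := by
      rw [hos]
      simpa using hz
    exact (mem_op.1 this).1
  have hx2 : ∀ z, (z = p ∨ z = q) → z = x2 → Good G := by
    intro z hz e
    exact stepDe hG hL h (e ▸ adj z hz)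
  have hx3 : ∀ z, (z = p ∨ z = q) → z = x3 → Good G := by
    intro z hz e
    exact stepDe hG hL h.swap.rot (e ▸ adj z hz)
  by_cases p2 : p = x2
  · exact Or.inl (hx2 p (Or.inl rfl) p2)
  by_cases p3 : p = x3
  · exact Or.inl (hx3 p (Or.inl rfl) p3)
  by_cases q2 : q = x2
  · exact Or.inl (hx2 q (Or.inr rfl) q2)
  by_cases q3 : q = x3
  · exact Or.inl (hx3 q (Or.inr rfl) q3)
  obtain ⟨e1, e2, e3⟩ := nadj hG hL h rfl hL1 h1 ov hos hup huq hpq px1 p2 p3 qx1 q2 q3
  have f1 : sd G S p = 1 := e1.trans sp
  have f2 : sd G S q = 1 := e2.trans sq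
  exact Or.inr ⟨p, q, hos, hpq, f1, f2, e3 f1 f2⟩

end Pool.Agent.Lib.AndoB
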