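import Pool.Agent.Lib.AndoB.Defs
import Pool.Agent.Lib.Ando.OpLeaf
import Pool.Agent.Lib.Ando.Ter

/-!
# AndoB.OpBe: the operation (be')

Compare `eff_leaf` (`Ando/OpLeaf.lean`) and `ter_leaf` (`Ando/Ter.lean`).
T = symmDiff S {u, x}: white v - x - o: sm T x = {v, o}, sd T v = 1 (u has left, x has come; sm S v = {u} as sd S v ≤ 1), sd T o = 1; u is black with sm T u = {b}; sd T b = 1.
All other vertices keep sd ≤ 1.  iot = 1 - 1 = 0.
Territory: {u, x}, neighbours v, x, b and u, v, o; sm of these: nothing new.
-/

set_option autoImplicit false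
set_option linter.unusedSectionVars false

namespace Pool.Agent.Lib.AndoB

open Pool.Agent.Lib.Ando

variable {V : Type*} [Fintype V] [DecidableEq V] (G : SimpleGraph V) [DecidableRel G.Adj]

open OpZZAux in
variable {G} in
theorem eff_be {S : Finset V} (htf : ∀ v, sd G S v ≤ 1) {u x b v o : V} (hu : u ∈ S)
    (su : sm G S u = {v}) (hopu : op G S u = {x, b}) (hxb : x ≠ b) (hx : sd G S x = 0)
    (hb : sd G S b = 0) (hopx : op G S x = {u, v, o}) (huv : u ≠ v) (huo : u ≠ o)
    (hvo : v ≠ o) (ho : sd G S o = 0) : Eff G S {u, x} 0 1 0 0 0 := by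
  have hxu : x ∈ op G S u := by rw [hopu]; simp
  have hbu : b ∈ op G S u := by rw [hopu]; simp
  have hvu : v ∈ sm G S u := by rw [su]; simp
  have hxS : x ∉ S := fun h => (mem_op.1 hxu).2 ⟨fun _ => hu, fun _ => h⟩
  have hbS : b ∉ S := fun h => (mem_op.1 hbu).2 ⟨fun _ => hu, fun _ => h⟩
  have hvS : v ∈ S := (mem_sm.1 hvu).2.2 hu
  have hux : u ≠ x := by rintro rfl; exact hxS hu
  have hub : u ≠ b := by rintro rfl; exact hbS hu
  have smv : sm G S v = {u} := TerAux.sm_back su (htf v)
  have hmem : ∀ w, w ∈ ({u, x} : Finset V) ↔ w = u ∨ w = x := by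
    intro w
    rw [Finset.mem_insert, Finset.mem_singleton]
  have hout : ∀ w, w ∉ ({u, x} : Finset V) → sd G (symmDiff S {u, x}) w ≤ 1 := by
    intro w hw
    have hw2 : w ≠ u ∧ w ≠ x := by
      rw [hmem] at hw
      push Not at hw
      exact hw
    by_cases hwv : w = v
    · rw [hwv] at hw ⊢
      have h1 := sd_not_mem (G := G) (S := S) hw
      have e1 : sm G S v \ {u, x} = ∅ := by
        rw [smv, Finset.sdiff_eq_empty_iff_subset]
        intro y hy
        rw [Finset.mem_singleton] at hy
        rw [hmem]
        exact Or.inl hy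
      have e2 : op G S v ∩ {u, x} ⊆ {x} := by
        intro y hy
        rw [Finset.mem_inter, hmem] at hy
        rw [Finset.mem_singleton]
        rcases hy.2 with h3 | h3
        · exfalso
          rw [h3] at hy
          exact (mem_op.1 hy.1).2 ⟨fun _ => hvS, fun _ => hu⟩
        · exact h3
      have h2 := Finset.card_le_card e2
      rw [Finset.card_singleton] at h2
      rw [e1, Finset.card_empty, zero_add] at h1
      exact h1.trans h2
    by_cases huw : u ∈ op G S w
    · have h1 : w ∈ op G S u := op_symm huw
      rw [hopu, Finset.mem_insert, Finset.mem_singleton] at h1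
      have h2 : w = b := h1.resolve_left hw2.2
      rw [h2] at hw ⊢
      refine sd_zero G hw hb (x := u) (fun y hy hyF => ?_)
      rcases (hmem y).1 hyF with h3 | h3
      · exact h3
      · exfalso
        rw [h3] at hy
        exact (mem_op.1 hy).2 ⟨fun h => absurd h hxS, fun h => absurd h hbS⟩
    · by_cases hxw : x ∈ op G S w
      · have h1 : w ∈ op G S x := op_symm hxw
        rw [hopx, Finset.mem_insert, Finset.mem_insert, Finset.mem_singleton] at h1
        have h0 : w = o := by
          rcases h1 with h1 | h1 | h1
          · exact absurd h1 hw2.1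
          · exact absurd h1 hwv
          · exact h1
        rw [h0] at hw huw ⊢
        refine sd_zero G hw ho (x := x) (fun y hy hyF => ?_)
        rcases (hmem y).1 hyF with h3 | h3
        · rw [h3] at hy
          exact absurd hy huw
        · exact h3
      · refine sd_far G htf hw ?_
        rw [Finset.eq_empty_iff_forall_notMem]
        intro y hy
        rw [Finset.mem_inter, hmem] at hy
        rcases hy.2 with h3 | h3
        · exact huw (h3 ▸ hy.1)
        · exact hxw (h3 ▸ hy.1)
  have hsu : sd G (symmDiff S {u, x}) u ≤ 1 := by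
    have h1 := sd_mem G (S := S) (F := {u, x}) (v := u) (by simp)
    have e1 : op G S u \ {u, x} ⊆ {b} := by
      intro w hw
      rw [Finset.mem_sdiff, hopu, hmem, Finset.mem_insert, Finset.mem_singleton] at hw
      rw [Finset.mem_singleton]
      rcases hw.1 with h | h
      · exact absurd (Or.inr h) hw.2
      · exact h
    have e2 : sm G S u ∩ {u, x} = ∅ := by
      rw [Finset.eq_empty_iff_forall_notMem]
      intro w hw
      rw [Finset.mem_inter, hmem] at hw
      rcases hw.2 with h3 | h3
      · rw [h3] at hw
        exact sm_irrefl G S u hw.1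
      · rw [h3] at hw
        exact hxS ((mem_sm.1 hw.1).2.2 hu)
    have h2 := Finset.card_le_card e1
    rw [Finset.card_singleton] at h2
    rw [e2, Finset.card_empty, add_zero] at h1
    exact h1.trans h2
  have hsx : sd G (symmDiff S {u, x}) x = 2 := by
    unfold sd
    rw [sm_flip_mem G (by simp)]
    have e1 : op G S x \ {u, x} = {v, o} := by
      ext w
      rw [Finset.mem_sdiff, hopx, hmem, Finset.mem_insert, Finset.mem_insert,
        Finset.mem_singleton]
      constructor
      · rintro ⟨h1 | h1, h2⟩
        · exact absurd (Or.inl h1) h2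
        · exact h1
      · intro h1
        refine ⟨Or.inr h1, ?_⟩
        rintro (h2 | h2)
        · rcases h1 with h1 | h1
          · exact huv (h2.symm.trans h1)
          · exact huo (h2.symm.trans h1)
        · have h3 : w ∈ op G S x := by
            rw [hopx, Finset.mem_insert, Finset.mem_insert, Finset.mem_singleton]
            exact Or.inr h1
          rw [h2] at h3
          exact op_irrefl G S x h3
    have e2 : sm G S x = ∅ := Finset.card_eq_zero.1 hx
    rw [e1, e2, Finset.empty_inter, Finset.union_empty, Finset.card_pair hvo]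
  have hxT : x ∈ symmDiff S {u, x} := by
    rw [Finset.mem_symmDiff]
    exact Or.inr ⟨by simp, hxS⟩
  have hne : ∀ w, w ≠ x → sd G (symmDiff S {u, x}) w ≤ 1 := by
    intro w hw
    by_cases hwu : w = u
    · rw [hwu]; exact hsu
    · refine hout w ?_
      rw [hmem]
      push Not
      exact ⟨hwu, hw⟩
  refine mk_eff G (fun w => ?_) ?_
    (cls_one G (closed_T G _) hxT hsx fun w _ h2 => ?_) (cls_none G fun w hw h2 => ?_)
  · by_cases hw : w = x
    · rw [hw, hsx]
    · exact (hne w hw).trans (by norm_num)
  · have e1 : ({u, x} : Finset V) \ S = {x} := by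
      ext w
      rw [Finset.mem_sdiff, hmem, Finset.mem_singleton]
      constructor
      · rintro ⟨h1 | h1, h2⟩
        · rw [h1] at h2; exact absurd hu h2
        · exact h1
      · intro h1
        rw [h1]
        exact ⟨Or.inr rfl, hxS⟩
    have e2 : ({u, x} : Finset V) ∩ S = {u} := by
      ext w
      rw [Finset.mem_inter, hmem, Finset.mem_singleton]
      constructor
      · rintro ⟨h1 | h1, h2⟩
        · exact h1
        · rw [h1] at h2; exact absurd h2 hxS
      · intro h1
        rw [h1]
        exact ⟨Or.inl rfl, hu⟩
    rw [e1, e2, Finset.card_singleton, Finset.card_singleton]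
    simp
  · by_contra hwx
    have := hne w hwx
    omega
  · by_cases hwx : w = x
    · rw [hwx] at hw
      exact (Finset.mem_compl.1 hw) hxT
    · have := hne w hwx
      omega

open TerAux in
theorem ter_be {S : Finset V} (htf : ∀ v, sd G S v ≤ 1) {u x b v o : V}
    (su : sm G S u = {v}) (hopu : op G S u = {x, b}) (hx : sd G S x = 0)
    (hb : sd G S b = 0) (hopx : op G S x = {u, v, o}) (ho : sd G S o = 0) :
    ter G S {u, x} = {u, v, x, b, o} := by
  have e1 := sm_back su (htf v)
  have e2 := sm_zero hx
  have e3 := sm_zero hb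
  have e4 := sm_zero ho
  ext t
  simp only [mem_ter, Finset.mem_insert, Finset.mem_singleton, exists_eq_or_imp, exists_eq_left,
    Finset.mem_union, or_and_right, exists_or, su, hopu, hopx, e1, e2, e3, e4,
    Finset.notMem_empty, false_or, or_false, exists_false]
  tauto

end Pool.Agent.Lib.AndoB
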