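import Pool.Agent.Lib.AndoB.Defs
import Pool.Agent.Lib.Ando.OpZZ
import Pool.Agent.Lib.Ando.Ter

/-!
# AndoB.OpTok: the token of a triangle `l z z'`

Compare `eff_zz` (`Ando/OpZZ.lean`: `mk_eff`, `cls_none`, `cls_one`) and `Ando/Ter.lean`.
T = symmDiff S {z, l, w}.  First facts: l' is black with sd = 1 and sm S l' = {l}; z, z', w, w' are white with sm S z' = {z}, sm S w' = {w}; w /= z, z' (l is in op S z and in op S z', and
op S w = {l', bw} with l /= l', sd l = 1 /= sd bw), so w' /= z, z' too; l' is not adjacent to z (op S z = {l, x}, sd x = 0); w is not adjacent to l; x /= bw.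
T: l is white, sm T l = {z'}; z' : sm T z' = {l} (z has left; the other black neighbour of z' is not in {z, l, w}, as it is black and /= l);
z is black, sm T z = {x}; sm T x = {z}; w is black, sm T w = {l', bw}, sd T w = 2; sm T l' = {w} (l has left; a third neighbour of l' is white: if it is w', it is not changed);
sm T bw = {w}; w' : sm T w' = {}.  All other vertices keep sd ≤ 1.  The only vertex of degree two is w (black), with neighbours of degree one.
iot = 1 - 2 = -1.
Territory: z, l, w; neighbours z', x, l', w', bw; the monochromatic neighbours of these are z, z', l, l', w, w' (x, bw have none).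
-/

set_option autoImplicit false
set_option linter.unusedSectionVars false

namespace Pool.Agent.Lib.AndoB

open Pool.Agent.Lib.Ando

variable {V : Type*} [Fintype V] [DecidableEq V] (G : SimpleGraph V) [DecidableRel G.Adj]

namespace OpTokAux

variable {G} in
theorem key_in {S F : Finset V} {v a : V} (hv : v ∈ F) (h1 : ∀ y ∈ op G S v, y ∉ F → y = a)
    (h2 : ∀ y ∈ sm G S v, y ∈ F → y = a) : sd G (symmDiff S F) v ≤ 1 := by
  unfold sd
  rw [sm_flip_mem G hv]
  refine Finset.card_le_one.2 fun y hy y' hy' => ?_
  have h3 : ∀ y ∈ op G S v \ F ∪ sm G S v ∩ F, y = a := by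
    intro y hy
    rw [Finset.mem_union, Finset.mem_sdiff, Finset.mem_inter] at hy
    rcases hy with hy | hy
    · exact h1 y hy.1 hy.2
    · exact h2 y hy.1 hy.2
  rw [h3 y hy, h3 y' hy']

variable {G} in
theorem key_out {S F : Finset V} {v a : V} (hv : v ∉ F) (h1 : ∀ y ∈ sm G S v, y ∉ F → y = a)
    (h2 : ∀ y ∈ op G S v, y ∈ F → y = a) : sd G (symmDiff S F) v ≤ 1 := by
  unfold sd
  rw [sm_flip_not_mem G hv]
  refine Finset.card_le_one.2 fun y hy y' hy' => ?_
  have h3 : ∀ y ∈ sm G S v \ F ∪ op G S v ∩ F, y = a := by
    intro y hy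
    rw [Finset.mem_union, Finset.mem_sdiff, Finset.mem_inter] at hy
    rcases hy with hy | hy
    · exact h1 y hy.1 hy.2
    · exact h2 y hy.1 hy.2
  rw [h3 y hy, h3 y' hy']

variable {G} in
theorem op_S {S : Finset V} {v w : V} (h : w ∈ op G S v) (hv : v ∉ S) : w ∈ S := by
  by_contra hw
  exact (mem_op.1 h).2 ⟨fun h' => absurd h' hw, fun h' => absurd h' hv⟩

variable {G} in
theorem op_nS {S : Finset V} {v w : V} (h : w ∈ op G S v) (hv : v ∈ S) : w ∉ S :=
  fun hw => (mem_op.1 h).2 ⟨fun _ => hv, fun _ => hw⟩

end OpTokAux

open OpTokAux OpZZAux TerAux in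
variable {G} in
theorem eff_tok {S : Finset V} (htf : ∀ v, sd G S v ≤ 1) {l l' z z' x w w' bw : V}
    (hl : l ∉ S) (sl : sm G S l = {l'}) (ol : op G S l = {z, z'}) (hzz : z ≠ z')
    (sz : sm G S z = {z'}) (oz : op G S z = {l, x}) (hx : sd G S x = 0) (sw : sm G S w = {w'})
    (ow : op G S w = {l', bw}) (hbw : sd G S bw = 0) (hxb : x ≠ bw) :
    Eff G S {z, l, w} (-1) 0 0 1 0 := by
  have mz : z ∈ op G S l := by rw [ol]; simp
  have mz' : z' ∈ op G S l := by rw [ol]; simp
  have ml' : l' ∈ sm G S l := by rw [sl]; simp
  have mx : x ∈ op G S z := by rw [oz]; simp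
  have mlw : l' ∈ op G S w := by rw [ow]; simp
  have mbw : bw ∈ op G S w := by rw [ow]; simp
  have mw' : w' ∈ sm G S w := by rw [sw]; simp
  have zS : z ∈ S := op_S mz hl
  have z'S : z' ∈ S := op_S mz' hl
  have l'S : l' ∉ S := fun h => hl ((mem_sm.1 ml').2.1 h)
  have xS : x ∉ S := op_nS mx zS
  have wS : w ∈ S := op_S (op_symm mlw) l'S
  have bwS : bw ∉ S := op_nS mbw wS
  have sl' : sm G S l' = {l} := sm_back sl (htf _)
  have sz' : sm G S z' = {z} := sm_back sz (htf _)
  have sx : sm G S x = ∅ := sm_zero hx
  have sbw : sm G S bw = ∅ := sm_zero hbw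
  have ll' : l ≠ l' := by
    rintro e
    rw [← e] at ml'
    exact sm_irrefl G S l ml'
  have lx : l ≠ x := by
    intro e
    rw [← e, sl] at sx
    exact Finset.singleton_ne_empty _ sx
  have lb : l ≠ bw := by
    intro e
    rw [← e, sl] at sbw
    exact Finset.singleton_ne_empty _ sbw
  have l'x : l' ≠ x := by
    intro e
    rw [← e, sl'] at sx
    exact Finset.singleton_ne_empty _ sx
  have l'b : l' ≠ bw := by
    intro e
    rw [← e, sl'] at sbw
    exact Finset.singleton_ne_empty _ sbw
  have lw : l ∉ op G S w := by
    rw [ow, Finset.mem_insert, Finset.mem_singleton]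
    rintro (e | e)
    · exact ll' e
    · exact lb e
  have wz : w ≠ z := by
    intro e
    rw [e] at lw
    exact lw (op_symm mz)
  have wz' : w ≠ z' := by
    intro e
    rw [e] at lw
    exact lw (op_symm mz')
  have w'z : w' ≠ z := by
    intro e
    have h1 := sm_symm mw'
    rw [e, sz, Finset.mem_singleton] at h1
    exact wz' h1
  have hne : ∀ {a c : V}, a ∈ S → c ∉ S → a ≠ c := fun ha hc e => hc (e ▸ ha)
  have hmem : ∀ y, y ∈ ({z, l, w} : Finset V) ↔ y = z ∨ y = l ∨ y = w := by
    intro y
    simp only [Finset.mem_insert, Finset.mem_singleton]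
  have hmem1 : ∀ y, y ∈ ({z, l, w} : Finset V) → y ∉ S → y = l := by
    intro y hy hyS
    rcases (hmem y).1 hy with h | h | h
    · exact absurd (h ▸ zS) hyS
    · exact h
    · exact absurd (h ▸ wS) hyS
  have hout : ∀ v, v ≠ w → sd G (symmDiff S {z, l, w}) v ≤ 1 := by
    intro v hvw
    by_cases hvz : v = z
    · subst hvz
      refine key_in (a := x) (by simp) ?_ ?_
      · intro y hy hyF
        rw [oz, Finset.mem_insert, Finset.mem_singleton] at hy
        rcases hy with hy | hy
        · exact absurd ((hmem y).2 (Or.inr (Or.inl hy))) hyF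
        · exact hy
      · intro y hy hyF
        rw [sz, Finset.mem_singleton] at hy
        rw [hy, hmem] at hyF
        rcases hyF with h | h | h
        · exact absurd h hzz.symm
        · exact absurd (h ▸ z'S) hl
        · exact absurd h wz'.symm
    by_cases hvl : v = l
    · subst hvl
      refine key_in (a := z') (by simp) ?_ ?_
      · intro y hy hyF
        rw [ol, Finset.mem_insert, Finset.mem_singleton] at hy
        rcases hy with hy | hy
        · exact absurd ((hmem y).2 (Or.inl hy)) hyF
        · exact hy
      · intro y hy hyF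
        rw [sl, Finset.mem_singleton] at hy
        have := hmem1 y hyF (hy ▸ l'S)
        exact absurd (this.symm.trans hy) ll'
    have hvF : v ∉ ({z, l, w} : Finset V) := by
      rw [hmem]
      push Not
      exact ⟨hvz, hvl, hvw⟩
    by_cases h1 : z ∈ op G S v
    · have h2 := op_symm h1
      rw [oz, Finset.mem_insert, Finset.mem_singleton] at h2
      have h3 : v = x := h2.resolve_left hvl
      subst h3
      refine key_out (a := z) hvF ?_ ?_
      · intro y hy _
        rw [sx] at hy
        exact absurd hy (Finset.notMem_empty _)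
      · intro y hy hyF
        rcases (hmem y).1 hyF with h | h | h
        · exact h
        · exact absurd (h ▸ op_S hy xS) hl
        · rw [h] at hy
          have := op_symm hy
          rw [ow, Finset.mem_insert, Finset.mem_singleton] at this
          rcases this with h4 | h4
          · exact absurd h4.symm l'x
          · exact absurd h4 hxb
    by_cases h2 : l ∈ op G S v
    · have h3 := op_symm h2
      rw [ol, Finset.mem_insert, Finset.mem_singleton] at h3
      have h4 : v = z' := h3.resolve_left hvz
      subst h4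
      refine key_out (a := l) hvF ?_ ?_
      · intro y hy hyF
        rw [sz', Finset.mem_singleton] at hy
        exact absurd ((hmem y).2 (Or.inl hy)) hyF
      · intro y hy hyF
        exact hmem1 y hyF (op_nS hy z'S)
    by_cases h3 : w ∈ op G S v
    · have h4 := op_symm h3
      rw [ow, Finset.mem_insert, Finset.mem_singleton] at h4
      refine key_out (a := w) hvF ?_ ?_
      · intro y hy hyF
        rcases h4 with h4 | h4
        · rw [h4, sl', Finset.mem_singleton] at hy
          exact absurd ((hmem y).2 (Or.inr (Or.inl hy))) hyF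
        · rw [h4, sbw] at hy
          exact absurd hy (Finset.notMem_empty _)
      · intro y hy hyF
        rcases (hmem y).1 hyF with h | h | h
        · exact absurd (h ▸ hy) h1
        · exact absurd (h ▸ hy) h2
        · exact h
    · refine sd_far G htf hvF ?_
      rw [Finset.eq_empty_iff_forall_notMem]
      intro y hy
      rw [Finset.mem_inter, hmem] at hy
      rcases hy.2 with h | h | h
      · exact h1 (h ▸ hy.1)
      · exact h2 (h ▸ hy.1)
      · exact h3 (h ▸ hy.1)
  have hw2 : sd G (symmDiff S {z, l, w}) w = 2 := by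
    unfold sd
    rw [sm_flip_mem G (by simp)]
    have e1 : op G S w \ {z, l, w} = {l', bw} := by
      ext y
      rw [Finset.mem_sdiff, ow, hmem, Finset.mem_insert, Finset.mem_singleton]
      constructor
      · exact fun h => h.1
      · intro h
        refine ⟨h, ?_⟩
        rintro (h' | h' | h')
        · rcases h with h | h
          · exact l'S (h ▸ h' ▸ zS)
          · exact bwS (h ▸ h' ▸ zS)
        · rcases h with h | h
          · exact ll' (h'.symm.trans h)
          · exact lb (h'.symm.trans h)
        · rcases h with h | h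
          · exact l'S (h ▸ h' ▸ wS)
          · exact bwS (h ▸ h' ▸ wS)
    have e2 : sm G S w ∩ {z, l, w} = ∅ := by
      rw [Finset.eq_empty_iff_forall_notMem]
      intro y hy
      rw [Finset.mem_inter, hmem, sw, Finset.mem_singleton] at hy
      obtain ⟨h, h' | h' | h'⟩ := hy
      · exact w'z (h.symm.trans h')
      · have : w' ∈ S := (mem_sm.1 mw').2.2 wS
        exact hl (h' ▸ h ▸ this)
      · rw [← h, h'] at mw'
        exact sm_irrefl G S w mw'
    rw [e1, e2, Finset.union_empty, Finset.card_pair l'b]
  have hwT : w ∈ (symmDiff S {z, l, w})ᶜ := by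
    rw [Finset.mem_compl, Finset.mem_symmDiff]
    simp [wS]
  refine mk_eff G (fun v => ?_) ?_ (cls_none G fun v hv h2 => ?_)
    (cls_one G (closed_Tc G _) hwT hw2 fun v _ h2 => ?_)
  · by_cases hv : v = w
    · rw [hv, hw2]
    · exact (hout v hv).trans (by norm_num)
  · have e1 : ({z, l, w} : Finset V) \ S = {l} := by
      ext y
      rw [Finset.mem_sdiff, Finset.mem_singleton]
      constructor
      · rintro ⟨h1, h2⟩
        exact hmem1 y h1 h2
      · intro h1
        rw [h1]
        exact ⟨by simp, hl⟩
    have e2 : ({z, l, w} : Finset V) ∩ S = {z, w} := by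
      ext y
      rw [Finset.mem_inter, hmem, Finset.mem_insert, Finset.mem_singleton]
      constructor
      · rintro ⟨h1 | h1 | h1, h2⟩
        · exact Or.inl h1
        · rw [h1] at h2
          exact absurd h2 hl
        · exact Or.inr h1
      · rintro (h1 | h1)
        · rw [h1]
          exact ⟨Or.inl rfl, zS⟩
        · rw [h1]
          exact ⟨Or.inr (Or.inr rfl), wS⟩
    rw [e1, e2, Finset.card_singleton, Finset.card_pair wz.symm]
    norm_num
  · by_cases hvw : v = w
    · rw [hvw] at hv
      exact (Finset.mem_compl.1 hwT) hv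
    · have := hout v hvw
      omega
  · by_contra hvw
    have := hout v hvw
    omega

open TerAux in
theorem ter_tok {S : Finset V} (htf : ∀ v, sd G S v ≤ 1) {l l' z z' x w w' bw : V}
    (sl : sm G S l = {l'}) (ol : op G S l = {z, z'})
    (sz : sm G S z = {z'}) (oz : op G S z = {l, x}) (hx : sd G S x = 0) (sw : sm G S w = {w'})
    (ow : op G S w = {l', bw}) (hbw : sd G S bw = 0) :
    ter G S {z, l, w} = {z, z', x, l, l', w, w', bw} := by
  have e1 := sm_back sl (htf _)
  have e2 := sm_back sz (htf _)
  have e3 := sm_back sw (htf _)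
  have e4 := sm_zero hx
  have e5 := sm_zero hbw
  ext t
  simp only [TerAux.mem_ter, Finset.mem_insert, Finset.mem_singleton, exists_eq_or_imp,
    exists_eq_left, Finset.mem_union, or_and_right, exists_or, sl, ol, sz, oz, sw, ow, e1, e2, e3,
    e4, e5, Finset.notMem_empty, false_or, or_false, exists_false]
  tauto

end Pool.Agent.Lib.AndoB
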