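import Pool.Agent.Lib.AndoB.TokEx
import Pool.Agent.Lib.AndoB.OpBe
import Pool.Agent.Lib.Ando.OpLeaf
import Pool.Agent.Lib.Ando.Assem

/-!
# AndoB.StepAl: steps (al), (be')

By `tokEx` `Good G` or a token F.  The operation {u1, x1}: `eff_leaf` / `ter_leaf` if sd o' = 0, `eff_be` / `ter_be` if o' = v1 (then op S x1 = {u1, v1, o}); effect 0 1 0 0 0, territory contained in
{u1, v1, b, x1, o, o'}.  `assemble` with k = 1 and the two operations (index type Bool): sum of c = 0 + (-1) = -1, a: 1 + 0 = b: 0 + 1, a', b': 0.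
u1, o, o' are pairwise different since op S x1 has three members (`sd_add_op`, sd x1 = 0).
-/

set_option autoImplicit false
set_option linter.unusedSectionVars false

namespace Pool.Agent.Lib.AndoB

open Pool.Agent.Lib.Ando

variable {V : Type*} [Fintype V] [DecidableEq V] (G : SimpleGraph V) [DecidableRel G.Adj]

variable {G} in
theorem stepAl (hG : G.IsRegularOfDegree 3) (hD : DLfree G 1) {S : Finset V} (hL : Level G 1 S)
    {b u1 u2 u3 x1 x2 x3 v1 v2 v3 o o' : V} (h : Pair G S b u1 u2 u3 x1 x2 x3 v1 v2 v3)
    (ox : op G S x1 = {u1, o, o'}) (so : sd G S o = 0) (so' : sd G S o' = 0 ∨ o' = v1) :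
    Good G := by
  have card3 : ({u1, o, o'} : Finset V).card = 3 := by
    have h1 := sd_add_op hG S x1
    rw [h.z1, ox] at h1
    omega
  have d12 : u1 ≠ o := by
    rintro rfl
    have h1 := Finset.card_le_two (a := u1) (b := o')
    rw [Finset.insert_idem] at card3
    omega
  have d13 : u1 ≠ o' := by
    rintro rfl
    have h1 := Finset.card_le_two (a := u1) (b := o)
    rw [Finset.insert_comm, Finset.pair_eq_singleton] at card3
    have h2 := Finset.card_le_two (a := o) (b := u1)
    omega
  have d23 : o ≠ o' := by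
    rintro rfl
    have h1 := Finset.card_le_two (a := u1) (b := o)
    rw [Finset.pair_eq_singleton] at card3
    omega
  have op1 : op G S u1 = {x1, b} := by rw [h.o1, Finset.pair_comm]
  have hv1 : sd G S v1 ≤ 1 := hL.tf v1
  have key : Eff G S {u1, x1} 0 1 0 0 0 ∧ ter G S {u1, x1} ⊆ {u1, v1, b, x1, o, o'} := by
    rcases so' with so' | rfl
    · refine ⟨eff_leaf G hL.tf h.h1 op1 h.b1.symm h.z1 h.sb ox d12 d13 d23 so so', ?_⟩
      rw [ter_leaf G h.s1 op1 h.z1 h.sb ox so so' hv1]
      intro t ht
      simp only [Finset.mem_insert, Finset.mem_singleton] at ht ⊢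
      tauto
    · have ox' : op G S x1 = {u1, o', o} := by rw [ox, Finset.pair_comm o o']
      refine ⟨eff_be hL.tf h.h1 h.s1 op1 h.b1.symm h.z1 h.sb ox' d13 d12 d23.symm so, ?_⟩
      rw [ter_be G hL.tf h.s1 op1 h.z1 h.sb ox' so]
      intro t ht
      simp only [Finset.mem_insert, Finset.mem_singleton] at ht ⊢
      tauto
  rcases tokEx hG hD hL h ox so so' with hg | ⟨F, hF, hdis⟩
  · exact hg
  · have hd : Disjoint (ter G S F) (ter G S {u1, x1}) := hdis.mono_right key.2
    refine assemble hG (k := 1) hL.imb_eq hL.tf (Finset.univ : Finset Bool)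
      (fun i => if i then F else {u1, x1}) ?_ (fun i => if i then (-1) else 0)
      (fun i => if i then 0 else 1) (fun _ => 0) (fun i => if i then 1 else 0) (fun _ => 0)
      ?_ ?_ ?_ ?_
    · intro i _ j _ hij
      cases i <;> cases j
      · exact absurd rfl hij
      · exact hd.symm
      · exact hd
      · exact absurd rfl hij
    · intro i _
      cases i
      · exact key.1
      · exact hF
    · simp
    · simp
    · rfl

end Pool.Agent.Lib.AndoB
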