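import Pool.Agent.Lib.AndoB.StepAl
import Pool.Agent.Lib.AndoB.OpGa
import Pool.Agent.Lib.Ando.OpB2
import Pool.Agent.Lib.Ando.StarB12

/-!
# AndoB.StepX: the four done conditions (al), (be), (be'), (ga) together

`Good G`, or op S x1 = {u1, p, q} with p, q in U, different from v1 (and u1, p, q different).
op S x1 has three members (sd x1 = 0), one is u1; the others p, q are white, sd 0 or 1 (`hL.tf`).
* both sd 0: `stepAl`.  * sd p = 0, q = v1 (or reversed): `stepAl` with o = p, o' = v1.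
* sd p = 0, sd q = 1, q /= v1 (or reversed): (be), `eff_B2` with w = q, o = p and the index j in {2, 3} with q not in sm S uj (exchange 2, 3 by `Pair.swap`, `Pair.rot`; sm S q has one
  element), then `StarB12Aux.good_of_eff`.
* p = v1, sd q = 1 (or reversed): (ga), `eff_ga` with r = q and j as before.
* otherwise sd p = sd q = 1, p, q /= v1: the second alternative.
-/

set_option autoImplicit false
set_option linter.unusedSectionVars false

namespace Pool.Agent.Lib.AndoB

open Pool.Agent.Lib.Ando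

variable {V : Type*} [Fintype V] [DecidableEq V] (G : SimpleGraph V) [DecidableRel G.Adj]

namespace StepXAux

variable {G}

/-- operation (be) -/
theorem be (hG : G.IsRegularOfDegree 3) {S : Finset V} (hL : Level G 1 S)
    {b u1 u2 u3 x1 x2 x3 v1 v2 v3 w o : V} (h : Pair G S b u1 u2 u3 x1 x2 x3 v1 v2 v3)
    (ox : op G S x1 = {u1, w, o}) (nw : u1 ≠ w) (no : u1 ≠ o) (nwo : w ≠ o)
    (hw : sd G S w = 1) (ho : sd G S o = 0) (hwv : w ≠ v1) : Good G := by
  have htf := hL.tf
  obtain ⟨-, -, hv23, -, -, -, hu2v1, -, -, hu3v1, -, -, -, -, -, -, -, -, -, -, -, -, -, -,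
    hx1u2, hx1u3, -⟩ := h.facts htf
  have himb : imb S = 2 := by
    have h5 := hL.imb_eq
    rw [h5]
    norm_num
  have hwx : w ∈ op G S x1 := by rw [ox]; simp
  have hax1w : G.Adj x1 w := (mem_op.1 hwx).1
  have hwsm1 : w ∉ sm G S u1 := by
    rw [h.s1, Finset.mem_singleton]
    exact hwv
  have hwu2 : w ≠ u2 := by
    intro h5
    rw [h5] at hax1w
    exact hx1u2 hax1w
  have hwu3 : w ≠ u3 := by
    intro h5
    rw [h5] at hax1w
    exact hx1u3 hax1w
  by_cases hw2 : w ∈ sm G S u2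
  · have hwv2 : w = v2 := by
      rw [h.s2, Finset.mem_singleton] at hw2
      exact hw2
    have hw3 : w ∉ sm G S u3 := by
      rw [h.s3, Finset.mem_singleton, hwv2]
      exact hv23
    have hob : op G S b = {u1, u3, u2} := by
      rw [h.ob]
      congr 1
      exact Finset.pair_comm u2 u3
    have hu : u3 ∉ sm G S u1 := by
      rw [h.s1, Finset.mem_singleton]
      exact hu3v1
    exact StarB12Aux.good_of_eff hG himb
      (eff_B2 G htf h.hb h.sb hob h.n13 h.n12 h.n23.symm h.h1 h.h3 h.o1 h.o3 h.b1 h.b3 h.x13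
        h.z1 h.z3 ox nw no nwo hw ho hu hwsm1 hw3 hwu3)
  · have hu : u2 ∉ sm G S u1 := by
      rw [h.s1, Finset.mem_singleton]
      exact hu2v1
    exact StarB12Aux.good_of_eff hG himb
      (eff_B2 G htf h.hb h.sb h.ob h.n12 h.n13 h.n23 h.h1 h.h2 h.o1 h.o2 h.b1 h.b2 h.x12
        h.z1 h.z2 ox nw no nwo hw ho hu hwsm1 hw2 hwu2)

/-- operation (ga) -/
theorem ga (hG : G.IsRegularOfDegree 3) {S : Finset V} (hL : Level G 1 S)
    {b u1 u2 u3 x1 x2 x3 v1 v2 v3 r : V} (h : Pair G S b u1 u2 u3 x1 x2 x3 v1 v2 v3)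
    (ox : op G S x1 = {u1, v1, r}) (nr : u1 ≠ r) (nvr : v1 ≠ r) (hr : sd G S r = 1) :
    Good G := by
  have htf := hL.tf
  obtain ⟨-, -, hv23, hu1v1, -, -, hu2v1, -, -, hu3v1, -, -, -, -, -, -, -, -, -, -, -, -, -, -,
    hx1u2, hx1u3, -⟩ := h.facts htf
  have himb : imb S = 2 := by
    have h5 := hL.imb_eq
    rw [h5]
    norm_num
  have hrx : r ∈ op G S x1 := by rw [ox]; simp
  have hax1r : G.Adj x1 r := (mem_op.1 hrx).1
  have hru2 : r ≠ u2 := by
    intro h5
    rw [h5] at hax1r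
    exact hx1u2 hax1r
  have hru3 : r ≠ u3 := by
    intro h5
    rw [h5] at hax1r
    exact hx1u3 hax1r
  by_cases hr2 : r ∈ sm G S u2
  · have hrv2 : r = v2 := by
      rw [h.s2, Finset.mem_singleton] at hr2
      exact hr2
    have hr3 : r ∉ sm G S u3 := by
      rw [h.s3, Finset.mem_singleton, hrv2]
      exact hv23
    have hob : op G S b = {u1, u3, u2} := by
      rw [h.ob]
      congr 1
      exact Finset.pair_comm u2 u3
    have hu : u3 ∉ sm G S u1 := by
      rw [h.s1, Finset.mem_singleton]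
      exact hu3v1
    exact StarB12Aux.good_of_eff hG himb
      (eff_ga htf h.hb h.sb hob h.n13 h.n12 h.n23.symm h.h1 h.h3 h.o1 h.o3 h.b1 h.b3 h.x13
        h.z1 h.z3 h.s1 ox hu1v1 nr nvr hr hu hr3 hru3)
  · have hu : u2 ∉ sm G S u1 := by
      rw [h.s1, Finset.mem_singleton]
      exact hu2v1
    exact StarB12Aux.good_of_eff hG himb
      (eff_ga htf h.hb h.sb h.ob h.n12 h.n13 h.n23 h.h1 h.h2 h.o1 h.o2 h.b1 h.b2 h.x12
        h.z1 h.z2 h.s1 ox hu1v1 nr nvr hr hu hr2 hru2)

end StepXAux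

variable {G} in
theorem stepX (hG : G.IsRegularOfDegree 3) (hD : DLfree G 1) {S : Finset V} (hL : Level G 1 S)
    {b u1 u2 u3 x1 x2 x3 v1 v2 v3 : V} (h : Pair G S b u1 u2 u3 x1 x2 x3 v1 v2 v3) :
    Good G ∨ ∃ p q, op G S x1 = {u1, p, q} ∧ u1 ≠ p ∧ u1 ≠ q ∧ p ≠ q ∧ sd G S p = 1 ∧
      sd G S q = 1 ∧ p ≠ v1 ∧ q ≠ v1 := by
  have htf := hL.tf
  have hx1m : x1 ∈ op G S u1 := by rw [h.o1]; simp
  have hu1x : u1 ∈ op G S x1 := op_symm hx1m
  have hop3 : (op G S x1).card = 3 := by
    have h5 := sd_add_op hG S x1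
    rw [h.z1] at h5
    omega
  obtain ⟨p, q, hox, h1p, h1q, hpq⟩ := StarB12Aux.three' hop3 hu1x
  have hox' : op G S x1 = {u1, q, p} := by
    rw [hox]
    congr 1
    exact Finset.pair_comm p q
  have tp := htf p
  have tq := htf q
  rcases Nat.eq_zero_or_pos (sd G S p) with sp | sp
  · rcases Nat.eq_zero_or_pos (sd G S q) with sq | sq
    · exact Or.inl (stepAl hG hD hL h hox sp (Or.inl sq))
    · by_cases hqv : q = v1
      · exact Or.inl (stepAl hG hD hL h hox sp (Or.inr hqv))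
      · exact Or.inl (StepXAux.be hG hL h hox' h1q h1p hpq.symm (by omega) sp hqv)
  · rcases Nat.eq_zero_or_pos (sd G S q) with sq | sq
    · by_cases hpv : p = v1
      · exact Or.inl (stepAl hG hD hL h hox' sq (Or.inr hpv))
      · exact Or.inl (StepXAux.be hG hL h hox h1p h1q hpq (by omega) sq hpv)
    · by_cases hpv : p = v1
      · subst hpv
        exact Or.inl (StepXAux.ga hG hL h hox h1q hpq (by omega))
      · by_cases hqv : q = v1
        · subst hqv
          exact Or.inl (StepXAux.ga hG hL h hox' h1p hpq.symm (by omega))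
        · exact Or.inr ⟨p, q, hox, h1p, h1q, hpq, by omega, by omega, hpv, hqv⟩

end Pool.Agent.Lib.AndoB
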