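import Pool.Agent.Lib.AndoB.LemT3
import Pool.Agent.Lib.AndoB.Count
import Pool.Agent.Lib.AndoB.OpTok

/-!
# AndoB.TokEx: a token disjoint from the operation at x1

op S x1 = {u1, o, o'} with sd o = 0 and (sd o' = 0 or o' = v1).  Conclusion: `Good G`, or some F with effect (-1) 0 0 1 0 (a black path with three vertices) whose territory is disjoint from
A = {u1, v1, b, x1, o, o'}.

`count` with k = 1: 6 + #L0 ≤ #sites + #D, D = {l : l ∉ S, sd l = 1, |UN l| = 2}, L0 = {l : l ∉ S, sd l = 1, UN l = ∅}.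
(1) Some site u is not in {u1, u2, u3, v1}: F = {u}, `eff_zz`, `ter_zz`: territory {u, u*, c, d}.  u, u* are not u1, v1 (sm S u1 = {v1}, sm S v1 = {u1}); c, d are black with sd = 0; c = b
    gives u in op S b = {u1, u2, u3}; c = x1 gives u in op S x1 = {u1, o, o'} (sd o = 0, sd u = 1, so u = u1 or u = o' = v1).  o, o' have sd 0 or o' = v1.
(2) Otherwise #sites ≤ 4, so #D ≥ 2 + #L0.  D' = {l in D : the partner l' of l is not in L0}: the map l ↦ l' is injective, so #D' ≥ 2.  For l in D' choose w in `UN S l'`; let UN S l = {z, z'}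
    (= op S l, `fact1g_sm`: sm S z = {z'}), op S z = {l, x}, op S z' = {l, x'}, op S w = {l', bw}, sm S w = {w'}.  By `lemT_x` sd x = sd x' = 0, and by `lemT_w` `Good G` or sd bw = 0.
    x /= x' (`DLfree`, first part), so exchanging z, z' we may assume x /= bw.  F = {z, l, w}: `eff_tok`, `ter_tok`: territory {z, z', x, l, l', w, w', bw}.
    It is disjoint from A unless w = v1: z, z' are adjacent to l, and op S u1 consists of vertices of sd 0, so z, z' /= u1, and then z, z' /= v1 (partners); the same for w /= u1, so w' /= v1; w' = u1 iff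
    w = v1; l, l' have sd 1 and are black: not in A (b, x1: sd 0; u1, v1, o, o' are white);
    x, bw are black with sd 0: x = b gives z in {u1, u2, u3}, but l in op S z, sd l = 1: no; x = x1 gives z in {u1, o, o'}: z = o' = v1: no; bw = b: the same; bw = x1 gives w = u1 or w = o' = v1.
    z, z', w, w' have sd 1, so /= o, and o' has sd 0 or o' = v1.
    If w = v1, then l' is in op S v1 and op S v1 = {l', bw} with sd bw = 0, so l' and hence l are determined.  So of two different elements of D' (with any choices of w) at least one gives a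
    territory disjoint from A.
-/

set_option autoImplicit false
set_option linter.unusedSectionVars false

namespace Pool.Agent.Lib.AndoB

open Pool.Agent.Lib.Ando

variable {V : Type*} [Fintype V] [DecidableEq V] (G : SimpleGraph V) [DecidableRel G.Adj]

namespace TokExAux

open StructAux TerAux

variable {G} in
private theorem white_one {S : Finset V} (htf : ∀ v, sd G S v ≤ 1)
    {b u1 u2 u3 x1 x2 x3 v1 v2 v3 : V} (h : Pair G S b u1 u2 u3 x1 x2 x3 v1 v2 v3) :
    u1 ∈ S ∧ v1 ∈ S ∧ b ∉ S ∧ x1 ∉ S ∧ sm G S v1 = {u1} ∧ sd G S b = 0 ∧ sd G S x1 = 0 ∧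
      sd G S v1 = 1 := by
  obtain ⟨-, -, -, -, -, -, -, -, -, -, -, -, hv1, -, -, sv1, -, -, smv1, -, -, -, -, -, -, -,
    -, -, -, -, hx1, -, -⟩ := h.facts htf
  exact ⟨h.h1, hv1, h.hb, hx1, smv1, h.sb, h.z1, sv1⟩

variable {G} in
/-- A white vertex adjacent to a black vertex of monochromatic degree one is not one of the `ui`. -/
private theorem ne_ui {S : Finset V}
    {b u1 u2 u3 x1 x2 x3 v1 v2 v3 : V} (h : Pair G S b u1 u2 u3 x1 x2 x3 v1 v2 v3) {t m : V}
    (hm : m ∈ op G S t) (sm1 : sd G S m = 1) : t ≠ u1 ∧ t ≠ u2 ∧ t ≠ u3 := by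
  have key : ∀ u x : V, op G S u = {b, x} → sd G S x = 0 → t ≠ u := by
    intro u x hu hx e
    subst e
    rw [hu, Finset.mem_insert, Finset.mem_singleton] at hm
    rcases hm with rfl | rfl
    · rw [h.sb] at sm1
      exact absurd sm1 (by decide)
    · rw [hx] at sm1
      exact absurd sm1 (by decide)
  exact ⟨key _ _ h.o1 h.z1, key _ _ h.o2 h.z2, key _ _ h.o3 h.z3⟩

variable {G} in
private theorem fin {S : Finset V} (htf : ∀ v, sd G S v ≤ 1)
    {b u1 u2 u3 x1 x2 x3 v1 v2 v3 o o' : V} (h : Pair G S b u1 u2 u3 x1 x2 x3 v1 v2 v3)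
    (ox : op G S x1 = {u1, o, o'}) (so : sd G S o = 0) (so' : sd G S o' = 0 ∨ o' = v1)
    {l l' z z' x w w' bw : V}
    (hl : l ∉ S) (sl : sm G S l = {l'}) (ol : op G S l = {z, z'}) (hzz : z ≠ z')
    (sz : sm G S z = {z'}) (oz : op G S z = {l, x}) (hx : sd G S x = 0) (sw : sm G S w = {w'})
    (ow : op G S w = {l', bw}) (hbw : sd G S bw = 0) (hxb : x ≠ bw) (hwv : w ≠ v1) :
    ∃ F : Finset V, Eff G S F (-1) 0 0 1 0 ∧
      Disjoint (ter G S F) {u1, v1, b, x1, o, o'} := by
  obtain ⟨wu1, wv1, bb, bx1, smv1, sb, sx1, sv1⟩ := white_one htf h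
  refine ⟨{z, l, w}, eff_tok htf hl sl ol hzz sz oz hx sw ow hbw hxb, ?_⟩
  rw [ter_tok G htf sl ol sz oz hx sw ow hbw]
  have sl' : sm G S l' = {l} := sm_back sl (htf _)
  have sz' : sm G S z' = {z} := sm_back sz (htf _)
  have sw' : sm G S w' = {w} := sm_back sw (htf _)
  have dl : sd G S l = 1 := by unfold sd; rw [sl]; rfl
  have dl' : sd G S l' = 1 := by unfold sd; rw [sl']; rfl
  have dz : sd G S z = 1 := by unfold sd; rw [sz]; rfl
  have dz' : sd G S z' = 1 := by unfold sd; rw [sz']; rfl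
  have dw : sd G S w = 1 := by unfold sd; rw [sw]; rfl
  have dw' : sd G S w' = 1 := by unfold sd; rw [sw']; rfl
  have mz : z ∈ op G S l := by rw [ol]; simp
  have mz' : z' ∈ op G S l := by rw [ol]; simp
  have zS : z ∈ S := op_white hl mz
  have zS' : z' ∈ S := op_white hl mz'
  have lS' : l' ∉ S := by
    have : l' ∈ sm G S l := by rw [sl]; simp
    exact fun h' => hl ((mem_sm.1 this).2.1 h')
  have mw : l' ∈ op G S w := by rw [ow]; simp
  have wS : w ∈ S := op_white lS' (op_symm mw)
  have wS' : w' ∈ S := by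
    have : w' ∈ sm G S w := by rw [sw]; simp
    exact (mem_sm.1 this).2.2 wS
  have mx : x ∈ op G S z := by rw [oz]; simp
  have xS : x ∉ S := op_black zS mx
  have mb : bw ∈ op G S w := by rw [ow]; simp
  have bS : bw ∉ S := op_black wS mb
  have z_u := ne_ui h (op_symm mz) dl
  have z_u' := ne_ui h (op_symm mz') dl
  have w_u := ne_ui h mw dl'
  have z_v : z ≠ v1 := by
    intro e
    rw [e, smv1, Finset.singleton_inj] at sz
    exact z_u'.1 sz.symm
  have z_v' : z' ≠ v1 := by
    intro e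
    rw [e, smv1, Finset.singleton_inj] at sz'
    exact z_u.1 sz'.symm
  have w_v' : w' ≠ v1 := by
    intro e
    rw [e, smv1, Finset.singleton_inj] at sw'
    exact w_u.1 sw'.symm
  have w_u' : w' ≠ u1 := by
    intro e
    rw [e, h.s1, Finset.singleton_inj] at sw'
    exact hwv sw'.symm
  -- vertices of monochromatic degree one different from `v1` are not `o`, `o'`
  have no : ∀ t, sd G S t = 1 → t ≠ o := by
    intro t ht e
    rw [e, so] at ht
    exact absurd ht (by decide)
  have no' : ∀ t, sd G S t = 1 → t ≠ v1 → t ≠ o' := by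
    intro t ht hv e
    rcases so' with s | s
    · rw [e, s] at ht
      exact absurd ht (by decide)
    · exact hv (e.trans s)
  have nb : ∀ t, t ∈ S → t ≠ b ∧ t ≠ x1 := fun t ht =>
    ⟨fun e => bb (e ▸ ht), fun e => bx1 (e ▸ ht)⟩
  have oS : o ∈ S := op_white bx1 (by rw [ox]; simp)
  have oS' : o' ∈ S := op_white bx1 (by rw [ox]; simp)
  have nw : ∀ t, t ∉ S → t ≠ u1 ∧ t ≠ v1 ∧ t ≠ o ∧ t ≠ o' := fun t ht =>
    ⟨fun e => ht (e ▸ wu1), fun e => ht (e ▸ wv1), fun e => ht (e ▸ oS), fun e => ht (e ▸ oS')⟩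
  have nbx : ∀ t m c : V, sd G S t = 1 → t ≠ v1 → m ∈ op G S t → sd G S m = 1 →
      c ∈ op G S t → c ≠ b ∧ c ≠ x1 := by
    intro t m c ht hv hm sm1 hc
    have hu := ne_ui h hm sm1
    constructor
    · intro e
      rw [e] at hc
      have := op_symm hc
      rw [h.ob] at this
      simp only [Finset.mem_insert, Finset.mem_singleton] at this
      rcases this with e | e | e
      · exact hu.1 e
      · exact hu.2.1 e
      · exact hu.2.2 e
    · intro e
      rw [e] at hc
      have := op_symm hc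
      rw [ox] at this
      simp only [Finset.mem_insert, Finset.mem_singleton] at this
      rcases this with e | e | e
      · exact hu.1 e
      · exact no _ ht e
      · exact no' _ ht hv e
  have nx := nbx z l x dz z_v (op_symm mz) dl mx
  have nbw := nbx w l' bw dw hwv mw dl' mb
  have ne1 : ∀ t, sd G S t = 1 → t ≠ b ∧ t ≠ x1 := by
    intro t ht
    constructor
    · intro e
      rw [e, sb] at ht
      exact absurd ht (by decide)
    · intro e
      rw [e, sx1] at ht
      exact absurd ht (by decide)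
  rw [Finset.disjoint_left]
  intro t ht
  simp only [Finset.mem_insert, Finset.mem_singleton] at ht ⊢
  have white : ∀ t, t ∈ S → sd G S t = 1 → t ≠ u1 → t ≠ v1 →
      ¬ (t = u1 ∨ t = v1 ∨ t = b ∨ t = x1 ∨ t = o ∨ t = o') := by
    intro t h1 h2 h3 h4
    rintro (e | e | e | e | e | e)
    · exact h3 e
    · exact h4 e
    · exact (nb t h1).1 e
    · exact (nb t h1).2 e
    · exact no t h2 e
    · exact no' t h2 h4 e
  have black : ∀ t, t ∉ S → t ≠ b → t ≠ x1 →
      ¬ (t = u1 ∨ t = v1 ∨ t = b ∨ t = x1 ∨ t = o ∨ t = o') := by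
    intro t h1 h2 h3
    rintro (e | e | e | e | e | e)
    · exact (nw t h1).1 e
    · exact (nw t h1).2.1 e
    · exact h2 e
    · exact h3 e
    · exact (nw t h1).2.2.1 e
    · exact (nw t h1).2.2.2 e
  rcases ht with rfl | rfl | rfl | rfl | rfl | rfl | rfl | rfl
  · exact white _ zS dz z_u.1 z_v
  · exact white _ zS' dz' z_u'.1 z_v'
  · exact black _ xS nx.1 nx.2
  · exact black _ hl (ne1 _ dl).1 (ne1 _ dl).2
  · exact black _ lS' (ne1 _ dl').1 (ne1 _ dl').2
  · exact white _ wS dw w_u.1 hwv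
  · exact white _ wS' dw' w_u' w_v'
  · exact black _ bS nbw.1 nbw.2

variable {G} in
private theorem key (hG : G.IsRegularOfDegree 3) (hD : DLfree G 1) {S : Finset V}
    (hL : Level G 1 S)
    {b u1 u2 u3 x1 x2 x3 v1 v2 v3 o o' : V} (h : Pair G S b u1 u2 u3 x1 x2 x3 v1 v2 v3)
    (ox : op G S x1 = {u1, o, o'}) (so : sd G S o = 0) (so' : sd G S o' = 0 ∨ o' = v1)
    {l l' w : V} (hl : l ∉ S) (sl : sm G S l = {l'}) (hU : (UN G S l).card = 2)
    (hw : w ∈ UN G S l') :
    (Good G ∨ ∃ F : Finset V, Eff G S F (-1) 0 0 1 0 ∧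
      Disjoint (ter G S F) {u1, v1, b, x1, o, o'}) ∨
      (w = v1 ∧ ∃ bw, op G S w = {l', bw} ∧ sd G S bw = 0) := by
  have htf := hL.tf
  have dl : sd G S l = 1 := by unfold sd; rw [sl]; rfl
  obtain ⟨z, z', hzz, hUe⟩ := Finset.card_eq_two.1 hU
  have hz : z ∈ UN G S l := by rw [hUe]; simp
  have hz' : z' ∈ UN G S l := by rw [hUe]; simp
  have hc : (op G S l).card = 2 := by
    have := sd_add_op hG S l
    omega
  have ol : op G S l = {z, z'} := by
    rw [← hUe]
    symm
    refine Finset.eq_of_subset_of_card_le (Finset.filter_subset _ _) ?_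
    rw [hc]
    exact hU.ge
  have sz := fact1g_sm hG hL le_rfl hl dl hz hz' hzz
  have sz' := fact1g_sm hG hL le_rfl hl dl hz' hz hzz.symm
  have dz := (mem_UN.1 hz).2
  have dz' := (mem_UN.1 hz').2
  have dw := (mem_UN.1 hw).2
  have c1 : (op G S z).card = 2 := by
    have := sd_add_op hG S z
    omega
  have c2 : (op G S z').card = 2 := by
    have := sd_add_op hG S z'
    omega
  have c3 : (op G S w).card = 2 := by
    have := sd_add_op hG S w
    omega
  obtain ⟨x, hlx, oz⟩ := StarBasicAux.pair_of_card (op_symm (mem_UN.1 hz).1) c1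
  obtain ⟨x', hlx', oz'⟩ := StarBasicAux.pair_of_card (op_symm (mem_UN.1 hz').1) c2
  obtain ⟨bw, hlb, ow⟩ := StarBasicAux.pair_of_card (op_symm (mem_UN.1 hw).1) c3
  obtain ⟨w', sw⟩ := Finset.card_eq_one.1 (show (sm G S w).card = 1 from dw)
  have mx : x ∈ op G S z := by rw [oz]; simp
  have mx' : x' ∈ op G S z' := by rw [oz']; simp
  have mb : bw ∈ op G S w := by rw [ow]; simp
  have hx := lemT_x hG hD hL h hl dl hz hz' hzz mx hlx.symm
  have hx' := lemT_x hG hD hL h hl dl hz' hz hzz.symm mx' hlx'.symm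
  rcases lemT_w hG hD hL h hl sl hz hz' hzz hw mb hlb.symm with hg | hbw
  · exact Or.inl (Or.inl hg)
  by_cases hwv : w = v1
  · exact Or.inr ⟨hwv, bw, ow, hbw⟩
  · left
    right
    have azz : G.Adj z z' := (mem_sm.1 (show z' ∈ sm G S z by rw [sz]; simp)).1
    have alz : G.Adj l z := (mem_op.1 (mem_UN.1 hz).1).1
    have alz' : G.Adj l z' := (mem_op.1 (mem_UN.1 hz').1).1
    have zS : z ∈ S := op_white hl (mem_UN.1 hz).1
    have zS' : z' ∈ S := op_white hl (mem_UN.1 hz').1
    have hxx : x ≠ x' := by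
      intro e
      have h1 : G.Adj x z := ((mem_op.1 mx).1).symm
      have h2 : G.Adj x z' := by
        rw [e]
        exact ((mem_op.1 mx').1).symm
      exact hlx.symm ((hD S hL l z z' hl dl zS zS' alz alz' azz).1 x h1 h2)
    by_cases hxb : x = bw
    · have hxb' : x' ≠ bw := fun e => hxx (hxb.trans e.symm)
      have ol' : op G S l = {z', z} := by rw [ol, Finset.pair_comm]
      exact fin htf h ox so so' hl sl ol' hzz.symm sz' oz' hx' sw ow hbw hxb' hwv
    · exact fin htf h ox so so' hl sl ol hzz sz oz hx sw ow hbw hxb hwv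

variable {G} in
private theorem site_case (hG : G.IsRegularOfDegree 3) {S : Finset V}
    (htf : ∀ v, sd G S v ≤ 1)
    {b u1 u2 u3 x1 x2 x3 v1 v2 v3 o o' : V} (h : Pair G S b u1 u2 u3 x1 x2 x3 v1 v2 v3)
    (ox : op G S x1 = {u1, o, o'}) (so : sd G S o = 0) (so' : sd G S o' = 0 ∨ o' = v1)
    {u : V} (hu : u ∈ sites G S) (n1 : u ≠ u1) (n2 : u ≠ u2) (n3 : u ≠ u3) (nv : u ≠ v1) :
    ∃ F : Finset V, Eff G S F (-1) 0 0 1 0 ∧
      Disjoint (ter G S F) {u1, v1, b, x1, o, o'} := by
  obtain ⟨wu1, wv1, bb, bx1, smv1, sb, sx1, sv1⟩ := white_one htf h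
  obtain ⟨uS, du, hs⟩ := mem_sites.1 hu
  have c1 : (op G S u).card = 2 := by
    have := sd_add_op hG S u
    omega
  obtain ⟨c, d, hcd, hop⟩ := Finset.card_eq_two.1 c1
  have mc : c ∈ op G S u := by rw [hop]; simp
  have md : d ∈ op G S u := by rw [hop]; simp
  obtain ⟨v, hv⟩ := Finset.card_eq_one.1 (show (sm G S u).card = 1 from du)
  have mv : v ∈ sm G S u := by rw [hv]; simp
  have hv' := sm_back hv (htf _)
  have dv : sd G S v = 1 := by unfold sd; rw [hv']; rfl
  have vS : v ∈ S := (mem_sm.1 mv).2.2 uS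
  refine ⟨{u}, eff_zz G htf uS hop hcd (hs c mc) (hs d md), ?_⟩
  rw [ter_zz G hv hop (hs c mc) (hs d md) (htf _)]
  have oS : o ∈ S := op_white bx1 (by rw [ox]; simp)
  have oS' : o' ∈ S := op_white bx1 (by rw [ox]; simp)
  have no : ∀ t, sd G S t = 1 → t ≠ o := by
    intro t ht e
    rw [e, so] at ht
    exact absurd ht (by decide)
  have no' : ∀ t, sd G S t = 1 → t ≠ v1 → t ≠ o' := by
    intro t ht hv e
    rcases so' with s | s
    · rw [e, s] at ht
      exact absurd ht (by decide)
    · exact hv (e.trans s)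
  have v_u : v ≠ u1 := by
    intro e
    rw [e, h.s1, Finset.singleton_inj] at hv'
    exact nv hv'.symm
  have v_v : v ≠ v1 := by
    intro e
    rw [e, smv1, Finset.singleton_inj] at hv'
    exact n1 hv'.symm
  have white : ∀ t, t ∈ S → sd G S t = 1 → t ≠ u1 → t ≠ v1 →
      ¬ (t = u1 ∨ t = v1 ∨ t = b ∨ t = x1 ∨ t = o ∨ t = o') := by
    intro t h1 h2 h3 h4
    rintro (e | e | e | e | e | e)
    · exact h3 e
    · exact h4 e
    · exact bb (e ▸ h1)
    · exact bx1 (e ▸ h1)
    · exact no t h2 e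
    · exact no' t h2 h4 e
  have black : ∀ t, t ∈ op G S u →
      ¬ (t = u1 ∨ t = v1 ∨ t = b ∨ t = x1 ∨ t = o ∨ t = o') := by
    intro t ht
    have tS : t ∉ S := op_black uS ht
    have ht' := op_symm ht
    rintro (e | e | e | e | e | e)
    · exact tS (e ▸ wu1)
    · exact tS (e ▸ wv1)
    · rw [e, h.ob] at ht'
      simp only [Finset.mem_insert, Finset.mem_singleton] at ht'
      rcases ht' with e | e | e
      · exact n1 e
      · exact n2 e
      · exact n3 e
    · rw [e, ox] at ht'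
      simp only [Finset.mem_insert, Finset.mem_singleton] at ht'
      rcases ht' with e | e | e
      · exact n1 e
      · exact no _ du e
      · exact no' _ du nv e
    · exact tS (e ▸ oS)
    · exact tS (e ▸ oS')
  rw [Finset.disjoint_left]
  intro t ht
  simp only [Finset.mem_insert, Finset.mem_singleton] at ht ⊢
  rcases ht with rfl | rfl | rfl | rfl
  · exact white _ uS du n1 nv
  · exact white _ vS dv v_u v_v
  · exact black _ mc
  · exact black _ md

end TokExAux

open TokExAux StructAux TerAux in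
variable {G} in
theorem tokEx (hG : G.IsRegularOfDegree 3) (hD : DLfree G 1) {S : Finset V} (hL : Level G 1 S)
    {b u1 u2 u3 x1 x2 x3 v1 v2 v3 o o' : V} (h : Pair G S b u1 u2 u3 x1 x2 x3 v1 v2 v3)
    (ox : op G S x1 = {u1, o, o'}) (so : sd G S o = 0) (so' : sd G S o' = 0 ∨ o' = v1) :
    Good G ∨ ∃ F : Finset V, Eff G S F (-1) 0 0 1 0 ∧
      Disjoint (ter G S F) {u1, v1, b, x1, o, o'} := by
  have htf := hL.tf
  by_cases hsite : ∃ u ∈ sites G S, u ≠ u1 ∧ u ≠ u2 ∧ u ≠ u3 ∧ u ≠ v1
  · obtain ⟨u, hu, n1, n2, n3, nv⟩ := hsite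
    exact Or.inr (site_case hG htf h ox so so' hu n1 n2 n3 nv)
  have hs4 : (sites G S).card ≤ 4 := by
    have hsub : sites G S ⊆ ({u1, u2, u3, v1} : Finset V) := by
      intro u hu
      simp only [Finset.mem_insert, Finset.mem_singleton]
      by_contra hn
      push Not at hn
      exact hsite ⟨u, hu, hn⟩
    exact (Finset.card_le_card hsub).trans Finset.card_le_four
  have hcount := count hG hL le_rfl
  set L0 := Finset.univ.filter (fun l => l ∉ S ∧ sd G S l = 1 ∧ UN G S l = ∅) with hL0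
  set D := Finset.univ.filter (fun l => l ∉ S ∧ sd G S l = 1 ∧ (UN G S l).card = 2) with hDD
  -- the partner
  have hpart : ∀ l, sd G S l = 1 → ∃ l', sm G S l = {l'} := fun l hl =>
    Finset.card_eq_one.1 hl
  classical
  let pt : V → V := fun l => if hl : sd G S l = 1 then Classical.choose (hpart l hl) else l
  have hpt : ∀ l, sd G S l = 1 → sm G S l = {pt l} := by
    intro l hl
    have : pt l = Classical.choose (hpart l hl) := by simp [pt, hl]
    rw [this]
    exact Classical.choose_spec (hpart l hl)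
  have hbad : (D.filter (fun l => pt l ∈ L0)).card ≤ L0.card := by
    refine Finset.card_le_card_of_injOn pt ?_ ?_
    · intro l hl
      exact (Finset.mem_filter.1 hl).2
    · intro l hl m hm hlm
      have hl1 := (Finset.mem_filter.1 (Finset.mem_filter.1 hl).1).2.2.1
      have hm1 := (Finset.mem_filter.1 (Finset.mem_filter.1 hm).1).2.2.1
      have e1 := sm_back (hpt l hl1) (htf _)
      have e2 := sm_back (hpt m hm1) (htf _)
      rw [← hlm, e1, Finset.singleton_inj] at e2
      exact e2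
  have hgood : 2 ≤ (D.filter (fun l => ¬ pt l ∈ L0)).card := by
    have := Finset.card_filter_add_card_filter_not (s := D) (fun l => pt l ∈ L0)
    omega
  obtain ⟨l, m, hl, hm, hlm⟩ := Finset.one_lt_card_iff.1 (by omega :
    1 < (D.filter (fun l => ¬ pt l ∈ L0)).card)
  have step : ∀ l ∈ D.filter (fun l => ¬ pt l ∈ L0),
      (Good G ∨ ∃ F : Finset V, Eff G S F (-1) 0 0 1 0 ∧
        Disjoint (ter G S F) {u1, v1, b, x1, o, o'}) ∨
      (∃ bw, op G S v1 = {pt l, bw} ∧ sd G S bw = 0) := by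
    intro l hl
    obtain ⟨h1, h2⟩ := Finset.mem_filter.1 hl
    obtain ⟨-, hlS, dl, hU⟩ := Finset.mem_filter.1 h1
    have sl := hpt l dl
    have sl' := sm_back sl (htf _)
    have dl' : sd G S (pt l) = 1 := by unfold sd; rw [sl']; rfl
    have lS' : pt l ∉ S := by
      have : pt l ∈ sm G S l := by rw [sl]; simp
      exact fun h' => hlS ((mem_sm.1 this).2.1 h')
    have hne : (UN G S (pt l)).Nonempty := by
      rw [Finset.nonempty_iff_ne_empty]
      intro he
      exact h2 (Finset.mem_filter.2 ⟨Finset.mem_univ _, lS', dl', he⟩)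
    obtain ⟨w, hw⟩ := hne
    rcases key hG hD hL h ox so so' hlS sl hU hw with hk | ⟨hwv, bw, ow, hbw⟩
    · exact Or.inl hk
    · right
      rw [hwv] at ow
      exact ⟨bw, ow, hbw⟩
  rcases step l hl with hk | ⟨bw, ow, hbw⟩
  · exact hk
  rcases step m hm with hk | ⟨bw', ow', hbw'⟩
  · exact hk
  exfalso
  have dl := (Finset.mem_filter.1 (Finset.mem_filter.1 hl).1).2.2.1
  have dm := (Finset.mem_filter.1 (Finset.mem_filter.1 hm).1).2.2.1
  have sl' := sm_back (hpt l dl) (htf _)
  have sm' := sm_back (hpt m dm) (htf _)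
  have dm' : sd G S (pt m) = 1 := by unfold sd; rw [sm']; rfl
  have hmem : pt m ∈ op G S v1 := by rw [ow']; simp
  rw [ow, Finset.mem_insert, Finset.mem_singleton] at hmem
  rcases hmem with e | e
  · rw [e, sl', Finset.singleton_inj] at sm'
    exact hlm sm'
  · rw [e, hbw] at dm'
    exact absurd dm' (by decide)

end Pool.Agent.Lib.AndoB
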